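import Pool.Agent.P.MP_3c2f8c_gt.Ex.An.Gm

/-! EXA-LapC: the Laplacian of the cone on functions of degree zero. -/

namespace Pool.Agent.P.MP_3c2f8c_gt.Ex

open Matrix MeasureTheory Topology

namespace LapCAux

theorem lin_sum {W : Type} [NormedAddCommGroup W] [NormedSpace ℝ W] (L : (I → ℝ) →L[ℝ] W)
    (u : I → ℝ) : L u = ∑ a, u a • L (Pi.single a 1) := by
  conv_lhs => rw [pi_eq_sum_univ' u]
  rw [map_sum]
  exact Finset.sum_congr rfl fun a _ => map_smul L _ _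

theorem bil_sum (B : (I → ℝ) →L[ℝ] (I → ℝ) →L[ℝ] ℝ) (u v : I → ℝ) :
    B u v = ∑ a, ∑ b, u a * v b * B (Pi.single a 1) (Pi.single b 1) := by
  rw [lin_sum B u, _root_.sum_apply]
  refine Finset.sum_congr rfl fun a _ => ?_
  rw [_root_.smul_apply, lin_sum (B (Pi.single a 1)) v, smul_eq_mul, Finset.mul_sum]
  exact Finset.sum_congr rfl fun b _ => by rw [smul_eq_mul, mul_assoc]

theorem pd_inner {F : (I → ℝ) → ℝ} (hF : ContDiffOn ℝ (⊤ : ℕ∞) F cone) {x : I → ℝ}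
    (hx : x ∈ cone) {c : ℝ} (hc : ∀ y ∈ cone, √(gm y).det = c * (NJ y)⁻¹ ^ 9) (a : I) :
    pd a (fun y => √(gm y).det * ∑ b, (gm y)⁻¹ a b * pd b F y) x =
      c * (NJ x)⁻¹ ^ 9 * (∑ b, UJ x a b *
          fderiv ℝ (fderiv ℝ F) x (Pi.single a 1) (Pi.single b 1) +
        ∑ b, pd a (fun y => UJ y a b) x * pd b F x -
        9 * (NJ x)⁻¹ * ∑ b, pd a NJ x * UJ x a b * pd b F x) := by
  have hN0 : NJ x ≠ 0 := hx.1.ne'
  have hn : cone ∈ 𝓝 x := isOpen_cone.mem_nhds hx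
  have e : (fun y => √(gm y).det * ∑ b, (gm y)⁻¹ a b * pd b F y) =ᶠ[𝓝 x]
      fun y => c * (NJ y)⁻¹ ^ 9 * ∑ b, UJ y a b * fderiv ℝ F y (Pi.single b 1) := by
    filter_upwards [hn] with y hy
    rw [hc y hy, gm_inv hy.1.ne']
    rfl
  have hN : HasFDerivAt (NJ : (I → ℝ) → ℝ) (fderiv ℝ NJ x) x :=
    (contDiff_NJ.differentiable (by simp) x).hasFDerivAt
  have h1 := (((hasDerivAt_inv hN0).pow 9).const_mul c).comp_hasFDerivAt x hN
  have hD : HasFDerivAt (fderiv ℝ F) (fderiv ℝ (fderiv ℝ F) x) x :=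
    (((hF.contDiffAt hn).fderiv_right (m := 1) (by norm_cast)).differentiableAt
      (by simp)).hasFDerivAt
  have h2 : ∀ b : I, HasFDerivAt (fun y => fderiv ℝ F y (Pi.single b 1))
      ((fderiv ℝ (fderiv ℝ F) x).flip (Pi.single b 1)) x := fun b => by
    simpa using hD.clm_apply (hasFDerivAt_const (Pi.single b (1 : ℝ) : I → ℝ) x)
  have h3 : ∀ b : I, HasFDerivAt (fun y => UJ y a b) (fderiv ℝ (fun y => UJ y a b) x) x :=
    fun b => ((contDiff_UJ a b).differentiable (by simp) x).hasFDerivAt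
  have h4 := HasFDerivAt.fun_sum (u := Finset.univ) fun b _ => (h3 b).fun_mul (h2 b)
  have h5 : HasFDerivAt
      (fun y => c * (NJ y)⁻¹ ^ 9 * ∑ b, UJ y a b * fderiv ℝ F y (Pi.single b 1)) _ x :=
    h1.fun_mul h4
  unfold pd at e ⊢
  rw [e.fderiv_eq, h5.fderiv]
  simp only [_root_.add_apply, _root_.smul_apply,
    _root_.sum_apply, ContinuousLinearMap.flip_apply, smul_eq_mul,
    Function.comp_apply, Finset.sum_add_distrib, Pi.pow_apply, mul_assoc, ← Finset.mul_sum]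
  rw [Finset.sum_congr rfl fun b _ => mul_comm (fderiv ℝ F x (Pi.single b 1)) _]
  simp only [Nat.cast_ofNat, Nat.add_one_sub_one, ← inv_pow]
  ring

end LapCAux

theorem euler {F : (I → ℝ) → ℝ} (hF : ContDiffOn ℝ (⊤ : ℕ∞) F cone)
    (h0 : ∀ t : ℝ, 0 < t → ∀ x ∈ cone, F (t • x) = F x) {x : I → ℝ} (hx : x ∈ cone) :
    fderiv ℝ F x x = 0 := by
  have hd : HasFDerivAt F (fderiv ℝ F x) ((1 : ℝ) • x) := by
    rw [one_smul]
    exact ((hF.contDiffAt (isOpen_cone.mem_nhds hx)).differentiableAt (by simp)).hasFDerivAt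
  have h1 := hd.comp_hasDerivAt (1 : ℝ) ((hasDerivAt_id' (1 : ℝ)).smul_const x)
  rw [one_smul] at h1
  have h2 : HasDerivAt (F ∘ fun t : ℝ => t • x) 0 1 := by
    refine (hasDerivAt_const (1 : ℝ) (F x)).congr_of_eventuallyEq ?_
    filter_upwards [lt_mem_nhds (zero_lt_one' ℝ)] with t ht
    exact h0 t ht x hx
  exact h1.unique h2

theorem lapC_eq {F : (I → ℝ) → ℝ} (hF : ContDiffOn ℝ (⊤ : ℕ∞) F cone)
    (h0 : ∀ t : ℝ, 0 < t → ∀ x ∈ cone, F (t • x) = F x) {x : I → ℝ} (hx : x ∈ cone) :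
    lapC F x = ∑ a, ∑ b, UJ x a b *
      fderiv ℝ (fderiv ℝ F) x (Pi.single a 1) (Pi.single b 1) := by
  obtain ⟨c, hc0, hc⟩ := sqrt_det_gm
  have hN0 : NJ x ≠ 0 := hx.1.ne'
  have he : ∑ b, x b * pd b F x = 0 := by
    rw [← euler hF h0 hx, LapCAux.lin_sum]
    rfl
  have s1 : ∑ a, ∑ b, pd a (fun y => UJ y a b) x * pd b F x = 0 := by
    rw [Finset.sum_comm]
    simp only [← Finset.sum_mul, div_UJ, mul_assoc, ← Finset.mul_sum, he, mul_zero]
  have s2 : ∑ a, ∑ b, pd a NJ x * UJ x a b * pd b F x = 0 := by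
    rw [Finset.sum_comm]
    have : ∀ b, ∑ a, pd a NJ x * UJ x a b = NJ x * x b := fun b => by
      have h1 := congrFun (UJ_sharp x) b
      simp only [mulVec, dotProduct, Pi.smul_apply, smul_eq_mul] at h1
      have h2 : ∑ a, pd a NJ x * UJ x a b = (∑ a, UJ x b a * crs (nJ ℝ) x x a) / 2 := by
        rw [Finset.sum_div]
        exact Finset.sum_congr rfl fun a _ => by rw [pd_NJ, UJ_symm x a b]; ring
      rw [h2, h1]
      ring
    simp only [← Finset.sum_mul, this]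
    simp only [mul_assoc, ← Finset.mul_sum, he, mul_zero]
  unfold lapC
  rw [Finset.sum_congr rfl fun a _ => LapCAux.pd_inner hF hx hc a, ← Finset.mul_sum,
    Finset.sum_sub_distrib, Finset.sum_add_distrib, ← Finset.mul_sum, s1, s2, hc x hx,
    mul_zero, add_zero, sub_zero, inv_mul_cancel_left₀ (by positivity)]

theorem lapC_orbit {F : (I → ℝ) → ℝ} (hF : ContDiffOn ℝ (⊤ : ℕ∞) F cone)
    (h0 : ∀ t : ℝ, 0 < t → ∀ x ∈ cone, F (t • x) = F x) (g : E6) :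
    lapC F (g.1.1 *ᵥ eJ) = ∑ a, (dR a)⁻¹ * fderiv ℝ (fderiv ℝ F) (g.1.1 *ᵥ eJ)
      (g.1.1 *ᵥ Pi.single a 1) (g.1.1 *ᵥ Pi.single a 1) := by
  rw [lapC_eq hF h0 (val_mem_cone ⟨_, g, rfl⟩), UJ_mulVec, UJ_e]
  symm
  rw [Finset.sum_congr rfl fun k _ => congrArg ((dR k)⁻¹ * ·)
    (LapCAux.bil_sum _ (g.1.1 *ᵥ Pi.single k 1) (g.1.1 *ᵥ Pi.single k 1))]
  simp only [mulVec_single_one, col_apply, Finset.mul_sum]
  rw [Finset.sum_comm]
  refine Finset.sum_congr rfl fun a _ => ?_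
  rw [Finset.sum_comm]
  refine Finset.sum_congr rfl fun b _ => ?_
  rw [mul_apply, Finset.sum_mul]
  refine Finset.sum_congr rfl fun k _ => ?_
  rw [mul_diagonal, transpose_apply]
  ring

end Pool.Agent.P.MP_3c2f8c_gt.Ex
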