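import Pool.Agent.P.MP_3c2f8c_gt.Ex.An.Lift
import Pool.Agent.P.MP_3c2f8c_gt.Ex.An.LapC

/-! EXA-Brid: the Laplacian of the symmetric space on the level of the group. -/

namespace Pool.Agent.P.MP_3c2f8c_gt.Ex

open Matrix MeasureTheory Topology

namespace BridAux

/-- The curve `s ↦ g exp (LJ (s X)) y`. -/
noncomputable def cur (g : E6) (X y : I → ℝ) (s : ℝ) : I → ℝ :=
  g.1.1 *ᵥ (NormedSpace.exp (LJ (s • X)) *ᵥ y)

theorem cur_zero (g : E6) (X y : I → ℝ) : cur g X y 0 = g.1.1 *ᵥ y := by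
  rw [cur, LJ_smul, zero_smul, NormedSpace.exp_zero, one_mulVec]

theorem hasDerivAt_cur (g : E6) (X y : I → ℝ) (s : ℝ) :
    HasDerivAt (cur g X y) (cur g X (LJ X *ᵥ y) s) s :=
  (LinearMap.toContinuousLinearMap (Matrix.mulVecLin g.1.1)).hasFDerivAt.comp_hasDerivAt s
    (hasDerivAt_exp_LJ X y s)

theorem cur_e (g : E6) (X : I → ℝ) (s : ℝ) :
    cur g X eJ s = Real.exp (TJ (s • X) eJ / 3) • ((g * eA (s • X)) • oX).1 := by
  rw [cur, exp_LJ, smul_mulVec, mulVec_smul, mulVec_mulVec]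
  rfl

theorem cur_mem (g : E6) (X : I → ℝ) (s : ℝ) : cur g X eJ s ∈ cone := by
  rw [cur_e]
  exact smul_mem_cone (Real.exp_pos _) (val_mem_cone _)

theorem ext_cur (F : XS → ℝ) (g : E6) (X : I → ℝ) (s : ℝ) :
    ext F (cur g X eJ s) = F ((g * eA (s • X)) • oX) := by
  rw [cur_e, ext_smul F (Real.exp_pos _) (val_mem_cone _), ext_val]

theorem contDiffAt_ext {F : XS → ℝ} (hF : Smooth F) {x : I → ℝ} (hx : x ∈ cone) :
    ContDiffAt ℝ (⊤ : ℕ∞) (ext F) x :=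
  ContDiffOn.contDiffAt hF (isOpen_cone.mem_nhds hx)

theorem LD_one {F : XS → ℝ} (hF : Smooth F) (g : E6) (X : I → ℝ) (s : ℝ) :
    LD X (fun g => F (g • oX)) (g * eA (s • X)) =
      fderiv ℝ (ext F) (cur g X eJ s) (cur g X X s) := by
  have h1 := (Lift.gs ⟨F, hF, fun _ => rfl⟩).hasDerivAt X g s
  have h2 := ((contDiffAt_ext hF (cur_mem g X s)).differentiableAt
    (by simp)).hasFDerivAt.comp_hasDerivAt s (hasDerivAt_cur g X eJ s)
  rw [LJ_e] at h2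
  have e : ext F ∘ cur g X eJ = fun t : ℝ => F ((g * eA (t • X)) • oX) :=
    funext fun t => ext_cur F g X t
  rw [e] at h2
  exact h1.unique h2

theorem LD_two {F : XS → ℝ} (hF : Smooth F) (g : E6) (X : I → ℝ) :
    LD X (LD X fun g => F (g • oX)) g =
      fderiv ℝ (fderiv ℝ (ext F)) (g.1.1 *ᵥ eJ) (g.1.1 *ᵥ X) (g.1.1 *ᵥ X) +
        fderiv ℝ (ext F) (g.1.1 *ᵥ eJ) (g.1.1 *ᵥ (LJ X *ᵥ X)) := by
  have h1 := ((Lift.gs ⟨F, hF, fun _ => rfl⟩).ld X).hasDerivAt X g 0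
  rw [zero_smul, eA_zero, mul_one] at h1
  have hd : DifferentiableAt ℝ (fderiv ℝ (ext F)) (cur g X eJ 0) :=
    ((contDiffAt_ext hF (cur_mem g X 0)).fderiv_right (m := 1)
      (WithTop.coe_le_coe.2 (le_top : (2 : ℕ∞) ≤ ⊤))).differentiableAt one_ne_zero
  have h2 := hd.hasFDerivAt.comp_hasDerivAt 0 (hasDerivAt_cur g X eJ 0)
  have h3 := h2.clm_apply (hasDerivAt_cur g X X 0)
  simp only [Function.comp_apply, LJ_e, cur_zero] at h3
  have e : (fun t : ℝ => LD X (fun g => F (g • oX)) (g * eA (t • X))) =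
      fun t => fderiv ℝ (ext F) (cur g X eJ t) (cur g X X t) :=
    funext fun t => LD_one hF g X t
  rw [e] at h1
  exact h1.unique h3

end BridAux

open BridAux

theorem lapG_lift {F : XS → ℝ} (hF : Smooth F) (g : E6) :
    lapG (fun g => F (g • oX)) g = lap F (g • oX) := by
  have h0 : ∀ t : ℝ, 0 < t → ∀ x ∈ cone, ext F (t • x) = ext F x :=
    fun t ht x hx => ext_smul F ht hx
  have hx : g.1.1 *ᵥ eJ ∈ cone := val_mem_cone (g • oX)
  have h1 : lap F (g • oX) = lapC (ext F) (g.1.1 *ᵥ eJ) := rfl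
  rw [h1, lapC_orbit hF h0 g, lapG]
  simp only [LD_two hF, mul_add, Finset.sum_add_distrib]
  have h2 : ∑ a, (dR a)⁻¹ * fderiv ℝ (ext F) (g.1.1 *ᵥ eJ)
      (g.1.1 *ᵥ (LJ (Pi.single a 1) *ᵥ Pi.single a 1)) =
      fderiv ℝ (ext F) (g.1.1 *ᵥ eJ)
        (g.1.1 *ᵥ ∑ a, (dR a)⁻¹ • LJ (Pi.single a 1) *ᵥ Pi.single a 1) := by
    rw [mulVec_sum, map_sum]
    refine Finset.sum_congr rfl fun a _ => ?_
    rw [mulVec_smul, map_smul, smul_eq_mul]
  rw [h2, sum_LJ, mulVec_smul, map_smul, euler hF h0 hx, smul_zero, add_zero]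

theorem eig_equiv (Γ : Subgroup E6) (ev : ℝ) : Nonempty (Eig Γ ev ≃ₗ[ℝ] EigG Γ ev) := by
  let L : (XS → ℝ) →ₗ[ℝ] E6 → ℝ := LinearMap.funLeft ℝ ℝ fun g : E6 => g • oX
  have hL : Function.Injective L :=
    LinearMap.funLeft_injective_of_surjective ℝ ℝ _ exists_smul_oX
  have e : (Eig Γ ev).map L = EigG Γ ev := by
    rw [Eig, EigG, Submodule.map_span]
    congr 1
    ext f
    constructor
    · rintro ⟨F, ⟨h1, h2, h3⟩, rfl⟩
      refine ⟨⟨F, h1, fun _ => rfl⟩, fun γ hγ g => ?_, fun g => ?_⟩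
      · change F ((γ * g) • oX) = F (g • oX)
        rw [mul_smul, h2 γ hγ]
      · exact (lapG_lift h1 g).trans (h3 _)
    · rintro ⟨⟨F, h1, h0⟩, h2, h3⟩
      obtain rfl : f = fun g => F (g • oX) := funext h0
      refine ⟨F, ⟨h1, fun γ hγ x => ?_, fun x => ?_⟩, rfl⟩
      · obtain ⟨g, rfl⟩ := exists_smul_oX x
        rw [← mul_smul]
        exact h2 γ hγ g
      · obtain ⟨g, rfl⟩ := exists_smul_oX x
        exact (lapG_lift h1 g).symm.trans (h3 g)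
  exact ⟨(Submodule.equivMapOfInjective L hL _).trans (LinearEquiv.ofEq _ _ e)⟩

theorem lapG_inv {φ : E6 → ℝ} (hφ : Lift φ) (hs : ∀ g, φ g⁻¹ = φ g) (g : E6) :
    lapG φ g⁻¹ = lapG φ g := by
  have hr : ∀ u : E6, u • oX = oX → ∀ g, φ (g * u) = φ g := fun u hu g => hφ.right hu g
  have hl : ∀ u : E6, u • oX = oX → ∀ g, φ (u * g) = φ g := fun u hu g => by
    rw [← hs, _root_.mul_inv_rev, hr u⁻¹ (inv_smul_eq_iff.2 hu.symm), hs]
  have hl' : ∀ u : E6, u • oX = oX → ∀ g, lapG φ (u * g) = lapG φ g := fun u hu g => by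
    rw [← lapG_left, funext (hl u hu)]
  have hr' : ∀ u : E6, u • oX = oX → ∀ g, lapG φ (g * u) = lapG φ g := fun u hu g => by
    obtain ⟨F, h1, h0⟩ := hφ
    obtain rfl : φ = fun g => F (g • oX) := funext h0
    rw [lapG_lift h1, lapG_lift h1, mul_smul, hu]
  have e : (fun g => φ (th g)) = φ := funext fun g => (th_eq_inv hl hr g).trans (hs g)
  rw [← th_eq_inv hl' hr' g, ← lapG_th hφ.gs, e]

end Pool.Agent.P.MP_3c2f8c_gt.Ex
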