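import Pool.Agent.P.MP_3c2f8c_gt.Ex.An.Grow

/-!
Geometry of the symmetric space: the facts used outside the analytic part.
-/

namespace Pool.Agent.P.MP_3c2f8c_gt.Ex

open Matrix

namespace GeomAux

theorem exists_pair (x y : XS) :
    ∃ (g : E6) (v : I → ℝ), TJ v eJ = 0 ∧ x = g • oX ∧ y = g • eA v • oX := by
  obtain ⟨g, rfl⟩ := exists_smul_oX x
  obtain ⟨h, hh⟩ := exists_smul_oX (g⁻¹ • y)
  obtain ⟨v, u, hv, hu, rfl⟩ := exists_polar h
  refine ⟨g, v, hv, rfl, ?_⟩
  rw [mul_smul, hu] at hh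
  rw [hh, smul_inv_smul]

theorem continuous_orb : Continuous fun h : E6 => h • oX := by
  have h1 : Continuous fun h : E6 => ((h, oX) : E6 × XS) := continuous_id.prodMk continuous_const
  simpa only [Function.comp_def] using continuous_act.comp h1

theorem continuous_orbit (g : E6) : Continuous fun h : E6 => (g * h) • oX := by
  have h1 : Continuous fun h : E6 => g * h := continuous_const.mul continuous_id
  simpa only [Function.comp_def] using continuous_orb.comp h1

theorem continuous_AO : Continuous fun h : E6 => AA oX (h • oX) := by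
  have h1 : Continuous fun h : E6 => ((oX, h • oX) : XS × XS) :=
    continuous_const.prodMk continuous_orb
  simpa only [Function.comp_def] using continuous_AA'.comp h1

theorem continuous_tri {X : Type} [TopologicalSpace X] {x y z : X → I → ℝ} (hx : Continuous x)
    (hy : Continuous y) (hz : Continuous z) : Continuous fun t => tri (nJ ℝ) (x t) (y t) (z t) := by
  unfold tri
  fun_prop

end GeomAux

open GeomAux

theorem AA_smul (g : E6) (x y : XS) : AA (g • x) (g • y) = AA x y := AA_smul' g x y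

theorem AA_comm (x y : XS) : AA x y = AA y x := AA_comm' x y

theorem nine_le_AA (x y : XS) : 9 ≤ AA x y := by
  obtain ⟨g, v, hv, rfl, rfl⟩ := exists_pair x y
  rw [AA_smul]
  have h1 := le_AA_eA hv
  have h2 := TJ_self_nonneg v
  linarith

theorem eq_of_AA_le {x y : XS} (h : AA x y ≤ 9) : x = y := by
  obtain ⟨g, v, hv, rfl, rfl⟩ := exists_pair x y
  rw [AA_smul] at h
  have h1 := le_AA_eA hv
  have h2 : v = 0 := eq_zero_of_TJ (by linarith)
  rw [h2, eA_zero, one_smul]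

theorem continuous_AA : Continuous fun w : XS × XS => AA w.1 w.2 := continuous_AA'

theorem isCompact_ball (x : XS) (R : ℝ) : IsCompact {y : XS | AA x y ≤ R} := by
  obtain ⟨g, rfl⟩ := exists_smul_oX x
  have e : {y : XS | AA (g • oX) y ≤ R} =
      (fun h : E6 => (g * h) • oX) '' {h : E6 | AA oX (h • oX) ≤ R} := by
    ext y
    constructor
    · intro hy
      obtain ⟨h, hh⟩ := exists_smul_oX (g⁻¹ • y)
      have e1 : (g * h) • oX = y := by rw [mul_smul, hh, smul_inv_smul]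
      refine ⟨h, ?_, e1⟩
      have h1 : AA (g • oX) y ≤ R := hy
      rw [← e1, mul_smul, AA_smul] at h1
      exact h1
    · rintro ⟨h, hh, rfl⟩
      have h1 : AA oX (h • oX) ≤ R := hh
      show AA (g • oX) ((g * h) • oX) ≤ R
      rw [mul_smul, AA_smul]
      exact h1
  rw [e]
  exact (isCompact_AA R).image (continuous_orbit g)

theorem AA_triangle (R : ℝ) : ∃ R' : ℝ, ∀ x y z : XS, AA x y ≤ R → AA y z ≤ R → AA x z ≤ R' := by
  have hm : Continuous fun p : E6 × E6 => p.1 * p.2 := continuous_mul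
  have hc : Continuous fun p : E6 × E6 => AA oX ((p.1 * p.2) • oX) := by
    simpa only [Function.comp_def] using continuous_AO.comp hm
  obtain ⟨R', hR⟩ := ((isCompact_AA R).prod (isCompact_AA R)).bddAbove_image hc.continuousOn
  refine ⟨R', fun x y z h1 h2 => ?_⟩
  obtain ⟨g, rfl⟩ := exists_smul_oX x
  obtain ⟨h, hh⟩ := exists_smul_oX (g⁻¹ • y)
  have e1 : y = g • h • oX := by rw [hh, smul_inv_smul]
  obtain ⟨k, hk⟩ := exists_smul_oX ((g * h)⁻¹ • z)
  have e2 : z = g • h • k • oX := by rw [hk, ← mul_smul, smul_inv_smul]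
  rw [e1, AA_smul] at h1
  rw [e1, e2, AA_smul, AA_smul] at h2
  rw [e2, AA_smul, ← mul_smul]
  exact hR ⟨(h, k), ⟨h1, h2⟩, rfl⟩

theorem exists_AA_gt (R : ℝ) : ∃ x : XS, R < AA oX x := by
  let v : I → ℝ := Sum.elim ![|R| + 1, -(|R| + 1), 0] 0
  have h0 : TJ v eJ = 0 := by simp [TJ, eJ, v, Fin.sum_univ_three]
  have h1 : TJ v v = 2 * (|R| + 1) ^ 2 := by
    simp [TJ, v, Fin.sum_univ_three]
    ring
  refine ⟨eA v • oX, lt_of_lt_of_le ?_ (le_AA_eA h0)⟩
  rw [h1]
  nlinarith [le_abs_self R, abs_nonneg R]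

theorem entry_le_of_AA (R : ℝ) : ∃ C : ℝ, ∀ g : E6, AA oX (g • oX) ≤ R →
    ∀ a c, |g.1.1 a c| ≤ C ∧ |(g⁻¹).1.1 a c| ≤ C := by
  have h1 : ∀ a c, Continuous fun g : E6 => |g.1.1 a c| := fun a c =>
    (continuous_val.matrix_elem a c).abs
  have hc : Continuous fun g : E6 => ∑ a, ∑ c, (|g.1.1 a c| + |(g⁻¹).1.1 a c|) :=
    continuous_finsetSum _ fun a _ => continuous_finsetSum _ fun c _ =>
      (h1 a c).add ((h1 a c).comp continuous_inv)
  obtain ⟨C, hC⟩ := (isCompact_AA R).bddAbove_image hc.continuousOn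
  refine ⟨C, fun g hg a c => ?_⟩
  have h2 : ∑ a, ∑ c, (|g.1.1 a c| + |(g⁻¹).1.1 a c|) ≤ C := hC ⟨g, hg, rfl⟩
  have h3 : ∑ c, (|g.1.1 a c| + |(g⁻¹).1.1 a c|) ≤ ∑ a, ∑ c, (|g.1.1 a c| + |(g⁻¹).1.1 a c|) :=
    Finset.single_le_sum (f := fun a => ∑ c, (|g.1.1 a c| + |(g⁻¹).1.1 a c|))
      (fun a _ => Finset.sum_nonneg fun c _ => add_nonneg (abs_nonneg _) (abs_nonneg _))
      (Finset.mem_univ a)
  have h4 : |g.1.1 a c| + |(g⁻¹).1.1 a c| ≤ ∑ c, (|g.1.1 a c| + |(g⁻¹).1.1 a c|) :=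
    Finset.single_le_sum (f := fun c => |g.1.1 a c| + |(g⁻¹).1.1 a c|)
      (fun c _ => add_nonneg (abs_nonneg _) (abs_nonneg _)) (Finset.mem_univ c)
  have h5 := abs_nonneg (g.1.1 a c)
  have h6 := abs_nonneg ((g⁻¹).1.1 a c)
  constructor <;> linarith

theorem AA_le_of_entry (C : ℝ) : ∃ R : ℝ, ∀ g : E6, (∀ a c, |g.1.1 a c| ≤ C) →
    AA oX (g • oX) ≤ R := by
  have hm : Continuous fun M : I → I → ℝ => Matrix.of M *ᵥ (eJ : I → ℝ) := by
    refine continuous_pi fun a => ?_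
    simp only [mulVec, dotProduct, of_apply]
    fun_prop
  have hc : Continuous fun M : I → I → ℝ => tri (nJ ℝ) eJ eJ (Matrix.of M *ᵥ eJ) *
      tri (nJ ℝ) eJ (Matrix.of M *ᵥ eJ) (Matrix.of M *ᵥ eJ) / 4 :=
    ((continuous_tri continuous_const continuous_const hm).mul
      (continuous_tri continuous_const hm hm)).div_const 4
  have hK : IsCompact (Set.pi Set.univ fun _ : I => Set.pi Set.univ fun _ : I =>
      Set.Icc (-C) C) := isCompact_univ_pi fun _ => isCompact_univ_pi fun _ => isCompact_Icc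
  obtain ⟨R, hR⟩ := hK.bddAbove_image hc.continuousOn
  refine ⟨R, fun g hg => hR ⟨fun a c => g.1.1 a c, fun a _ c _ => abs_le.1 (hg a c), ?_⟩⟩
  simp only [AA, smul_val]
  rfl

theorem abs_det_E6 (g : E6) : |g.1.1.det| = 1 := abs_det_E6' g

end Pool.Agent.P.MP_3c2f8c_gt.Ex
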