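import Pool.Agent.P.MP_3c2f8c_gt.Ex.An.Lift
import Pool.Agent.P.MP_3c2f8c_gt.Ex.An.Geom
import Pool.Agent.P.MP_3c2f8c_gt.E6.An.Param

/-! EXA-Bump: smoothing kernels. -/

namespace Pool.Agent.P.MP_3c2f8c_gt.Ex

open Matrix MeasureTheory Topology

namespace BumpAux

theorem contDiff_AA : ContDiff ℝ (⊤ : ℕ∞) fun p : (I → ℝ) × (I → ℝ) =>
    tri (nJ ℝ) p.1 p.1 p.2 * tri (nJ ℝ) p.1 p.2 p.2 / 4 := by
  unfold tri
  fun_prop

theorem cont_orb : Continuous fun g : E6 => g • oX :=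
  continuous_act.comp (continuous_id.prodMk continuous_const)

theorem cont_AA : Continuous fun x => AA oX x :=
  continuous_AA.comp (f := fun x => (oX, x)) (continuous_const.prodMk continuous_id)

theorem lift {η : ℝ → ℝ} (hη : ContDiff ℝ (⊤ : ℕ∞) η) : Lift fun g => η (AA oX (g • oX)) :=
  ⟨fun x => η (AA oX x), smooth_of_local fun _ =>
    ⟨_, hη.comp (contDiff_AA.comp (contDiff_const.prodMk contDiff_id)),
      Filter.Eventually.of_forall fun _ => rfl⟩, fun _ => rfl⟩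

theorem reg {η : ℝ → ℝ} (hη : ContDiff ℝ (⊤ : ℕ∞) η) {B : ℝ} (hB : ∀ t, η t ≠ 0 → t ≤ B)
    {f : E6 → ℝ} (hf : Continuous f) : Lift (cv (fun g => η (AA oX (g • oX))) f) := by
  refine ⟨fun x => ∫ y, η (AA x (y • oX)) * f y ∂mu, smooth_of_local fun x₀ => ?_, fun g => ?_⟩
  · obtain ⟨R, hR⟩ := AA_triangle (max (AA oX x₀ + 1) B)
    refine ⟨_, Pool.Agent.P.MP_3c2f8c_gt.E6.contDiff_param mu (isCompact_AA R)
      (hη.comp contDiff_AA) (a := fun y : E6 => (y • oX).1)
      (continuous_subtype_val.comp cont_orb) hf, ?_⟩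
    filter_upwards [(cont_AA.tendsto x₀).eventually (gt_mem_nhds (lt_add_one _))] with x hx
    refine (setIntegral_eq_integral_of_forall_compl_eq_zero fun y hy => ?_).symm
    refine mul_eq_zero_of_left ?_ _
    by_contra c
    exact hy (hR _ x _ (hx.le.trans (le_max_left _ _)) ((hB _ c).trans (le_max_right _ _)))
  · refine integral_congr_ae (Filter.Eventually.of_forall fun y => ?_)
    dsimp only
    rw [← AA_smul g oX, smul_smul, mul_inv_cancel_left]

end BumpAux

theorem exists_ker {δ : ℝ} (hδ : 0 < δ) : ∃ φ : E6 → ℝ, Ker δ φ := by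
  obtain ⟨ψ, hψ⟩ : ∃ ψ : E6 → ℝ, ∀ g, ψ g = expNegInvGlue (9 + δ - AA oX (g • oX)) :=
    ⟨_, fun _ => rfl⟩
  have near : ∀ t, expNegInvGlue (9 + δ - t) ≠ 0 → t ≤ 9 + δ := fun t h => by
    by_contra c
    exact h (expNegInvGlue.zero_of_nonpos (by linarith))
  have supp : HasCompactSupport ψ := HasCompactSupport.intro (isCompact_AA (9 + δ)) fun g hg => by
    by_contra c
    exact hg (near _ (hψ g ▸ c))
  have cont : Continuous ψ := by
    rw [funext hψ]
    exact (expNegInvGlue.contDiff (n := 0)).continuous.comp (continuous_const.sub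
      (BumpAux.cont_AA.comp BumpAux.cont_orb))
  have nonneg : ∀ g, 0 ≤ ψ g := fun g => (hψ g).symm ▸ expNegInvGlue.nonneg _
  have pos : 0 < ∫ g, ψ g ∂mu :=
    cont.integral_pos_of_hasCompactSupport_nonneg_nonzero supp nonneg (x := 1) (by
      rw [hψ, one_smul, AA_self, add_sub_cancel_left]
      exact (expNegInvGlue.pos_of_pos hδ).ne')
  generalize hc : ∫ g, ψ g ∂mu = c at pos
  have hF : ContDiff ℝ (⊤ : ℕ∞) fun t => c⁻¹ * expNegInvGlue (9 + δ - t) :=
    contDiff_const.mul (expNegInvGlue.contDiff.comp (contDiff_const.sub contDiff_id))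
  have e : (fun g => c⁻¹ * ψ g) = fun g : E6 => c⁻¹ * expNegInvGlue (9 + δ - AA oX (g • oX)) :=
    funext fun g => by rw [hψ]
  exact ⟨fun g => c⁻¹ * ψ g, e ▸ BumpAux.lift hF, supp.mul_left,
    fun g => mul_nonneg (inv_pos.2 pos).le (nonneg g),
    by rw [integral_const_mul, hc, inv_mul_cancel₀ pos.ne'],
    fun g => by rw [hψ, hψ, ← AA_smul g oX, smul_inv_smul, AA_comm],
    fun g h => near _ (hψ g ▸ right_ne_zero_of_mul h),
    fun f hf => e ▸ BumpAux.reg hF (fun t h => near t (right_ne_zero_of_mul h)) hf⟩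

end Pool.Agent.P.MP_3c2f8c_gt.Ex
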