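import Pool.Agent.P.MP_3c2f8c_gt.Ex.An.Exp

/-! EXA-Smo: smooth functions and left invariant vector fields. -/

namespace Pool.Agent.P.MP_3c2f8c_gt.Ex

open Matrix MeasureTheory Topology

variable {f h : E6 → ℝ}

namespace SmoAux

theorem cont : Continuous fun (g : E6) (i j : I) => g.1.1 i j :=
  continuous_pi fun i => continuous_pi fun j =>
    (Units.continuous_val.comp continuous_subtype_val).matrix_elem i j

theorem tend (g : E6) (x : I → ℝ) : Filter.Tendsto (fun y => g * eA y) (𝓝 x) (𝓝 (g * eA x)) :=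
  (continuous_const.mul continuous_eA).tendsto x

theorem tend0 (g : E6) : Filter.Tendsto (fun y => g * eA y) (𝓝 0) (𝓝 g) := by
  simpa only [eA_zero, mul_one] using tend g 0

theorem val (g : E6) (x : I → ℝ) :
    (fun i j => (g * eA x).1.1 i j) = fun i j => ∑ k, g.1.1 i k * NormedSpace.exp (pM x) k j := by
  rw [← eA_val]
  rfl

theorem cd (g : E6) : ContDiff ℝ (⊤ : ℕ∞) fun (x : I → ℝ) (i j : I) =>
    ∑ k, g.1.1 i k * NormedSpace.exp (pM x) k j :=
  contDiff_pi.2 fun _ => contDiff_pi.2 fun j => ContDiff.sum fun k _ =>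
    contDiff_const.mul (contDiff_pi.1 (contDiff_pi.1 contDiff_exp_pM k) j)

theorem cdl (A : Matrix I I ℝ) :
    ContDiff ℝ (⊤ : ℕ∞) fun (M : I → I → ℝ) (i j : I) => ∑ k, A i k * M k j :=
  contDiff_pi.2 fun _ => contDiff_pi.2 fun j => ContDiff.sum fun k _ =>
    contDiff_const.mul (contDiff_apply_apply ℝ ℝ k j)

theorem cdr (A : Matrix I I ℝ) :
    ContDiff ℝ (⊤ : ℕ∞) fun (M : I → I → ℝ) (i j : I) => ∑ k, M i k * A k j :=
  contDiff_pi.2 fun i => contDiff_pi.2 fun _ => ContDiff.sum fun k _ =>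
    (contDiff_apply_apply ℝ ℝ i k).mul contDiff_const

end SmoAux

theorem GS.continuous (hf : GS f) : Continuous f :=
  continuous_iff_continuousAt.2 fun g => by
    obtain ⟨F, hF, e⟩ := hf g
    exact (hF.continuous.comp SmoAux.cont).continuousAt.congr (e.mono fun _ h => h.symm)

theorem gs_cst (c : ℝ) : GS fun _ => c := fun _ =>
  ⟨fun _ => c, contDiff_const, Filter.Eventually.of_forall fun _ => rfl⟩

theorem GS.add (hf : GS f) (hh : GS h) : GS fun g => f g + h g := fun g => by
  obtain ⟨F, hF, e⟩ := hf g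
  obtain ⟨H, hH, e'⟩ := hh g
  refine ⟨fun M => F M + H M, hF.add hH, ?_⟩
  filter_upwards [e, e'] with y a b
  rw [a, b]

theorem GS.mul (hf : GS f) (hh : GS h) : GS fun g => f g * h g := fun g => by
  obtain ⟨F, hF, e⟩ := hf g
  obtain ⟨H, hH, e'⟩ := hh g
  refine ⟨fun M => F M * H M, hF.mul hH, ?_⟩
  filter_upwards [e, e'] with y a b
  rw [a, b]

theorem GS.sum {α : Type} (s : Finset α) {F : α → E6 → ℝ} (hF : ∀ a ∈ s, GS (F a)) :
    GS fun g => ∑ a ∈ s, F a g := by
  classical
  induction s using Finset.induction_on with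
  | empty => simpa using gs_cst 0
  | insert a s ha ih =>
    simp only [Finset.sum_insert ha]
    exact (hF a (Finset.mem_insert_self _ _)).add
      (ih fun b hb => hF b (Finset.mem_insert_of_mem hb))

theorem GS.left (hf : GS f) (a : E6) : GS fun g => f (a * g) := fun g => by
  obtain ⟨F, hF, e⟩ := hf (a * g)
  refine ⟨fun M => F fun i j => ∑ k, a.1.1 i k * M k j, hF.comp (SmoAux.cdl a.1.1), ?_⟩
  exact ((continuous_const.mul continuous_id).tendsto g).eventually e

theorem GS.contDiff_chart (hf : GS f) (g : E6) : ContDiff ℝ (⊤ : ℕ∞) (chart f g) :=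
  contDiff_iff_contDiffAt.2 fun x => by
    obtain ⟨F, hF, e⟩ := hf (g * eA x)
    refine (hF.comp (SmoAux.cd g)).contDiffAt.congr_of_eventuallyEq ?_
    filter_upwards [(SmoAux.tend g x).eventually e] with y hy
    rw [chart, hy, SmoAux.val]
    rfl

theorem GS.hasDerivAt (hf : GS f) (X : I → ℝ) (g : E6) (s : ℝ) :
    HasDerivAt (fun t : ℝ => f (g * eA (t • X))) (LD X f (g * eA (s • X))) s := by
  have h1 : HasFDerivAt (chart f (g * eA (s • X))) (fderiv ℝ (chart f (g * eA (s • X))) 0)
      ((s - s) • X) := by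
    rw [sub_self, zero_smul]
    exact ((hf.contDiff_chart _).differentiable (by simp) 0).hasFDerivAt
  have h2 : HasDerivAt (fun t : ℝ => (t - s) • X) X s := by
    simpa using ((hasDerivAt_id s).sub_const s).smul_const X
  refine (h1.comp_hasDerivAt s h2).congr_of_eventuallyEq (Filter.Eventually.of_forall fun t => ?_)
  show _ = chart f (g * eA (s • X)) ((t - s) • X)
  rw [chart, mul_assoc, ← eA_add_smul, add_sub_cancel]

theorem GS.ld (hf : GS f) (X : I → ℝ) : GS (LD X f) := fun g => by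
  obtain ⟨F, hF, e⟩ := hf g
  refine ⟨fun M => fderiv ℝ F M fun i j => ∑ k, M i k * pM X k j,
    (hF.fderiv_right (m := (⊤ : ℕ∞)) (by simp)).clm_apply (SmoAux.cdr (pM X)), ?_⟩
  filter_upwards [e.eventually_nhds] with y hy
  have h1 := hf.hasDerivAt X y 0
  rw [zero_smul, eA_zero, mul_one] at h1
  have h2 : HasDerivAt (fun (s : ℝ) (i j : I) =>
      ∑ k, y.1.1 i k * NormedSpace.exp (pM (s • X)) k j)
      (fun i j => ∑ k, y.1.1 i k * pM X k j) 0 :=
    hasDerivAt_pi.2 fun i => hasDerivAt_pi.2 fun j => HasDerivAt.fun_sum fun k _ =>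
      (hasDerivAt_pi.1 (hasDerivAt_pi.1 (hasDerivAt_exp_pM X) k) j).const_mul _
  have h3 : HasFDerivAt F (fderiv ℝ F fun i j => y.1.1 i j)
      fun i j => ∑ k, y.1.1 i k * NormedSpace.exp (pM ((0 : ℝ) • X)) k j := by
    rw [← SmoAux.val, zero_smul, eA_zero, mul_one]
    exact (hF.differentiable (by simp) _).hasFDerivAt
  refine h1.unique ((h3.comp_hasDerivAt (0 : ℝ) h2).congr_of_eventuallyEq ?_)
  have h4 : Filter.Tendsto (fun s : ℝ => s • X) (𝓝 0) (𝓝 0) :=
    (continuous_id.smul continuous_const).tendsto' 0 0 (zero_smul ℝ X)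
  filter_upwards [((SmoAux.tend0 y).comp h4).eventually hy] with t ht
  exact ht.trans (congrArg F (SmoAux.val y (t • X)))

theorem LD_mul (hf : GS f) (hh : GS h) (X : I → ℝ) (g : E6) :
    LD X (fun g => f g * h g) g = LD X f g * h g + f g * LD X h g := by
  have h1 := (hf.mul hh).hasDerivAt X g 0
  have h2 := (hf.hasDerivAt X g 0).mul (hh.hasDerivAt X g 0)
  simpa only [zero_smul, eA_zero, mul_one] using h1.unique h2

theorem LD_left (f : E6 → ℝ) (a : E6) (X : I → ℝ) (g : E6) :
    LD X (fun g => f (a * g)) g = LD X f (a * g) := by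
  have e : chart (fun g => f (a * g)) g = chart f (a * g) := funext fun x => by
    rw [chart, chart, mul_assoc]
  rw [LD, e, LD]

theorem hasCompactSupport_LD (hs : HasCompactSupport f) (X : I → ℝ) :
    HasCompactSupport (LD X f) := by
  refine hs.mono' fun g hg => by_contra fun hn => hg ?_
  have e : chart f g =ᶠ[𝓝 0] fun _ => 0 := by
    filter_upwards [(SmoAux.tend0 g).eventually (notMem_tsupport_iff_eventuallyEq.1 hn)]
      with y hy
    rw [chart, hy]
    rfl
  rw [LD, e.fderiv_eq, fderiv_fun_const]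
  rfl

namespace SmoAux

theorem diff (hf : GS f) (g : E6) : Differentiable ℝ (chart f g) :=
  (hf.contDiff_chart g).differentiable (by simp)

theorem LD_add (hf : GS f) (hh : GS h) (X : I → ℝ) :
    LD X (fun g => f g + h g) = fun g => LD X f g + LD X h g := by
  funext g
  have e : chart (fun g => f g + h g) g = fun x => chart f g x + chart h g x := rfl
  rw [LD, e, fderiv_fun_add (diff hf g 0) (diff hh g 0)]
  rfl

theorem LD_scal (hf : GS f) (c : ℝ) (X : I → ℝ) :
    LD X (fun g => c * f g) = fun g => c * LD X f g := by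
  funext g
  have e : chart (fun g => c * f g) g = fun x => c * chart f g x := rfl
  rw [LD, e, fderiv_const_mul (diff hf g 0)]
  rfl

theorem LD_cst (c : ℝ) (X : I → ℝ) : LD X (fun _ => c) = fun _ => 0 := by
  funext g
  have e : chart (fun _ => c) g = fun _ => c := rfl
  rw [LD, e, fderiv_fun_const]
  rfl

theorem LD_th (f : E6 → ℝ) (X : I → ℝ) :
    LD X (fun g => f (th g)) = fun g => (-1) * LD X f (th g) := by
  funext g
  have e : chart (fun g => f (th g)) g = fun x => chart f (th g) ((-1 : ℝ) • x) := by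
    funext x
    rw [chart, chart, th_mul, th_eA, neg_one_smul]
  rw [LD, e, fderiv_comp_smul, smul_zero]
  rfl

end SmoAux

theorem GS.laplace (hf : GS f) : GS (lapG f) :=
  GS.sum (F := fun a g => (dR a)⁻¹ * LD (Pi.single a 1) (LD (Pi.single a 1) f) g) Finset.univ
    fun _ _ => (gs_cst _).mul ((hf.ld _).ld _)

theorem lapG_plus (hf : GS f) (hh : GS h) (g : E6) :
    lapG (fun g => f g + h g) g = lapG f g + lapG h g := by
  simp only [lapG, SmoAux.LD_add hf hh, SmoAux.LD_add (hf.ld _) (hh.ld _), mul_add,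
    Finset.sum_add_distrib]

theorem lapG_scal (hf : GS f) (c : ℝ) (g : E6) : lapG (fun g => c * f g) g = c * lapG f g := by
  simp only [lapG, SmoAux.LD_scal hf, SmoAux.LD_scal (hf.ld _), Finset.mul_sum]
  exact Finset.sum_congr rfl fun _ _ => mul_left_comm _ _ _

theorem lapG_cst (c : ℝ) (g : E6) : lapG (fun _ => c) g = 0 := by
  simp only [lapG, SmoAux.LD_cst, mul_zero, Finset.sum_const_zero]

theorem lapG_left (f : E6 → ℝ) (a g : E6) : lapG (fun g => f (a * g)) g = lapG f (a * g) := by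
  refine Finset.sum_congr rfl fun i _ => ?_
  rw [funext (LD_left f a (Pi.single i 1)), LD_left]

theorem hasCompactSupport_lapG (hs : HasCompactSupport f) : HasCompactSupport (lapG f) := by
  have h1 := HasCompactSupport.finset_sum (s := Finset.univ)
    (f := fun (a : I) g => (dR a)⁻¹ * LD (Pi.single a 1) (LD (Pi.single a 1) f) g)
    fun i _ => (hasCompactSupport_LD (hasCompactSupport_LD hs _) _).mul_left
  rw [Finset.sum_fn] at h1
  exact h1

theorem lapG_th (hf : GS f) (g : E6) : lapG (fun g => f (th g)) g = lapG f (th g) := by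
  refine Finset.sum_congr rfl fun i _ => congrArg _ ?_
  rw [SmoAux.LD_th, SmoAux.LD_th fun g => (-1) * LD (Pi.single i 1) f g,
    SmoAux.LD_scal (hf.ld _)]
  ring

theorem LD_sq_le (f : E6 → ℝ) (X : I → ℝ) (g : E6) : LD X f g ^ 2 ≤ TJ X X * gam f g := by
  have e : LD X f g = ∑ a, X a * LD (Pi.single a 1) f g := by
    rw [LD]
    conv_lhs => rw [pi_eq_sum_univ' X, map_sum]
    exact Finset.sum_congr rfl fun a _ => map_smul _ _ _
  rw [e, TJ_sum, gam]
  refine Finset.sum_sq_le_sum_mul_sum_of_sq_le_mul _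
    (fun a _ => mul_nonneg (dR_pos a).le (mul_self_nonneg _))
    (fun a _ => mul_nonneg (inv_nonneg.2 (dR_pos a).le) (sq_nonneg _)) fun a _ => le_of_eq ?_
  rw [mul_mul_mul_comm, mul_inv_cancel₀ (dR_pos a).ne', one_mul, mul_pow, sq]

end Pool.Agent.P.MP_3c2f8c_gt.Ex
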