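import Pool.Agent.P.MP_3c2f8c_gt.Ex.An.Cone
import Pool.Agent.P.MP_3c2f8c_gt.Ex.An.Smo

/-! EXA-Lift: lifts of smooth functions. -/

namespace Pool.Agent.P.MP_3c2f8c_gt.Ex

open Matrix MeasureTheory Topology

variable {f h : E6 → ℝ}

namespace LiftAux

theorem cont_val : Continuous fun g : E6 => g.1.1 :=
  Units.continuous_val.comp continuous_subtype_val

theorem cont_orbit : Continuous fun g : E6 => g • oX :=
  (cont_val.matrix_mulVec continuous_const).subtype_mk _

theorem cont_smul (a : E6) : Continuous fun y : XS => a • y :=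
  (continuous_const.matrix_mulVec continuous_subtype_val).subtype_mk _

theorem contDiff_mulVec (M : Matrix I I ℝ) : ContDiff ℝ (⊤ : ℕ∞) fun y : I → ℝ => M *ᵥ y := by
  refine contDiff_pi.2 fun i => ?_
  simp only [mulVec, dotProduct]
  fun_prop

theorem contDiff_col (x : I → ℝ) :
    ContDiff ℝ (⊤ : ℕ∞) fun (M : I → I → ℝ) (i : I) => ∑ j, M i j * x j := by
  fun_prop

end LiftAux

theorem Lift.gs (hf : Lift f) : GS f := by
  obtain ⟨F, hF, e⟩ := hf
  intro g
  obtain ⟨G, hG, e'⟩ := hF.exists_local (g • oX)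
  refine ⟨fun M => G fun i => ∑ j, M i j * eJ j, hG.comp (LiftAux.contDiff_col eJ), ?_⟩
  filter_upwards [(LiftAux.cont_orbit.tendsto g).eventually e'] with g' hg'
  rw [e, hg']
  rfl

theorem lift_cst (c : ℝ) : Lift fun _ => c :=
  ⟨fun _ => c, smooth_of_local fun _ => ⟨fun _ => c, contDiff_const, .of_forall fun _ => rfl⟩,
    fun _ => rfl⟩

theorem Lift.add (hf : Lift f) (hh : Lift h) : Lift fun g => f g + h g := by
  obtain ⟨F, hF, e⟩ := hf
  obtain ⟨H, hH, e'⟩ := hh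
  refine ⟨fun y => F y + H y, smooth_of_local fun x => ?_, fun g => by simp only [e, e']⟩
  obtain ⟨G, hG, e1⟩ := hF.exists_local x
  obtain ⟨G', hG', e2⟩ := hH.exists_local x
  refine ⟨fun y => G y + G' y, hG.add hG', ?_⟩
  filter_upwards [e1, e2] with y h1 h2
  rw [h1, h2]

theorem Lift.scal (hf : Lift f) (c : ℝ) : Lift fun g => c * f g := by
  obtain ⟨F, hF, e⟩ := hf
  refine ⟨fun y => c * F y, smooth_of_local fun x => ?_, fun g => by simp only [e]⟩
  obtain ⟨G, hG, e1⟩ := hF.exists_local x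
  refine ⟨fun y => c * G y, contDiff_const.mul hG, ?_⟩
  filter_upwards [e1] with y h1
  rw [h1]

theorem Lift.left (hf : Lift f) (a : E6) : Lift fun g => f (a * g) := by
  obtain ⟨F, hF, e⟩ := hf
  refine ⟨fun y => F (a • y), smooth_of_local fun x => ?_, fun g => by simp only [e, mul_smul]⟩
  obtain ⟨G, hG, e1⟩ := hF.exists_local (a • x)
  refine ⟨fun y => G (a.1.1 *ᵥ y), hG.comp (LiftAux.contDiff_mulVec _), ?_⟩
  filter_upwards [((LiftAux.cont_smul a).tendsto x).eventually e1] with y h1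
  exact h1

theorem Lift.right (hf : Lift f) {u : E6} (hu : u • oX = oX) (g : E6) : f (g * u) = f g := by
  obtain ⟨F, -, e⟩ := hf
  rw [e, e, mul_smul, hu]

theorem mem_eigG_iff {Γ : Subgroup E6} {ev : ℝ} : f ∈ EigG Γ ev ↔
    Lift f ∧ (∀ γ ∈ Γ, ∀ g, f (γ * g) = f g) ∧ ∀ g, lapG f g = -ev * f g := by
  refine ⟨fun hf => ?_, fun hf => Submodule.subset_span hf⟩
  induction hf using Submodule.span_induction with
  | mem x hx => exact hx
  | zero => exact ⟨lift_cst 0, fun _ _ _ => rfl, fun g => (lapG_cst 0 g).trans (mul_zero _).symm⟩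
  | add x y _ _ hx hy =>
    refine ⟨hx.1.add hy.1, fun γ hγ g => ?_, fun g => ?_⟩
    · rw [Pi.add_apply, Pi.add_apply, hx.2.1 γ hγ, hy.2.1 γ hγ]
    · refine (lapG_plus hx.1.gs hy.1.gs g).trans ?_
      rw [hx.2.2, hy.2.2, Pi.add_apply, mul_add]
  | smul c x _ hx =>
    refine ⟨hx.1.scal c, fun γ hγ g => ?_, fun g => ?_⟩
    · rw [Pi.smul_apply, Pi.smul_apply, hx.2.1 γ hγ]
    · refine (lapG_scal hx.1.gs c g).trans ?_
      rw [hx.2.2, Pi.smul_apply, smul_eq_mul, mul_left_comm]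

end Pool.Agent.P.MP_3c2f8c_gt.Ex
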