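import Pool.Agent.P.MP_3c2f8c_gt.Ex.An.Nice
import Pool.Agent.P.MP_3c2f8c_gt.Ex.An.Lift
import Pool.Agent.P.MP_3c2f8c_gt.An.Comp

/-! EXA-Comp: decomposition of the total eigenspace into components. -/

namespace Pool.Agent.P.MP_3c2f8c_gt.Ex

open Matrix MeasureTheory Topology
open Pool.Agent.P.MP_3c2f8c_gt.E6 (PK KInv Act perK kcomp CI IsK SpecData)

variable {Z : Type}
  [TopologicalSpace Z] [DiscreteTopology Z] [MeasurableSpace Z] [DiscreteMeasurableSpace Z]
  [Countable Z] {G : Type} [Group G] [Countable G] [MulAction G E6] [MulAction G Z]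
  {ρ : G →* E6} {D : Set (E6 × Z)} {κ : Z → Z → ℕ}

theorem CompAux.left_mem {Γ Γ' : Subgroup E6} {ev : ℝ} {f : E6 → ℝ}
    (hf : f ∈ EigG Γ ev) (a : E6) (h : ∀ γ ∈ Γ', ∀ x, f (a * (γ * x)) = f (a * x)) :
    (fun x => f (a * x)) ∈ EigG Γ' ev := by
  obtain ⟨h1, -, h4⟩ := mem_eigG_iff.1 hf
  exact mem_eigG_iff.2 ⟨h1.left a, h, fun g => by rw [lapG_left, h4]⟩

theorem NiceA.exists_equiv (N : NiceA G Z ρ) (z₀ : Z)
    (hconj : ∀ z : Z, ∃ g : G, MulAction.stabilizer G z = MulAction.stabilizer G (g • z₀)) :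
    ∃ r : ℕ, 0 < r ∧ ∃ (a : Fin r → E6) (z : Fin r → Z), ∀ ev : ℝ,
      ∃ e : EigY Z G ev ≃ₗ[ℝ] (Fin r → EigG ((MulAction.stabilizer G z₀).map ρ) ev),
        ∀ f i x, (e f i).1 x = f.1.1 (a i * x, z i) := by
  classical
  obtain ⟨r, π, rep, hπ, hrep, hk⟩ : ∃ (r : ℕ) (π : Z → Fin r) (rep : Fin r → Z),
      (∀ (g : G) z, π (g • z) = π z) ∧ (∀ q, π (rep q) = q) ∧
        ∀ z, ∃ k : G, k • z = rep (π z) := by
    have hQ : Finite (MulAction.orbitRel.Quotient G Z) := by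
      obtain ⟨R, s, hs⟩ := N.cocpt
      refine Finite.of_surjective
        (fun y : s => (Quotient.mk _ y.1 : MulAction.orbitRel.Quotient G Z)) ?_
      intro q
      obtain ⟨z, rfl⟩ := Quotient.exists_rep q
      obtain ⟨g, -, hg⟩ := hs 1 z
      exact ⟨⟨_, hg⟩, Quotient.sound ⟨g, rfl⟩⟩
    obtain ⟨r, ⟨E⟩⟩ := Finite.exists_equiv_fin (MulAction.orbitRel.Quotient G Z)
    refine ⟨r, fun z => E (Quotient.mk _ z), fun q => Quotient.out (E.symm q), ?_, ?_, ?_⟩
    · intro g z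
      exact congrArg E (Quotient.sound ⟨g, rfl⟩)
    · intro q
      dsimp only
      rw [Quotient.out_eq, E.apply_symm_apply]
    · intro z
      dsimp only
      rw [E.symm_apply_apply]
      exact Quotient.mk_out (s := MulAction.orbitRel G Z) z
  choose k hk using hk
  choose a ha using hconj
  refine ⟨r, Fin.pos (π z₀), fun q => ρ (a (rep q)), rep, fun ev => ?_⟩
  let Φ : EigY Z G ev →ₗ[ℝ] (Fin r → EigG ((MulAction.stabilizer G z₀).map ρ) ev) :=
    { toFun := fun f q => ⟨fun x => f.1.1 (ρ (a (rep q)) * x, rep q), by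
        refine CompAux.left_mem (f.2 (rep q)) _ ?_
        rintro _ ⟨b, hb, rfl⟩ x
        have h2 : a (rep q) * b * (a (rep q))⁻¹ ∈ MulAction.stabilizer G (rep q) := by
          rw [CompAux.conj_mem (ha (rep q))]
          have e : (a (rep q))⁻¹ * (a (rep q) * b * (a (rep q))⁻¹) * a (rep q) = b := by group
          rw [e]
          exact hb
        have h3 := (N.mem_CI.1 f.1.2).2 (a (rep q) * b * (a (rep q))⁻¹) (ρ (a (rep q)) * x) (rep q)
        rw [MulAction.mem_stabilizer_iff.1 h2, map_mul, map_mul, map_inv, mul_assoc,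
          inv_mul_cancel_left, mul_assoc] at h3
        exact h3⟩
      map_add' := fun _ _ => rfl
      map_smul' := fun _ _ => rfl }
  have hΦ : ∀ f q x, (Φ f q).1 x = f.1.1 (ρ (a (rep q)) * x, rep q) := fun _ _ _ => rfl
  have hinj : Function.Injective Φ := by
    rw [injective_iff_map_eq_zero]
    intro f hf
    refine Subtype.ext (Subtype.ext (funext fun w => ?_))
    have h1 := hΦ f (π w.2) ((ρ (a (rep (π w.2))))⁻¹ * (ρ (k w.2) * w.1))
    rw [hf, mul_inv_cancel_left, ← hk] at h1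
    have h2 := (N.mem_CI.1 f.1.2).2 (k w.2) w.1 w.2
    exact h2.symm.trans h1.symm
  have hsurj : Function.Surjective Φ := by
    intro F
    have key : ∀ (q : Fin r) (b : G) (x : E6), b ∈ MulAction.stabilizer G (rep q) →
        (F q).1 ((ρ (a (rep q)))⁻¹ * (ρ b * x)) = (F q).1 ((ρ (a (rep q)))⁻¹ * x) := by
      intro q b x hb
      have h1 := (CompAux.conj_mem (ha (rep q))).1 hb
      have h2 := (mem_eigG_iff.1 (F q).2).2.1 _ ⟨_, h1, rfl⟩ ((ρ (a (rep q)))⁻¹ * x)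
      rw [map_mul, map_mul, map_inv, mul_assoc, mul_inv_cancel_left, mul_assoc] at h2
      exact h2
    have m1 : ∀ z, (fun x => (F (π z)).1 ((ρ (a (rep (π z))))⁻¹ * (ρ (k z) * x))) ∈
        EigG ⊥ ev := fun z => by
      have h1 := CompAux.left_mem (Γ' := ⊥) (F (π z)).2 ((ρ (a (rep (π z))))⁻¹ * ρ (k z))
        fun γ hγ x => by rw [Subgroup.mem_bot.1 hγ, one_mul]
      simp only [mul_assoc] at h1
      exact h1
    refine ⟨⟨⟨fun w => (F (π w.2)).1 ((ρ (a (rep (π w.2))))⁻¹ * (ρ (k w.2) * w.1)),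
      N.mem_CI.2 ⟨fun z => (mem_eigG_iff.1 (m1 z)).1.gs.continuous, fun g x z => ?_⟩⟩, m1⟩, ?_⟩
    · show (F (π (g • z))).1 ((ρ (a (rep (π (g • z)))))⁻¹ * (ρ (k (g • z)) * (ρ g * x))) =
        (F (π z)).1 ((ρ (a (rep (π z))))⁻¹ * (ρ (k z) * x))
      have h1 := hk (g • z)
      rw [hπ] at h1 ⊢
      have h2 : k (g • z) * g * (k z)⁻¹ ∈ MulAction.stabilizer G (rep (π z)) := by
        rw [MulAction.mem_stabilizer_iff, mul_smul, mul_smul]
        conv_lhs => rw [← hk z, inv_smul_smul]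
        exact h1
      have h3 := key _ _ (ρ (k z) * x) h2
      rw [map_mul, map_mul, map_inv, mul_assoc, inv_mul_cancel_left, mul_assoc] at h3
      exact h3
    · funext q
      refine Subtype.ext (funext fun x => ?_)
      rw [hΦ]
      show (F (π (rep q))).1 ((ρ (a (rep (π (rep q)))))⁻¹ *
        (ρ (k (rep q)) * (ρ (a (rep q)) * x))) = _
      have h1 := hk (rep q)
      rw [hrep] at h1 ⊢
      rw [key q _ _ h1, inv_mul_cancel_left]
  exact ⟨LinearEquiv.ofBijective Φ ⟨hinj, hsurj⟩, hΦ⟩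

end Pool.Agent.P.MP_3c2f8c_gt.Ex
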