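import Pool.Agent.P.MP_3c2f8c_gt.Ex.An.Grow

/-! EXA-Cone: the cone and extensions of degree zero. -/

namespace Pool.Agent.P.MP_3c2f8c_gt.Ex

open Matrix MeasureTheory Topology

namespace ConeAux

theorem NJ_tri (x : I → ℝ) : NJ x = tri (nJ ℝ) x x x / 6 := by
  rw [tri_nJ_self]
  ring

theorem NJ_E6 (g : E6) (x : I → ℝ) : NJ (g.1.1 *ᵥ x) = NJ x := g.2 x

theorem cube_rpow {t : ℝ} (ht : 0 < t) : (t ^ 3) ^ (-(1 / 3) : ℝ) = t⁻¹ := by
  rw [← Real.rpow_natCast, ← Real.rpow_mul ht.le]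
  norm_num
  exact Real.rpow_neg_one t

end ConeAux

open ConeAux

theorem NJ_smul (t : ℝ) (x : I → ℝ) : NJ (t • x) = t ^ 3 * NJ x := by
  rw [NJ_tri, NJ_tri, tri_smul₁, tri_smul₂, tri_smul₃]
  ring

theorem contDiff_NJ : ContDiff ℝ (⊤ : ℕ∞) (NJ : (I → ℝ) → ℝ) := by
  have e : (NJ : (I → ℝ) → ℝ) =
      fun x => (∑ a, ∑ b, ∑ c, nJ ℝ a b c * (x a * x b * x c)) / 6 := funext NJ_tri
  rw [e]
  refine ContDiff.div_const ?_ _
  refine ContDiff.sum fun a _ => ContDiff.sum fun b _ => ContDiff.sum fun c _ => ?_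
  exact contDiff_const.mul (((contDiff_apply ℝ ℝ a).mul (contDiff_apply ℝ ℝ b)).mul
    (contDiff_apply ℝ ℝ c))

theorem NJ_XS (x : XS) : NJ x.1 = 1 := by
  obtain ⟨g, hg⟩ := x.2
  rw [← hg, NJ_E6, NJ_e]

namespace ConeAux

theorem rad_smul {t : ℝ} (ht : 0 < t) {x : I → ℝ} (hx : 0 < NJ x) : rad (t • x) = rad x := by
  rw [rad, rad, NJ_smul, Real.mul_rpow (by positivity) hx.le, cube_rpow ht, smul_smul,
    mul_right_comm, inv_mul_cancel₀ ht.ne', one_mul]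

theorem rad_val (x : XS) : rad x.1 = x.1 := by
  rw [rad, NJ_XS, Real.one_rpow, one_smul]

theorem rad_mulVec (g : E6) (x : I → ℝ) : rad (g.1.1 *ᵥ x) = g.1.1 *ᵥ rad x := by
  rw [rad, rad, NJ_E6, mulVec_smul]

theorem contDiffAt_rad {x : I → ℝ} (hx : 0 < NJ x) : ContDiffAt ℝ (⊤ : ℕ∞) rad x :=
  (contDiff_NJ.contDiffAt.rpow_const_of_ne hx.ne').smul contDiffAt_id

end ConeAux

theorem val_mem_cone (x : XS) : x.1 ∈ cone :=
  ⟨by rw [NJ_XS]; exact one_pos, by rw [rad_val]; exact x.2⟩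

theorem smul_mem_cone {t : ℝ} (ht : 0 < t) {x : I → ℝ} (hx : x ∈ cone) : t • x ∈ cone :=
  ⟨by rw [NJ_smul]; exact mul_pos (pow_pos ht 3) hx.1, by rw [rad_smul ht hx.1]; exact hx.2⟩

theorem mem_cone_iff {x : I → ℝ} :
    x ∈ cone ↔ ∃ (t : ℝ) (g : E6), 0 < t ∧ x = t • g.1.1 *ᵥ eJ := by
  constructor
  · rintro ⟨hx, g, hg⟩
    have h : 0 < NJ x ^ (-(1 / 3) : ℝ) := Real.rpow_pos_of_pos hx _
    exact ⟨_, g, inv_pos.2 h, by rw [hg, rad, smul_smul, inv_mul_cancel₀ h.ne', one_smul]⟩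
  · rintro ⟨t, g, ht, rfl⟩
    exact smul_mem_cone ht (val_mem_cone ⟨_, g, rfl⟩)

theorem mulVec_mem_cone (g : E6) {x : I → ℝ} (hx : x ∈ cone) : g.1.1 *ᵥ x ∈ cone := by
  obtain ⟨hx, h, hh⟩ := hx
  refine ⟨by rw [NJ_E6]; exact hx, g * h, ?_⟩
  rw [rad_mulVec, ← hh, mulVec_mulVec]
  rfl

namespace ConeAux

theorem cone_mem_nhds : cone ∈ 𝓝 (eJ : I → ℝ) := by
  have h := HasStrictFDerivAt.map_nhds_eq_of_equiv
    (f' := ContinuousLinearEquiv.refl ℝ (I → ℝ)) hasStrictFDerivAt_exp_LJ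
  have e0 : LJ 0 = 0 := by simpa using LJ_smul 0 0
  simp only [e0, NormedSpace.exp_zero, one_mulVec] at h
  rw [← h, Filter.mem_map]
  refine Filter.univ_mem' fun v => mem_cone_iff.2 ⟨_, eA v, Real.exp_pos (TJ v eJ / 3), ?_⟩
  change NormedSpace.exp (LJ v) *ᵥ eJ = _
  rw [exp_LJ, smul_mulVec]

theorem inv_mulVec (g : E6) (x : I → ℝ) : g.1.1 *ᵥ ((g⁻¹).1.1 *ᵥ x) = x := by
  rw [mulVec_mulVec, Subgroup.coe_inv, ← Units.val_mul, mul_inv_cancel, Units.val_one, one_mulVec]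

theorem inv_mulVec' (g : E6) (x : I → ℝ) : (g⁻¹).1.1 *ᵥ (g.1.1 *ᵥ x) = x := by
  rw [mulVec_mulVec, Subgroup.coe_inv, ← Units.val_mul, inv_mul_cancel, Units.val_one, one_mulVec]

end ConeAux

theorem isOpen_cone : IsOpen cone := by
  refine isOpen_iff_mem_nhds.2 fun x hx => ?_
  obtain ⟨t, g, ht, rfl⟩ := mem_cone_iff.1 hx
  have hc : Continuous fun y : I → ℝ => t⁻¹ • (g⁻¹).1.1 *ᵥ y :=
    (continuous_const.matrix_mulVec continuous_id).fun_const_smul _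
  have h : (fun y : I → ℝ => t⁻¹ • (g⁻¹).1.1 *ᵥ y) ⁻¹' cone ∈ 𝓝 (t • g.1.1 *ᵥ eJ) := by
    refine hc.continuousAt.preimage_mem_nhds ?_
    rw [mulVec_smul, inv_mulVec', smul_smul, inv_mul_cancel₀ ht.ne', one_smul]
    exact cone_mem_nhds
  refine Filter.mem_of_superset h fun y hy => ?_
  have h' := smul_mem_cone ht (mulVec_mem_cone g hy)
  rwa [mulVec_smul, inv_mulVec, smul_smul, mul_inv_cancel₀ ht.ne', one_smul] at h'

namespace ConeAux

theorem ext_of_mem (f : XS → ℝ) {x : I → ℝ} (hx : x ∈ cone) : ext f x = f ⟨rad x, hx.2⟩ :=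
  dif_pos hx

end ConeAux

theorem ext_val (f : XS → ℝ) (x : XS) : ext f x.1 = f x := by
  rw [ext_of_mem f (val_mem_cone x)]
  exact congrArg f (Subtype.ext (rad_val x))

theorem ext_smul (f : XS → ℝ) {t : ℝ} (ht : 0 < t) {x : I → ℝ} (hx : x ∈ cone) :
    ext f (t • x) = ext f x := by
  rw [ext_of_mem f hx, ext_of_mem f (smul_mem_cone ht hx)]
  exact congrArg f (Subtype.ext (rad_smul ht hx.1))

theorem ext_mulVec (f : XS → ℝ) (g : E6) {x : I → ℝ} (hx : x ∈ cone) :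
    ext (fun y => f (g • y)) x = ext f (g.1.1 *ᵥ x) := by
  rw [ext_of_mem _ hx, ext_of_mem f (mulVec_mem_cone g hx)]
  exact congrArg f (Subtype.ext (rad_mulVec g x).symm)

theorem smooth_of_local {f : XS → ℝ} (h : ∀ x : XS, ∃ F : (I → ℝ) → ℝ,
    ContDiff ℝ (⊤ : ℕ∞) F ∧ ∀ᶠ y in 𝓝 x, f y = F y.1) : Smooth f := by
  intro x hx
  obtain ⟨F, hF, e⟩ := h ⟨rad x, hx.2⟩
  have e₁ : ∀ᶠ z in 𝓝 (rad x), ∀ y : XS, y.1 = z → f y = F y.1 :=
    Filter.eventually_comap.1 ((nhds_subtype _ _).ge e)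
  have e' := (contDiffAt_rad hx.1).continuousAt.eventually e₁
  refine ((hF.contDiffAt.comp x (contDiffAt_rad hx.1)).congr_of_eventuallyEq ?_).contDiffWithinAt
  filter_upwards [e', isOpen_cone.mem_nhds hx] with y hy hy'
  rw [ext_of_mem f hy']
  exact hy ⟨rad y, hy'.2⟩ rfl

theorem Smooth.exists_local {f : XS → ℝ} (hf : Smooth f) (x : XS) : ∃ F : (I → ℝ) → ℝ,
    ContDiff ℝ (⊤ : ℕ∞) F ∧ ∀ᶠ y in 𝓝 x, f y = F y.1 := by
  obtain ⟨ε, hε, hb⟩ := Metric.isOpen_iff.1 isOpen_cone x.1 (val_mem_cone x)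
  let b : ContDiffBump x.1 := ⟨ε / 4, ε / 2, by positivity, by linarith⟩
  have hs : tsupport b ⊆ cone := by
    rw [b.tsupport_eq]
    exact (Metric.closedBall_subset_ball (half_lt_self hε)).trans hb
  refine ⟨fun y => b y * ext f y, contDiff_iff_contDiffAt.2 fun y => ?_, ?_⟩
  · by_cases hy : y ∈ cone
    · exact b.contDiff.contDiffAt.mul (ContDiffOn.contDiffAt hf (isOpen_cone.mem_nhds hy))
    · refine (contDiffAt_const (c := (0 : ℝ))).congr_of_eventuallyEq ?_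
      filter_upwards [notMem_tsupport_iff_eventuallyEq.1 fun h => hy (hs h)] with z hz
      rw [hz, Pi.zero_apply, zero_mul]
  · filter_upwards [continuous_subtype_val.continuousAt.eventually b.eventuallyEq_one] with y hy
    rw [ext_val, hy, Pi.one_apply, one_mul]

theorem eq_of_smul_eq {g h : E6} (e : ∀ x : XS, g • x = h • x) : g = h := by
  have e1 : ∀ x ∈ cone, g.1.1 *ᵥ x = h.1.1 *ᵥ x := fun x hx => by
    obtain ⟨t, k, -, rfl⟩ := mem_cone_iff.1 hx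
    rw [mulVec_smul, mulVec_smul]
    exact congrArg (fun y : XS => t • y.1) (e ⟨_, k, rfl⟩)
  have e2 : LinearMap.eqLocus (mulVecLin g.1.1) (mulVecLin h.1.1) = ⊤ :=
    Submodule.eq_top_of_nonempty_interior' _
      ⟨eJ, mem_interior_iff_mem_nhds.2 (Filter.mem_of_superset cone_mem_nhds e1)⟩
  refine Subtype.ext (Units.ext (Matrix.toLin'.injective ?_))
  exact LinearMap.eqLocus_eq_top.1 e2

end Pool.Agent.P.MP_3c2f8c_gt.Ex
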