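import Pool.Agent.P.MP_3c2f8c_gt.Ex.ADefs
import Pool.Agent.P.MP_3c2f8c_gt.E6.An.Defs

/-!
Definitions for the proof of the analytic main theorem: analysis on the group `E6`.
-/

namespace Pool.Agent.P.MP_3c2f8c_gt.Ex

open Matrix MeasureTheory Topology
open Pool.Agent.P.MP_3c2f8c_gt.E6 (pick CI)

/-- The diagonal of the trace form. -/
def dR : I → ℝ := Sum.elim 1 2

/-- The Gram matrix of the trace form. -/
def PJ : Matrix I I ℝ := diagonal dR

/-- The Jordan multiplication by `v`. -/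
noncomputable def LJ (v : I → ℝ) : Matrix I I ℝ :=
  (1 / 2 : ℝ) • DD (nJ ℝ) (mJ ℝ) v (PJ *ᵥ eJ)

/-- The traceless part of the Jordan multiplication by `v`. -/
noncomputable def pM (v : I → ℝ) : Matrix I I ℝ := LJ v - (TJ v eJ / 3) • (1 : Matrix I I ℝ)

/-- The quadratic operator of `x`, from the dual space to the space. -/
noncomputable def UJ (x : I → ℝ) : Matrix I I ℝ :=
  Matrix.of fun a b => x a * x b - 1 / 2 * crs (mJ ℝ) (crs (nJ ℝ) x x) (Pi.single b 1) a

/-- The element `exp (pM v)` of the group. -/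
noncomputable def eA (v : I → ℝ) : E6 := pick fun u => u.1.1 = NormedSpace.exp (pM v)

/-- The Cartan involution of the group. -/
noncomputable def th (g : E6) : E6 := pick fun h => h.1 = cartan g.1

/-- Smooth functions on the group. -/
def GS (f : E6 → ℝ) : Prop :=
  ∀ g : E6, ∃ F : (I → I → ℝ) → ℝ, ContDiff ℝ (⊤ : ℕ∞) F ∧
    ∀ᶠ g' in 𝓝 g, f g' = F fun i j => g'.1.1 i j

/-- The function `v ↦ f (g * exp (pM v))`. -/
noncomputable def chart (f : E6 → ℝ) (g : E6) (v : I → ℝ) : ℝ := f (g * eA v)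

/-- The left invariant vector field of `pM X`. -/
noncomputable def LD (X : I → ℝ) (f : E6 → ℝ) (g : E6) : ℝ := fderiv ℝ (chart f g) 0 X

/-- The horizontal Laplacian on the group. -/
noncomputable def lapG (f : E6 → ℝ) (g : E6) : ℝ :=
  ∑ a, (dR a)⁻¹ * LD (Pi.single a 1) (LD (Pi.single a 1) f) g

/-- The square of the horizontal gradient. -/
noncomputable def gam (f : E6 → ℝ) (g : E6) : ℝ := ∑ a, (dR a)⁻¹ * LD (Pi.single a 1) f g ^ 2

/-- Lifts of smooth functions on the symmetric space. -/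
def Lift (f : E6 → ℝ) : Prop := ∃ F : XS → ℝ, Smooth F ∧ ∀ g : E6, f g = F (g • oX)

/-- The eigenspace on the level of the group. -/
def EigG (Γ : Subgroup E6) (ev : ℝ) : Submodule ℝ (E6 → ℝ) :=
  Submodule.span ℝ {f | Lift f ∧ (∀ γ ∈ Γ, ∀ g, f (γ * g) = f g) ∧ ∀ g, lapG f g = -ev * f g}

instance : MeasurableSpace E6 := borel _

instance : BorelSpace E6 := ⟨rfl⟩

theorem continuous_NJ : Continuous (NJ : (I → ℝ) → ℝ) := by
  have h : ∀ (x : I → ℝ) (i : Fin 3), ((oc x i).1.re = x (.inr (i, 0)) ∧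
      (oc x i).1.imI = x (.inr (i, 1)) ∧ (oc x i).1.imJ = x (.inr (i, 2)) ∧
      (oc x i).1.imK = x (.inr (i, 3))) ∧ (oc x i).2.re = x (.inr (i, 4)) ∧
      (oc x i).2.imI = x (.inr (i, 5)) ∧ (oc x i).2.imJ = x (.inr (i, 6)) ∧
      (oc x i).2.imK = x (.inr (i, 7)) := fun _ _ => ⟨⟨rfl, rfl, rfl, rfl⟩, rfl, rfl, rfl, rfl⟩
  unfold NJ
  simp only [onorm, otr, omul, Quaternion.normSq_def', Quaternion.re_sub, Quaternion.re_mul,
    Quaternion.imI_sub, Quaternion.imJ_sub, Quaternion.imK_sub, Quaternion.imI_mul,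
    Quaternion.imJ_mul, Quaternion.imK_mul, Quaternion.re_add, Quaternion.imI_add,
    Quaternion.imJ_add, Quaternion.imK_add, Quaternion.re_star, Quaternion.imI_star,
    Quaternion.imJ_star, Quaternion.imK_star, h]
  fun_prop

theorem isClosed_E6 : IsClosed (E6 : Set (GL I ℝ)) := by
  have e : (E6 : Set (GL I ℝ)) = ⋂ x, {g : GL I ℝ | NJ (g.1 *ᵥ x) = NJ x} := by
    ext g
    simp only [Set.mem_iInter, Set.mem_ofPred_eq]
    rfl
  rw [e]
  exact isClosed_iInter fun x => isClosed_eq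
    (continuous_NJ.comp (Units.continuous_val.matrix_mulVec continuous_const)) continuous_const

instance : LocallyCompactSpace E6 :=
  haveI : LocallyCompactSpace (Matrix I I ℝ) := inferInstanceAs (LocallyCompactSpace (I → I → ℝ))
  isClosed_E6.locallyCompactSpace

instance : SecondCountableTopology E6 :=
  haveI : SecondCountableTopology (Matrix I I ℝ) :=
    inferInstanceAs (SecondCountableTopology (I → I → ℝ))
  haveI : SecondCountableTopology (Matrix I I ℝ)ᵐᵒᵖ :=
    MulOpposite.opHomeomorph.symm.secondCountableTopology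
  haveI : SecondCountableTopology (GL I ℝ) := Units.isEmbedding_embedProduct.secondCountableTopology
  TopologicalSpace.Subtype.secondCountableTopology _

/-- A left Haar measure. -/
noncomputable def mu : Measure E6 := Measure.haar

instance : mu.IsHaarMeasure := inferInstanceAs (Measure.haar : Measure E6).IsHaarMeasure

/-- The convolution operator of `Θ`. -/
noncomputable def cv (Θ f : E6 → ℝ) (x : E6) : ℝ := ∫ y, Θ (x⁻¹ * y) * f y ∂mu

/-- A smoothing probability kernel concentrated near the stabiliser of the base point. -/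
structure Ker (δ : ℝ) (φ : E6 → ℝ) : Prop where
  lift : Lift φ
  supp : HasCompactSupport φ
  nonneg : ∀ g, 0 ≤ φ g
  int : ∫ g, φ g ∂mu = 1
  symm : ∀ g, φ g⁻¹ = φ g
  near : ∀ g, φ g ≠ 0 → AA oX (g • oX) ≤ 9 + δ
  reg : ∀ f : E6 → ℝ, Continuous f → Lift (cv φ f)

variable {Z : Type}

/-- `Nice` on the level of the group. -/
structure NiceA (G : Type) [Group G] [MulAction G E6] (Z : Type) [MulAction G Z]
    (ρ : G →* E6) : Prop where
  act : ∀ (g : G) (x : E6), g • x = ρ g * x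
  free : ∀ (g : G) (z : Z), ρ g = 1 → g • z = z → g = 1
  proper : ∀ (z z' : Z) (R : ℝ), {g : G | g • z = z' ∧ AA oX (ρ g • oX) ≤ R}.Finite
  cocpt : ∃ (R : ℝ) (s : Finset Z), ∀ (x : E6) (z : Z), ∃ g : G,
    AA oX ((ρ g * x) • oX) ≤ R ∧ g • z ∈ s

/-- `Matched` on the level of the group. -/
def MatchedL {G G' : Type} [Group G] [Group G'] [MulAction G Z] [MulAction G' Z]
    (ρ : G →* E6) (ρ' : G' →* E6) (κ : Z → Z → ℕ) (γ : G) (γ' : G') : Prop :=
  ∃ (τ : Subgroup.centralizer {γ} ≃* Subgroup.centralizer {γ'}) (g : E6) (Ψ : Z ≃ Z),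
    (∀ t : Subgroup.centralizer {γ}, (t : G) = γ → (τ t : G') = γ') ∧
    (∀ t : Subgroup.centralizer {γ}, ρ' (τ t) * g = g * ρ t) ∧
    (∀ (t : Subgroup.centralizer {γ}) (z : Z), Ψ ((t : G) • z) = (τ t : G') • Ψ z) ∧
    ∀ z z', κ (Ψ z) (Ψ z') = κ z z'

/-- `Transfer` on the level of the group. -/
def TransferL {G G' : Type} [Group G] [Group G'] [MulAction G Z] [MulAction G' Z]
    (ρ : G →* E6) (ρ' : G' →* E6) (κ : Z → Z → ℕ) : Prop :=
  ∃ (Reg : G → Prop) (φ : G → G'),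
    (∀ (m : ℕ) (γ : G) (z : Z), Chain κ (m + 1) z (γ • z) → Reg γ) ∧
    (∀ γ, Reg γ → MatchedL ρ ρ' κ γ (φ γ)) ∧
    ∀ γ₁ γ₂, Reg γ₁ → Reg γ₂ → IsConj (φ γ₁) (φ γ₂) → IsConj γ₁ γ₂

variable (Z) in
/-- The measure on `E6 × Z`. -/
noncomputable def nm [MeasurableSpace Z] : Measure (E6 × Z) := mu.prod Measure.count

section Inst

variable [TopologicalSpace Z] [DiscreteTopology Z] [MeasurableSpace Z] [DiscreteMeasurableSpace Z]
  [Countable Z]

instance : IsFiniteMeasureOnCompacts (nm Z) :=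
  haveI : IsFiniteMeasureOnCompacts (Measure.count : Measure Z) :=
    ⟨fun _ h => Measure.count_apply_lt_top.2 h.finite_of_discrete⟩
  inferInstanceAs (IsFiniteMeasureOnCompacts (mu.prod Measure.count))

instance : (nm Z).IsOpenPosMeasure :=
  haveI : (Measure.count : Measure Z).IsOpenPosMeasure :=
    ⟨fun _ _ h => Measure.count_ne_zero_iff.2 h⟩
  inferInstanceAs (mu.prod Measure.count).IsOpenPosMeasure

end Inst

/-- The product kernel `Θ ⊗ κ ^ m`. -/
noncomputable def pk (Θ : E6 → ℝ) (κ : Z → Z → ℕ) (m : ℕ) (w v : E6 × Z) : ℝ :=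
  Θ (w.1⁻¹ * v.1) * (kpow κ m w.2 v.2).toReal

/-- Kernels invariant under `E6` and the automorphisms of `(Z, κ)`. -/
def KSym (κ : Z → Z → ℕ) (q : E6 × Z → E6 × Z → ℝ) : Prop :=
  ∀ (g : E6) (Ψ : Z ≃ Z), (∀ z z', κ (Ψ z) (Ψ z') = κ z z') →
    ∀ w v, q (g * w.1, Ψ w.2) (g * v.1, Ψ v.2) = q w v

/-- Kernels supported on pairs joined by a chain of length `m`. -/
def KCh (κ : Z → Z → ℕ) (m : ℕ) (q : E6 × Z → E6 × Z → ℝ) : Prop :=
  ∀ w v, q w v ≠ 0 → Chain κ m w.2 v.2

variable (Z) in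
/-- The total eigenspace. -/
def EigY (G : Type) [Group G] [MulAction G E6] [MulAction G Z] [TopologicalSpace Z] (ev : ℝ) :
    Submodule ℝ (CI (E6 × Z) G) where
  carrier := {f | ∀ z, (fun x => f.1 (x, z)) ∈ EigG ⊥ ev}
  zero_mem' := fun _ => Submodule.zero_mem _
  add_mem' := fun hf hg z => Submodule.add_mem _ (hf z) (hg z)
  smul_mem' := fun c _ hf z => Submodule.smul_mem _ c (hf z)

/-- `U` is the operator of `κ` on continuous invariant functions. -/
def IsU {G : Type} [Group G] [MulAction G E6] [MulAction G Z] [TopologicalSpace Z]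
    (κ : Z → Z → ℕ) (U : Module.End ℝ (CI (E6 × Z) G)) : Prop :=
  ∀ (f : CI (E6 × Z) G) (w : E6 × Z), (U f).1 w = UU κ f.1 w

/-- The left invariant vector field of `pM X` in the first variable. -/
noncomputable def LDY (X : I → ℝ) (F : E6 × Z → ℝ) (w : E6 × Z) : ℝ :=
  LD X (fun x => F (x, w.2)) w.1

end Pool.Agent.P.MP_3c2f8c_gt.Ex
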