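import Pool.Agent.P.MP_3c2f8c_gt.Ex.An.Jor2
import Pool.Agent.P.MP_3c2f8c_gt.E6.An.Exp

/-! EXA-Exp: one-parameter groups. -/

namespace Pool.Agent.P.MP_3c2f8c_gt.Ex

open Matrix MeasureTheory Topology

open Pool.Agent.P.MP_3c2f8c_gt.E6 (pick_spec)
open Pool.Agent.P.MP_3c2f8c_gt.E6.ExpAux (exp_mul_neg exp_neg_mul)

namespace ExpAux

theorem hasDerivAt_tri (n : T3 ℝ) {y : ℝ → I → ℝ} {y' : I → ℝ} {t : ℝ} (h : HasDerivAt y y' t) :
    HasDerivAt (fun s => tri n (y s) (y s) (y s))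
      (tri n y' (y t) (y t) + tri n (y t) y' (y t) + tri n (y t) (y t) y') t := by
  have hc := hasDerivAt_pi.1 h
  have h1 : HasDerivAt (fun s => ∑ a, ∑ b, ∑ c, n a b c * (y s a * y s b * y s c))
      (∑ a, ∑ b, ∑ c, n a b c * ((y' a * y t b + y t a * y' b) * y t c + y t a * y t b * y' c))
      t :=
    HasDerivAt.fun_sum fun a _ => HasDerivAt.fun_sum fun b _ => HasDerivAt.fun_sum fun c _ =>
      (((hc a).mul (hc b)).mul (hc c)).const_mul _
  refine h1.congr_deriv ?_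
  simp only [tri, ← Finset.sum_add_distrib]
  exact Finset.sum_congr rfl fun a _ => Finset.sum_congr rfl fun b _ =>
    Finset.sum_congr rfl fun c _ => by ring

open scoped Matrix.Norms.Operator in
theorem hasDerivAt_exp_mulVec (X : Matrix I I ℝ) (x : I → ℝ) (t : ℝ) :
    HasDerivAt (fun s : ℝ => NormedSpace.exp (s • X) *ᵥ x)
      (X *ᵥ (NormedSpace.exp (t • X) *ᵥ x)) t := by
  let L : Matrix I I ℝ →L[ℝ] (I → ℝ) :=
    LinearMap.toContinuousLinearMap ((Matrix.mulVecBilin ℝ ℝ).flip x)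
  have h := L.hasFDerivAt.comp_hasDerivAt t (hasDerivAt_exp_smul_const' X t)
  rw [mulVec_mulVec]
  exact h

open scoped Matrix.Norms.Operator in
theorem hasDerivAt_exp_mulVec' (X : Matrix I I ℝ) (x : I → ℝ) (t : ℝ) :
    HasDerivAt (fun s : ℝ => NormedSpace.exp (s • X) *ᵥ x)
      (NormedSpace.exp (t • X) *ᵥ (X *ᵥ x)) t := by
  let L : Matrix I I ℝ →L[ℝ] (I → ℝ) :=
    LinearMap.toContinuousLinearMap ((Matrix.mulVecBilin ℝ ℝ).flip x)
  have h := L.hasFDerivAt.comp_hasDerivAt t (hasDerivAt_exp_smul_const X t)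
  rw [mulVec_mulVec]
  exact h

theorem ext' {g h : E6} (e : g.1.1 = h.1.1) : g = h := Subtype.ext (Units.ext e)

theorem pM_neg (v : I → ℝ) : pM (-v) = -pM v := by
  rw [← neg_one_smul ℝ v, pM_smul, neg_one_smul]

open scoped Matrix.Norms.Operator in
theorem exp_scalar (t : ℝ) :
    NormedSpace.exp (t • (1 : Matrix I I ℝ)) = Real.exp t • (1 : Matrix I I ℝ) := by
  rw [← Algebra.algebraMap_eq_smul_one, ← Algebra.algebraMap_eq_smul_one,
    Real.exp_eq_exp_ℝ]
  exact (NormedSpace.algebraMap_exp_comm t).symm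

end ExpAux

open ExpAux

theorem NJ_exp {X : Matrix I I ℝ} (hX : Der (nJ ℝ) X 0) (x : I → ℝ) :
    NJ (NormedSpace.exp X *ᵥ x) = NJ x := by
  have h : ∀ t : ℝ, HasDerivAt (fun s : ℝ => tri (nJ ℝ) (NormedSpace.exp (s • X) *ᵥ x)
      (NormedSpace.exp (s • X) *ᵥ x) (NormedSpace.exp (s • X) *ᵥ x)) 0 t := fun t =>
    (hasDerivAt_tri (nJ ℝ) (hasDerivAt_exp_mulVec X x t)).congr_deriv (by rw [hX, zero_mul])
  have h2 := is_const_of_deriv_eq_zero (fun t => (h t).differentiableAt) (fun t => (h t).deriv) 1 0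
  simp only [one_smul, zero_smul, NormedSpace.exp_zero, one_mulVec, tri_nJ_self] at h2
  linarith

theorem eA_val (v : I → ℝ) : (eA v).1.1 = NormedSpace.exp (pM v) :=
  pick_spec (P := fun u : E6 => u.1.1 = NormedSpace.exp (pM v))
    ⟨⟨⟨_, _, exp_mul_neg _, exp_neg_mul _⟩, NJ_exp (pM_der v)⟩, rfl⟩

theorem eA_zero : eA 0 = 1 := by
  refine ext' ?_
  rw [eA_val, ← zero_smul ℝ (0 : I → ℝ), pM_smul, zero_smul, NormedSpace.exp_zero]
  rfl

theorem eA_add_smul (v : I → ℝ) (s t : ℝ) : eA ((s + t) • v) = eA (s • v) * eA (t • v) := by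
  refine ext' ?_
  rw [Subgroup.coe_mul, Units.val_mul, eA_val, eA_val, eA_val, pM_smul, pM_smul, pM_smul, add_smul,
    Matrix.exp_add_of_commute _ _ (((Commute.refl (pM v)).smul_left s).smul_right t)]

theorem eA_neg (v : I → ℝ) : eA (-v) = (eA v)⁻¹ := by
  refine eq_inv_of_mul_eq_one_left (ext' ?_)
  rw [Subgroup.coe_mul, Units.val_mul, eA_val, eA_val, pM_neg]
  exact exp_neg_mul _

theorem contDiff_exp_pM :
    ContDiff ℝ (⊤ : ℕ∞) fun (v : I → ℝ) (i j : I) => NormedSpace.exp (pM v) i j := by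
  obtain ⟨L, hL⟩ := exists_pML
  simp only [← hL]
  open scoped Matrix.Norms.Operator in
  have h : ContDiff ℝ (⊤ : ℕ∞) fun x : I → ℝ => NormedSpace.exp (L x) :=
    (contDiff_iff_contDiffAt.2 fun M => (NormedSpace.exp_analytic (𝕂 := ℝ) M).contDiffAt).comp
      (LinearMap.toContinuousLinearMap L).contDiff
  open scoped Matrix.Norms.Operator in
  exact contDiff_pi.2 fun i => contDiff_pi.2 fun j =>
    (LinearMap.toContinuousLinearMap (Matrix.entryLinearMap ℝ ℝ i j)).contDiff.comp h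

theorem hasDerivAt_exp_pM (v : I → ℝ) :
    HasDerivAt (fun (s : ℝ) (i j : I) => NormedSpace.exp (pM (s • v)) i j)
      (fun i j => pM v i j) 0 := by
  simp only [pM_smul]
  open scoped Matrix.Norms.Operator in
  have h := hasDerivAt_exp_smul_const (pM v) (0 : ℝ)
  rw [zero_smul, NormedSpace.exp_zero, Matrix.one_mul] at h
  exact h

theorem continuous_eA : Continuous eA := by
  have h : Continuous fun x => (eA x).1.1 := by
    simp only [eA_val]
    exact contDiff_exp_pM.continuous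
  refine continuous_induced_rng.2 (Units.continuous_iff.2 ⟨h, ?_⟩)
  refine (h.comp continuous_neg).congr fun x => ?_
  rw [Function.comp_apply, eA_neg]
  rfl

theorem th_eA (v : I → ℝ) : th (eA v) = eA (-v) := by
  have e1 : (pM v)ᵀ = (DJ ℝ).1 * pM v * ((DJ ℝ)⁻¹).1 := by
    rw [← PJ_eq, pM_symm, PJ_eq, Matrix.mul_assoc, Units.mul_inv, Matrix.mul_one]
  have e2 : (NormedSpace.exp (pM v))ᵀ * PJ = PJ * NormedSpace.exp (pM v) := by
    rw [← Matrix.exp_transpose, e1, Matrix.exp_units_conj, PJ_eq, Matrix.mul_assoc, Units.inv_mul,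
      Matrix.mul_one]
  refine Subtype.ext ?_
  rw [th_val]
  refine (eq_cartan fun x y => ?_).symm
  rw [TJ_dot, TJ_dot, eA_val, eA_val, pM_neg, dotProduct_comm, dotProduct_mulVec,
    ← mulVec_transpose, mulVec_mulVec, mulVec_mulVec, e2, Matrix.mul_assoc, exp_mul_neg,
    Matrix.mul_one, dotProduct_comm]

theorem exp_LJ (v : I → ℝ) :
    NormedSpace.exp (LJ v) = Real.exp (TJ v eJ / 3) • (eA v).1.1 := by
  have e : LJ v = (TJ v eJ / 3) • (1 : Matrix I I ℝ) + pM v := by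
    rw [pM]
    abel
  rw [e, Matrix.exp_add_of_commute _ _ ((Commute.one_left _).smul_left _), exp_scalar, eA_val,
    Matrix.smul_mul, Matrix.one_mul]

theorem hasDerivAt_exp_LJ (v x : I → ℝ) (s : ℝ) :
    HasDerivAt (fun t : ℝ => NormedSpace.exp (LJ (t • v)) *ᵥ x)
      (NormedSpace.exp (LJ (s • v)) *ᵥ (LJ v *ᵥ x)) s := by
  simp only [LJ_smul]
  exact hasDerivAt_exp_mulVec' (LJ v) x s

theorem hasStrictFDerivAt_exp_LJ :
    HasStrictFDerivAt (fun v : I → ℝ => NormedSpace.exp (LJ v) *ᵥ eJ)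
      (ContinuousLinearMap.id ℝ (I → ℝ)) 0 := by
  open scoped Matrix.Norms.Operator in
  let L : (I → ℝ) →L[ℝ] Matrix I I ℝ :=
    LinearMap.toContinuousLinearMap ⟨⟨LJ, LJ_add⟩, LJ_smul⟩
  open scoped Matrix.Norms.Operator in
  let E : Matrix I I ℝ →L[ℝ] (I → ℝ) :=
    LinearMap.toContinuousLinearMap ((Matrix.mulVecBilin ℝ ℝ).flip eJ)
  open scoped Matrix.Norms.Operator in
  have h0 : HasStrictFDerivAt (NormedSpace.exp : Matrix I I ℝ → Matrix I I ℝ)
      (1 : Matrix I I ℝ →L[ℝ] Matrix I I ℝ) (L 0) := by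
    rw [map_zero]
    exact hasStrictFDerivAt_exp_zero
  open scoped Matrix.Norms.Operator in
  have h1 := E.hasStrictFDerivAt.comp 0 (h0.comp 0 L.hasStrictFDerivAt)
  exact h1.congr_fderiv (ContinuousLinearMap.ext fun w => LJ_e w)

end Pool.Agent.P.MP_3c2f8c_gt.Ex
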