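import Pool.Agent.P.MP_3c2f8c_gt.Ex.An.Geom

/-! EXA-Fix: elements of finite order have a fixed point. -/

namespace Pool.Agent.P.MP_3c2f8c_gt.Ex

open Matrix MeasureTheory Topology

namespace FixAux

/-- The sum of the squared lengths of the columns. -/
noncomputable def hs (h : E6) : ℝ :=
  ∑ b, TJ (h.1.1 *ᵥ Pi.single b 1) (h.1.1 *ᵥ Pi.single b 1)

theorem mul_vec (g h : E6) (x : I → ℝ) : (g * h).1.1 *ᵥ x = g.1.1 *ᵥ (h.1.1 *ᵥ x) := by
  rw [mulVec_mulVec]; rfl

theorem hs_nonneg (h : E6) : 0 ≤ hs h := Finset.sum_nonneg fun _ _ => TJ_self_nonneg _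

theorem continuous_hs : Continuous hs := by
  unfold hs
  simp only [TJ_sum]
  have h : ∀ b a : I, Continuous fun g : E6 => (g.1.1 *ᵥ Pi.single b 1) a := fun b a =>
    (continuous_apply a).comp (continuous_val.matrix_mulVec continuous_const)
  exact continuous_finsetSum _ fun b _ => continuous_finsetSum _ fun a _ =>
    continuous_const.mul ((h b a).mul (h b a))

theorem hs_left {u : E6} (hu : u • oX = oX) (h : E6) : hs (u * h) = hs h :=
  Finset.sum_congr rfl fun b _ => by rw [mul_vec, (orth_iff u).2 hu]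

theorem entry_le (h : E6) (a c : I) : |h.1.1 a c| ≤ √(hs h) := by
  refine Real.abs_le_sqrt (le_trans ?_ (Finset.single_le_sum
    (f := fun b => TJ (h.1.1 *ᵥ Pi.single b 1) (h.1.1 *ᵥ Pi.single b 1))
    (fun _ _ => TJ_self_nonneg _) (Finset.mem_univ c)))
  rw [TJ_sum]
  refine le_trans ?_ (Finset.single_le_sum
    (f := fun a => dR a * ((h.1.1 *ᵥ Pi.single c 1) a * (h.1.1 *ᵥ Pi.single c 1) a))
    (fun a _ => mul_nonneg (dR_pos a).le (mul_self_nonneg _)) (Finset.mem_univ a))
  have h1 : 1 ≤ dR a := by rcases a with a | a <;> simp [dR]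
  rw [mulVec_single_one, col_apply, ← sq]
  exact le_mul_of_one_le_left (sq_nonneg _) h1

theorem TJ_half (w x : I → ℝ) :
    TJ ((eA w).1.1 *ᵥ x) ((eA w).1.1 *ᵥ x) = TJ x ((eA w * eA w).1.1 *ᵥ x) := by
  rw [← TJ_th (eA w) x, th_eA, eA_neg, ← mul_vec, inv_mul_cancel_left]

theorem TJ_sub (x y : I → ℝ) : TJ (x - y) (x - y) = TJ x x + TJ y y - 2 * TJ x y := by
  simp only [TJ_sum, Finset.mul_sum, ← Finset.sum_add_distrib, ← Finset.sum_sub_distrib,
    Pi.sub_apply]
  exact Finset.sum_congr rfl fun a _ => by ring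

theorem convex (w : I → ℝ) (h : E6) : hs h + hs (eA w * eA w * h) - 2 * hs (eA w * h) =
    ∑ b, TJ (h.1.1 *ᵥ Pi.single b 1 - (eA w * eA w * h).1.1 *ᵥ Pi.single b 1)
      (h.1.1 *ᵥ Pi.single b 1 - (eA w * eA w * h).1.1 *ᵥ Pi.single b 1) := by
  simp only [hs, Finset.mul_sum, ← Finset.sum_add_distrib, ← Finset.sum_sub_distrib]
  refine Finset.sum_congr rfl fun b _ => ?_
  rw [TJ_sub, mul_vec (eA w) h, TJ_half, ← mul_vec]

theorem convex_nonneg (w : I → ℝ) (h : E6) :
    0 ≤ hs h + hs (eA w * eA w * h) - 2 * hs (eA w * h) := by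
  rw [convex]
  exact Finset.sum_nonneg fun _ _ => TJ_self_nonneg _

theorem convex_eq {w : I → ℝ} {h : E6}
    (e : hs h + hs (eA w * eA w * h) - 2 * hs (eA w * h) ≤ 0) : eA w * eA w = 1 := by
  rw [convex] at e
  have h1 : eA w * eA w * h = h := by
    refine Subtype.ext (Units.ext (Matrix.ext fun a b => ?_))
    have h2 := eq_zero_of_TJ ((Finset.single_le_sum
      (f := fun b => TJ (h.1.1 *ᵥ Pi.single b 1 - (eA w * eA w * h).1.1 *ᵥ Pi.single b 1)
        (h.1.1 *ᵥ Pi.single b 1 - (eA w * eA w * h).1.1 *ᵥ Pi.single b 1))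
      (fun _ _ => TJ_self_nonneg _) (Finset.mem_univ b)).trans e)
    have h3 := congrFun (sub_eq_zero.1 h2) a
    rw [mulVec_single_one, mulVec_single_one, col_apply, col_apply] at h3
    exact h3.symm
  exact mul_eq_right.1 h1

end FixAux

open FixAux in
theorem exists_fixed {g : E6} (h : IsOfFinOrder g) : ∃ x : XS, g • x = x := by
  have hfin : Finite (Subgroup.zpowers g) := h.finite_zpowers
  have := Fintype.ofFinite (Subgroup.zpowers g)
  obtain ⟨F, hF⟩ : ∃ F : E6 → ℝ, ∀ y, F y = ∑ k : Subgroup.zpowers g, hs (y * k) := ⟨_, fun _ => rfl⟩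
  have hc : Continuous F := by
    rw [funext hF]
    exact continuous_finsetSum _ fun k _ => continuous_hs.comp (continuous_mul_const _)
  have hl : ∀ u : E6, u • oX = oX → ∀ y, F (u * y) = F y := fun u hu y => by
    simp only [hF, mul_assoc, hs_left hu]
  have hr : ∀ y, F (y * g) = F y := fun y => by
    rw [hF, hF, ← Equiv.sum_comp (Equiv.mulLeft (⟨g, Subgroup.mem_zpowers g⟩ : Subgroup.zpowers g))
      fun k => hs (y * k)]
    exact Finset.sum_congr rfl fun k _ => congrArg hs (mul_assoc _ _ _)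
  have hb : ∀ y, hs y ≤ F y := fun y => by
    rw [hF]
    refine le_trans (le_of_eq ?_) (Finset.single_le_sum (f := fun k : Subgroup.zpowers g => hs (y * k))
      (fun _ _ => hs_nonneg _) (Finset.mem_univ 1))
    exact congrArg hs (mul_one y).symm
  obtain ⟨R, hR⟩ := AA_le_of_entry √(F 1)
  obtain ⟨y, hy⟩ := hc.exists_forall_le' 1 (Filter.mem_of_superset
    (isCompact_AA R).compl_mem_cocompact fun y hy => by
      by_contra h1
      exact hy (hR y fun a c => (entry_le y a c).trans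
        (Real.sqrt_le_sqrt ((hb y).trans (not_le.1 h1).le))))
  obtain ⟨v, u, -, hu, e⟩ := exists_polar (y * g * y⁻¹)
  set w := (-(1 / 2) : ℝ) • v with hw
  have e1 : eA w * eA w = (eA v)⁻¹ := by
    rw [hw, ← eA_add_smul, ← eA_neg]
    congr 1
    norm_num
  have e2 : F (eA w * eA w * y) = F y := by
    rw [← hr, ← hl u hu y, e1]
    congr 1
    rw [mul_assoc, inv_mul_eq_iff_eq_mul, ← mul_assoc, ← e, inv_mul_cancel_right]
  have e3 : eA w * eA w = 1 := by
    refine convex_eq (h := y * (1 : Subgroup.zpowers g)) (le_trans (Finset.single_le_sum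
      (f := fun k : Subgroup.zpowers g =>
        hs (y * k) + hs (eA w * eA w * (y * k)) - 2 * hs (eA w * (y * k)))
      (fun _ _ => convex_nonneg _ _) (Finset.mem_univ 1)) ?_)
    have h1 := hy (eA w * y)
    simp only [Finset.sum_sub_distrib, Finset.sum_add_distrib, ← Finset.mul_sum, ← mul_assoc, ← hF]
    linarith
  refine ⟨y⁻¹ • oX, ?_⟩
  rw [e3, eq_comm, inv_eq_one] at e1
  rw [e1, one_mul] at e
  rw [← mul_smul, eq_inv_smul_iff, ← mul_smul, ← mul_assoc, e, hu]

end Pool.Agent.P.MP_3c2f8c_gt.Ex
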