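import Pool.Agent.P.MP_3c2f8c_gt.Ex.An.Cone

/-! EXA-Gm: the metric of the cone and its inverse. -/

namespace Pool.Agent.P.MP_3c2f8c_gt.Ex

open Matrix MeasureTheory Topology

namespace GmAux

theorem bil {G : Type} [NormedAddCommGroup G] [NormedSpace ℝ G]
    (B : (I → ℝ) →ₗ[ℝ] (I → ℝ) →ₗ[ℝ] G) {f g : (I → ℝ) → I → ℝ}
    {f' g' : (I → ℝ) →L[ℝ] I → ℝ} {x : I → ℝ} (hf : HasFDerivAt f f' x)
    (hg : HasFDerivAt g g' x) : ∃ D : (I → ℝ) →L[ℝ] G,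
      HasFDerivAt (fun y => B (f y) (g y)) D x ∧ ∀ v, D v = B (f x) (g' v) + B (f' v) (g x) := by
  let B' : (I → ℝ) →L[ℝ] (I → ℝ) →L[ℝ] G := LinearMap.toContinuousLinearMap
    ((LinearMap.toContinuousLinearMap : ((I → ℝ) →ₗ[ℝ] G) ≃ₗ[ℝ] _).toLinearMap ∘ₗ B)
  exact ⟨_, B'.hasFDerivAt_of_bilinear hf hg, fun v => rfl⟩

theorem dQ (x : I → ℝ) : ∃ D : (I → ℝ) →L[ℝ] I → ℝ,
    HasFDerivAt (fun y => crs (nJ ℝ) y y) D x ∧ ∀ v, D v = (2 : ℝ) • crs (nJ ℝ) x v := by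
  obtain ⟨D, h1, h2⟩ := bil (crsL (nJ ℝ)) (hasFDerivAt_id x) (hasFDerivAt_id x)
  refine ⟨D, h1, fun v => ?_⟩
  rw [h2, two_smul]
  exact congrArg (crs (nJ ℝ) x v + ·) (sym3_nJ.crs_comm v x)

theorem dN (x : I → ℝ) : ∃ D : (I → ℝ) →L[ℝ] ℝ,
    HasFDerivAt NJ D x ∧ ∀ v, D v = crs (nJ ℝ) x x ⬝ᵥ v / 2 := by
  obtain ⟨D, h1, h2⟩ := dQ x
  obtain ⟨D', h3, h4⟩ := bil (dotProductBilin ℝ ℝ) h1 (hasFDerivAt_id x)
  have e : (NJ : (I → ℝ) → ℝ) = fun y => (1 / 6 : ℝ) * (crs (nJ ℝ) y y ⬝ᵥ y) := by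
    funext y
    rw [← tri_eq_dot, tri_nJ_self]
    ring
  refine ⟨(1 / 6 : ℝ) • D', ?_, fun v => ?_⟩
  · rw [e]
    exact h3.const_mul _
  · have h5 : D' v = crs (nJ ℝ) x x ⬝ᵥ v + D v ⬝ᵥ x := h4 v
    rw [ContinuousLinearMap.smul_apply, h5, h2, smul_dotProduct, ← tri_eq_dot, ← tri_eq_dot,
      sym3_nJ.tri_swap₂₃ x v x, smul_eq_mul, smul_eq_mul]
    ring

theorem crs_sum (n : T3 ℝ) (η ξ : I → ℝ) (a : I) :
    ∑ b, crs n η (Pi.single b 1) a * ξ b = crs n η ξ a := by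
  simp only [crs, Finset.sum_mul]
  rw [Finset.sum_comm]
  refine Finset.sum_congr rfl fun c _ => Finset.sum_congr rfl fun b _ => ?_
  rw [Finset.sum_eq_single b (fun d _ h => by simp [h]) (by simp)]
  simp [mul_assoc]

theorem UJ_apply (x ξ : I → ℝ) :
    UJ x *ᵥ ξ = (x ⬝ᵥ ξ) • x - (1 / 2 : ℝ) • crs (mJ ℝ) (crs (nJ ℝ) x x) ξ := by
  funext a
  simp only [UJ, mulVec, dotProduct, of_apply, Pi.sub_apply, Pi.smul_apply, smul_eq_mul,
    ← crs_sum (mJ ℝ) _ ξ a, Finset.sum_mul, Finset.mul_sum, ← Finset.sum_sub_distrib]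
  exact Finset.sum_congr rfl fun b _ => by ring

theorem crs_swap {n : T3 ℝ} (h : Sym3 n) (x : I → ℝ) (a b : I) :
    crs n x (Pi.single a 1) b = crs n x (Pi.single b 1) a := by
  have h1 := h.tri_swap₂₃ x (Pi.single a 1) (Pi.single b 1)
  rwa [tri_eq_dot, tri_eq_dot, dotProduct_single_one, dotProduct_single_one] at h1

theorem UJ_crs (x w : I → ℝ) :
    UJ x *ᵥ crs (nJ ℝ) x w = (crs (nJ ℝ) x x ⬝ᵥ w / 2) • x - NJ x • w := by
  have h := (isAlb_nJ ℝ).adj₂ x w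
  rw [UJ_apply, dotProduct_comm, ← tri_eq_dot, ← tri_eq_dot, sym3_nJ.tri_swap₂₃ x w x]
  rw [tri_nJ_self] at h
  funext a
  have h1 := congrFun h a
  simp only [Pi.smul_apply, Pi.add_apply, Pi.sub_apply, smul_eq_mul] at h1 ⊢
  linarith

end GmAux

theorem pd_NJ (a : I) (x : I → ℝ) : pd a NJ x = crs (nJ ℝ) x x a / 2 := by
  obtain ⟨D, h1, h2⟩ := GmAux.dN x
  rw [pd, h1.fderiv, h2, dotProduct_single_one]

theorem gm_eq {x : I → ℝ} (hx : NJ x ≠ 0) (a b : I) : gm x a b =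
    crs (nJ ℝ) x x a * crs (nJ ℝ) x x b / (4 * NJ x ^ 2) -
      crs (nJ ℝ) x (Pi.single a 1) b / NJ x := by
  have e : (pd b fun y => Real.log (NJ y)) =ᶠ[𝓝 x]
      fun y => (1 / 2 : ℝ) * (crs (nJ ℝ) y y b * (NJ y)⁻¹) := by
    filter_upwards [continuous_NJ.continuousAt.eventually_ne hx] with y hy
    obtain ⟨D, h1, h2⟩ := GmAux.dN y
    rw [pd, (h1.log hy).fderiv, ContinuousLinearMap.smul_apply, h2, dotProduct_single_one,
      smul_eq_mul]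
    ring
  obtain ⟨D, h1, h2⟩ := GmAux.dN x
  obtain ⟨D', h3, h4⟩ := GmAux.dQ x
  have h5 := (((hasFDerivAt_pi'.1 h3 b).mul
    ((hasDerivAt_inv hx).comp_hasFDerivAt x h1)).const_mul (1 / 2 : ℝ)).congr_of_eventuallyEq e
  rw [gm, of_apply, pd, h5.fderiv]
  simp only [ContinuousLinearMap.smul_apply, ContinuousLinearMap.add_apply,
    ContinuousLinearMap.comp_apply, ContinuousLinearMap.proj_apply, h2, h4, smul_eq_mul,
    dotProduct_single_one, Pi.smul_apply, Function.comp_apply]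
  field_simp
  ring

theorem UJ_sharp (x : I → ℝ) : UJ x *ᵥ crs (nJ ℝ) x x = (2 * NJ x) • x := by
  rw [GmAux.UJ_crs, ← tri_eq_dot, tri_nJ_self, ← sub_smul]
  congr 1
  ring

theorem UJ_mul_gm {x : I → ℝ} (hx : NJ x ≠ 0) : UJ x * gm x = 1 := by
  ext a b
  have e : (fun c => gm x c b) = (crs (nJ ℝ) x x b / (4 * NJ x ^ 2)) • crs (nJ ℝ) x x -
      (NJ x)⁻¹ • crs (nJ ℝ) x (Pi.single b 1) := by
    funext c
    rw [gm_eq hx, GmAux.crs_swap sym3_nJ x c b]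
    simp only [Pi.sub_apply, Pi.smul_apply, smul_eq_mul]
    ring
  have h : (UJ x * gm x) a b = (UJ x *ᵥ fun c => gm x c b) a := rfl
  rw [h, e, mulVec_sub, mulVec_smul, mulVec_smul, UJ_sharp, GmAux.UJ_crs, dotProduct_single_one]
  simp only [Pi.sub_apply, Pi.smul_apply, smul_eq_mul, Pi.single_apply, one_apply]
  field_simp
  ring

theorem gm_inv {x : I → ℝ} (hx : NJ x ≠ 0) : (gm x)⁻¹ = UJ x := inv_eq_left_inv (UJ_mul_gm hx)

theorem UJ_symm (x : I → ℝ) (a b : I) : UJ x a b = UJ x b a := by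
  simp only [UJ, of_apply]
  rw [GmAux.crs_swap (isAlb_nJ ℝ).sym' _ b a, mul_comm (x a)]

theorem UJ_smul (t : ℝ) (x : I → ℝ) : UJ (t • x) = t ^ 2 • UJ x := by
  ext a b
  simp only [UJ, of_apply, crs_smul_left, crs_smul_right, Pi.smul_apply, Matrix.smul_apply,
    smul_eq_mul]
  ring

theorem UJ_mulVec (g : E6) (x : I → ℝ) : UJ (g.1.1 *ᵥ x) = g.1.1 * UJ x * g.1.1ᵀ := by
  have hg : Sim (nJ ℝ) (nJ ℝ) g.1.1 (1 : ℝˣ) := mem_E6_iff.1 g.2
  refine Matrix.ext_of_mulVec_single fun j => ?_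
  generalize (Pi.single j 1 : I → ℝ) = ξ
  have e : (dag g.1).1 *ᵥ (g.1.1ᵀ *ᵥ ξ) = ξ := by
    have h : (dag g.1).1 * g.1.1ᵀ = 1 := (dag g.1).val_inv
    rw [mulVec_mulVec, h, one_mulVec]
  have h1 := hg.crs' (isAlb_nJ ℝ) (isAlb_nJ ℝ) (crs (nJ ℝ) x x) (g.1.1ᵀ *ᵥ ξ)
  rw [e, inv_one, Units.val_one, one_smul] at h1
  rw [← mulVec_mulVec, ← mulVec_mulVec, GmAux.UJ_apply, GmAux.UJ_apply, hg.crs, Units.val_one,
    one_smul, h1, mulVec_sub, mulVec_smul, mulVec_smul, dotProduct_mulVec x, vecMul_transpose]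

theorem UJ_e : UJ eJ = diagonal fun a => (dR a)⁻¹ := by
  have hN : NJ (eJ : I → ℝ) ≠ 0 := by
    rw [NJ_e]
    exact one_ne_zero
  have hs : ∀ (y : I → ℝ) (b : I), TJ y (Pi.single b 1) = dR b * y b := fun y b => by
    rw [TJ_sum, Finset.sum_eq_single b (fun d _ h => by simp [h]) (by simp)]
    simp
  have hc : ∀ (y : I → ℝ) (b : I), crs (nJ ℝ) eJ y b = TJ y eJ * (dR b * eJ b) - dR b * y b :=
    fun y b => by
    have h := tri_e y (Pi.single b 1)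
    rwa [tri_eq_dot, dotProduct_single_one, TJ_comm (Pi.single b 1), hs, hs] at h
  have hg : gm eJ = diagonal dR := by
    ext a b
    rw [gm_eq hN, hc, hc, hc, TJ_e_e, NJ_e, TJ_comm, hs, diagonal_apply, Pi.single_apply]
    by_cases h : a = b
    · subst h
      simp only [if_true]
      ring
    · rw [if_neg h, if_neg (Ne.symm h)]
      ring
  rw [← gm_inv hN, hg]
  refine inv_eq_left_inv ?_
  rw [diagonal_mul_diagonal, ← diagonal_one]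
  congr 1
  funext a
  exact inv_mul_cancel₀ (dR_pos a).ne'

theorem contDiff_UJ (a b : I) : ContDiff ℝ (⊤ : ℕ∞) fun x => UJ x a b := by
  simp only [UJ, of_apply, crs]
  fun_prop

theorem div_UJ (x : I → ℝ) (b : I) : ∑ a, pd a (fun y => UJ y a b) x = 18 * x b := by
  obtain ⟨D, h1, h2⟩ := GmAux.dQ x
  obtain ⟨D', h3, h4⟩ := GmAux.bil (crsL (mJ ℝ)) h1
    (hasFDerivAt_const (Pi.single b (1 : ℝ) : I → ℝ) x)
  have h5 : ∀ a, pd a (fun y => UJ y a b) x = x b + (if a = b then x a else 0) -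
      crs (mJ ℝ) (Pi.single b 1) (crs (nJ ℝ) x (Pi.single a 1)) a := fun a => by
    have h6 : HasFDerivAt (fun y => UJ y a b) _ x :=
      ((hasFDerivAt_apply (𝕜 := ℝ) a x).mul (hasFDerivAt_apply (𝕜 := ℝ) b x)).sub
        ((hasFDerivAt_pi'.1 h3 a).const_mul (1 / 2 : ℝ))
    rw [pd, h6.fderiv, (isAlb_nJ ℝ).sym'.crs_comm]
    simp only [ContinuousLinearMap.smul_apply, ContinuousLinearMap.add_apply,
      ContinuousLinearMap.sub_apply, ContinuousLinearMap.comp_apply,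
      ContinuousLinearMap.proj_apply, h2, h4, smul_eq_mul, crsL_apply,
      ContinuousLinearMap.zero_apply, crs_zero_right, zero_add, crs_smul_left, Pi.smul_apply,
      Pi.single_eq_same, Pi.single_apply b, Pi.single_apply a]
    by_cases h : a = b
    · subst h
      simp only [if_true]
      ring
    · rw [if_neg h, if_neg (Ne.symm h)]
      ring
  simp only [h5]
  rw [Finset.sum_sub_distrib, Finset.sum_add_distrib, (isAlb_nJ ℝ).trace, single_one_dotProduct]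
  simp
  ring

theorem sqrt_det_gm : ∃ c : ℝ, 0 < c ∧ ∀ x ∈ cone, √(gm x).det = c * (NJ x)⁻¹ ^ 9 := by
  have hd : 0 < ∏ a, dR a := Finset.prod_pos fun a _ => dR_pos a
  refine ⟨√(∏ a, dR a), Real.sqrt_pos.2 hd, fun x hx => ?_⟩
  obtain ⟨t, g, ht, rfl⟩ := mem_cone_iff.1 hx
  have hN : NJ (t • g.1.1 *ᵥ eJ) = t ^ 3 := by rw [NJ_smul, g.2, NJ_e, mul_one]
  have h1 := congrArg Matrix.det (UJ_mul_gm (hN.trans_ne (pow_pos ht 3).ne'))
  have h2 : g.1.1.det * g.1.1.det = 1 := by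
    rw [← abs_mul_abs_self, abs_det_E6', one_mul]
  have hc : Fintype.card I = 27 := by simp
  rw [det_mul, det_one, UJ_smul, UJ_mulVec, UJ_e, det_smul, det_mul, det_mul, det_transpose,
    det_diagonal, Finset.prod_inv_distrib, hc] at h1
  have h3 : (gm (t • g.1.1 *ᵥ eJ)).det = (∏ a, dR a) * ((t ^ 3)⁻¹ ^ 9) ^ 2 := by
    have h4 : (t ^ 2) ^ 27 * (∏ a, dR a)⁻¹ * (gm (t • g.1.1 *ᵥ eJ)).det = 1 := by
      rw [← h1]
      linear_combination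
        (-((t ^ 2) ^ 27 * (∏ a, dR a)⁻¹ * (gm (t • g.1.1 *ᵥ eJ)).det)) * h2
    rw [eq_inv_of_mul_eq_one_right h4]
    field_simp
  rw [h3, hN, Real.sqrt_mul hd.le, Real.sqrt_sq (by positivity)]

end Pool.Agent.P.MP_3c2f8c_gt.Ex
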