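import Pool.Agent.P.MP_3c2f8c_gt.Ex.An.Nice
import Pool.Agent.P.MP_3c2f8c_gt.Ex.An.Smo

/-! EXA-Green1: differentiation under the integral over the fundamental domain. -/

namespace Pool.Agent.P.MP_3c2f8c_gt.Ex

open Matrix MeasureTheory Topology
open Pool.Agent.P.MP_3c2f8c_gt.E6 (PK KInv Act perK kcomp CI IsK SpecData)

variable {Z : Type}
  [TopologicalSpace Z] [DiscreteTopology Z] [MeasurableSpace Z] [DiscreteMeasurableSpace Z]
  [Countable Z] {G : Type} [Group G] [Countable G] [MulAction G E6] [MulAction G Z]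
  {ρ : G →* E6} {D : Set (E6 × Z)} {κ : Z → Z → ℕ}

theorem NiceA.ldy_mem (N : NiceA G Z ρ) (F : CI (E6 × Z) G)
    (hF : ∀ z, GS fun x => F.1 (x, z)) (X : I → ℝ) : LDY X F.1 ∈ CI (E6 × Z) G := by
  refine N.mem_CI.2 ⟨fun z => ((hF z).ld X).continuous, fun g x z => ?_⟩
  have h1 := LD_left (fun y => F.1 (y, g • z)) (ρ g) X x
  simp only [(N.mem_CI.1 F.2).2 g] at h1
  exact h1.symm

theorem NiceA.hasDerivAt_corr (N : NiceA G Z ρ) (A : Act G (nm Z) D)
    (f F : CI (E6 × Z) G) (hF : ∀ z, GS fun x => F.1 (x, z)) (X : I → ℝ) (s : ℝ) :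
    HasDerivAt (fun t : ℝ => ∫ w in D, f.1 w * F.1 (w.1 * eA (t • X), w.2) ∂nm Z)
      (∫ w in D, f.1 w * LDY X F.1 (w.1 * eA (s • X), w.2) ∂nm Z) s := by
  have := A.finite
  let F' : CI (E6 × Z) G := ⟨LDY X F.1, N.ldy_mem F hF X⟩
  obtain ⟨c, hc⟩ := A.bound f
  obtain ⟨c', hc'⟩ := A.bound F'
  have h1 : ∀ (H : CI (E6 × Z) G) (t : ℝ),
      Continuous fun w : E6 × Z => f.1 w * H.1 (w.1 * eA (t • X), w.2) :=
    fun H t => f.2.1.mul (N.right_mem H _).1
  refine (hasDerivAt_integral_of_dominated_loc_of_deriv_le (μ := (nm Z).restrict D)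
    (F := fun (t : ℝ) (w : E6 × Z) => f.1 w * F.1 (w.1 * eA (t • X), w.2))
    (F' := fun (t : ℝ) (w : E6 × Z) => f.1 w * F'.1 (w.1 * eA (t • X), w.2))
    (bound := fun _ => c * c') (s := Set.univ) Filter.univ_mem
    (Filter.Eventually.of_forall fun t => (h1 F t).aestronglyMeasurable)
    (A.integrableOn (h1 F s)) (h1 F' s).aestronglyMeasurable
    (Filter.Eventually.of_forall fun w t _ => ?_) (integrable_const _)
    (Filter.Eventually.of_forall fun w t _ => ?_)).2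
  · rw [Real.norm_eq_abs, abs_mul]
    exact mul_le_mul (hc w) (hc' _) (abs_nonneg _) ((abs_nonneg _).trans (hc w))
  · exact ((hF w.2).hasDerivAt X w.1 t).const_mul (f.1 w)

theorem NiceA.integral_ldy (N : NiceA G Z ρ)
    (A : Act G (nm Z) D) (F : CI (E6 × Z) G) (hF : ∀ z, GS fun x => F.1 (x, z))
    (X : I → ℝ) : ∫ w in D, LDY X F.1 w ∂nm Z = 0 := by
  have h1 := N.hasDerivAt_corr A ⟨fun _ => 1, continuous_const, fun _ _ => rfl⟩ F hF X 0
  simp only [one_mul, N.integral_right A F, zero_smul, eA_zero, mul_one] at h1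
  exact h1.unique (hasDerivAt_const _ _)

end Pool.Agent.P.MP_3c2f8c_gt.Ex
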