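import Pool.Agent.P.MP_3c2f8c_gt.Ex.An.Green1
import Pool.Agent.P.MP_3c2f8c_gt.Ex.An.Lift

/-! EXA-Green2: the energy identity. -/

namespace Pool.Agent.P.MP_3c2f8c_gt.Ex

open Matrix MeasureTheory Topology
open Pool.Agent.P.MP_3c2f8c_gt.E6 (PK KInv Act perK kcomp CI IsK SpecData)

variable {Z : Type}
  [TopologicalSpace Z] [DiscreteTopology Z] [MeasurableSpace Z] [DiscreteMeasurableSpace Z]
  [Countable Z] {G : Type} [Group G] [Countable G] [MulAction G E6] [MulAction G Z]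
  {ρ : G →* E6} {D : Set (E6 × Z)} {κ : Z → Z → ℕ}
  {ev : ℝ} {f : CI (E6 × Z) G}

namespace Green2Aux

theorem exists_div (N : NiceA G Z ρ) (hf : f ∈ EigY Z G ev) :
    ∃ F : I → CI (E6 × Z) G, (∀ j z, GS fun x => (F j).1 (x, z)) ∧
      ∀ w, gam (fun x => f.1 (x, w.2)) w.1 =
        ∑ i, (dR i)⁻¹ * LDY (Pi.single i 1) (F i).1 w + ev * f.1 w ^ 2 := by
  have hs : ∀ z, GS fun x => f.1 (x, z) := fun z => (mem_eigG_iff.1 (hf z)).1.gs
  have hm := fun j => N.ldy_mem f hs (Pi.single j 1)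
  refine ⟨fun j => ⟨fun w => f.1 w * LDY (Pi.single j 1) f.1 w, f.2.1.mul (hm j).1,
    fun g w => congrArg₂ (· * ·) (f.2.2 g w) ((hm j).2 g w)⟩,
    fun j z => (hs z).mul ((hs z).ld _), fun w => ?_⟩
  have h1 := (mem_eigG_iff.1 (hf w.2)).2.2 w.1
  rw [lapG] at h1
  have h2 : ∀ i, LDY (Pi.single i 1) (fun w => f.1 w * LDY (Pi.single i 1) f.1 w) w =
      LD (Pi.single i 1) (fun x => f.1 (x, w.2)) w.1 *
        LD (Pi.single i 1) (fun x => f.1 (x, w.2)) w.1 +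
        f.1 w * LD (Pi.single i 1) (LD (Pi.single i 1) fun x => f.1 (x, w.2)) w.1 :=
    fun i => LD_mul (hs w.2) ((hs w.2).ld _) _ _
  simp only [h2, mul_add, Finset.sum_add_distrib, mul_left_comm _ (f.1 w), ← Finset.mul_sum, h1,
    gam, ← sq]
  ring

theorem int_div (N : NiceA G Z ρ) (A : Act G (nm Z) D)
    {F : I → CI (E6 × Z) G} (hF : ∀ j z, GS fun x => (F j).1 (x, z)) (i : I) :
    Integrable (fun w => (dR i)⁻¹ * LDY (Pi.single i 1) (F i).1 w) ((nm Z).restrict D) :=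
  (A.integrableOn (N.ldy_mem (F i) (hF i) _).1).const_mul _

theorem int_sq (A : Act G (nm Z) D) (f : CI (E6 × Z) G) (c : ℝ) :
    Integrable (fun w => c * f.1 w ^ 2) ((nm Z).restrict D) :=
  (A.integrableOn (f.2.1.pow 2)).const_mul _

end Green2Aux

theorem NiceA.green (N : NiceA G Z ρ) (A : Act G (nm Z) D)
    (hf : f ∈ EigY Z G ev) : ∫ w in D, gam (fun x => f.1 (x, w.2)) w.1 ∂nm Z =
      ev * ∫ w in D, f.1 w ^ 2 ∂nm Z := by
  obtain ⟨F, hF, e⟩ := Green2Aux.exists_div N hf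
  have hi := Green2Aux.int_div N A hF
  simp only [e]
  rw [integral_add (integrable_finsetSum _ fun i _ => hi i)
    (Green2Aux.int_sq A f ev), integral_const_mul, integral_finsetSum _ fun i _ => hi i,
    Finset.sum_eq_zero fun i _ => ?_, zero_add]
  rw [integral_const_mul, N.integral_ldy A (F i) (hF i), mul_zero]

theorem NiceA.integral_ldy_sq (N : NiceA G Z ρ)
    (A : Act G (nm Z) D) (hf : f ∈ EigY Z G ev) (X : I → ℝ) :
    ∫ w in D, LDY X f.1 w ^ 2 ∂nm Z ≤ TJ X X * (ev * ∫ w in D, f.1 w ^ 2 ∂nm Z) := by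
  obtain ⟨F, hF, e⟩ := Green2Aux.exists_div N hf
  have hi := Green2Aux.int_div N A hF
  have hs := fun z => (mem_eigG_iff.1 (hf z)).1.gs
  rw [← N.green A hf, ← integral_const_mul]
  refine integral_mono (A.integrableOn ((N.ldy_mem f hs X).1.pow 2)) ?_
    fun w => LD_sq_le _ X w.1
  simp only [e]
  exact ((integrable_finsetSum _ fun i _ => hi i).add (Green2Aux.int_sq A f ev)).const_mul _

end Pool.Agent.P.MP_3c2f8c_gt.Ex
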