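import Pool.Agent.P.MP_3c2f8c_gt.E6.An.Diag

/-! EXA-Quad: two inequalities for exponentials of self-adjoint matrices. -/

namespace Pool.Agent.P.MP_3c2f8c_gt.Ex

open Matrix MeasureTheory Topology

variable {ι : Type} [Fintype ι] [DecidableEq ι] {P A : Matrix ι ι ℝ}

namespace QuadAux

theorem exists_orth (hP : P.PosDef) (hA : P * A = Aᵀ * P) : ∃ (V : GL ι ℝ) (d : ι → ℝ),
    A = V.1 * diagonal d * (V⁻¹).1 ∧ V.1ᵀ * P * V.1 = 1 := by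
  open scoped MatrixOrder in
  obtain ⟨C, hC, rfl⟩ := CStarAlgebra.isStrictlyPositive_iff_eq_star_mul_self.mp
    hP.isStrictlyPositive
  lift C to GL ι ℝ using hC
  have hs : ∀ C : Matrix ι ι ℝ, star C = Cᵀ := fun C => by
    rw [star_eq_conjTranspose, conjTranspose_eq_transpose_of_trivial]
  rw [hs] at hA ⊢
  have h1 : (C⁻¹).1ᵀ * C.1ᵀ = 1 := by
    rw [← transpose_mul, Units.mul_inv, transpose_one]
  have hH : (C.1 * A * (C⁻¹).1).IsHermitian := by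
    rw [IsHermitian, conjTranspose_eq_transpose_of_trivial, transpose_mul, transpose_mul]
    calc (C⁻¹).1ᵀ * (Aᵀ * C.1ᵀ) = (C⁻¹).1ᵀ * (Aᵀ * (C.1ᵀ * C.1)) * (C⁻¹).1 := by
          simp only [Matrix.mul_assoc, Units.mul_inv, Matrix.mul_one]
      _ = (C⁻¹).1ᵀ * (C.1ᵀ * C.1 * A) * (C⁻¹).1 := by rw [hA]
      _ = ((C⁻¹).1ᵀ * C.1ᵀ) * (C.1 * A * (C⁻¹).1) := by simp only [Matrix.mul_assoc]
      _ = C.1 * A * (C⁻¹).1 := by rw [h1, Matrix.one_mul]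
  have hsp := hH.spectral_theorem
  rw [Unitary.conjStarAlgAut_apply] at hsp
  set U := hH.eigenvectorUnitary
  refine ⟨C⁻¹ * Unitary.toUnits U, RCLike.ofReal ∘ hH.eigenvalues, ?_, ?_⟩
  · have e : A = (C⁻¹).1 * (C.1 * A * (C⁻¹).1) * C.1 := by
      simp only [Matrix.mul_assoc, Units.inv_mul, Matrix.mul_one]
      rw [← Matrix.mul_assoc, Units.inv_mul, Matrix.one_mul]
    refine e.trans ?_
    conv_lhs => rw [hsp]
    rw [_root_.mul_inv_rev, inv_inv, Units.val_mul, Units.val_mul]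
    simp only [Matrix.mul_assoc]
    rfl
  · have hU : U.1ᵀ * U.1 = 1 := by rw [← hs]; exact U.2.1
    calc ((C⁻¹).1 * U.1)ᵀ * (C.1ᵀ * C.1) * ((C⁻¹).1 * U.1)
        = U.1ᵀ * ((C⁻¹).1ᵀ * C.1ᵀ) * (C.1 * (C⁻¹).1) * U.1 := by
          simp only [transpose_mul, Matrix.mul_assoc]
      _ = 1 := by rw [h1, Units.mul_inv, Matrix.mul_one, Matrix.mul_one, hU]

theorem form {V : Matrix ι ι ℝ} (h : Vᵀ * P * V = 1) (a b : ι → ℝ) :
    (V *ᵥ a) ⬝ᵥ P *ᵥ (V *ᵥ b) = ∑ i, a i * b i := by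
  rw [mulVec_mulVec, ← vecMul_transpose, ← dotProduct_mulVec, mulVec_mulVec, ← Matrix.mul_assoc, h,
    one_mulVec, dotProduct]

theorem act (V : GL ι ℝ) (d c : ι → ℝ) :
    (V.1 * diagonal d * (V⁻¹).1) *ᵥ (V.1 *ᵥ c) = V.1 *ᵥ fun i => d i * c i := by
  rw [mulVec_mulVec, Matrix.mul_assoc, Units.inv_mul, Matrix.mul_one, ← mulVec_mulVec]
  exact congrArg _ (funext fun i => mulVec_diagonal d c i)

theorem surj (V : GL ι ℝ) (w : ι → ℝ) : ∃ c, w = V.1 *ᵥ c :=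
  ⟨(V⁻¹).1 *ᵥ w, by rw [mulVec_mulVec, Units.mul_inv, one_mulVec]⟩

end QuadAux

theorem quad_exp_ge (hP : P.PosDef) (hA : P * A = Aᵀ * P) (w : ι → ℝ) :
    w ⬝ᵥ P *ᵥ w + w ⬝ᵥ P *ᵥ (A *ᵥ w) ≤ w ⬝ᵥ P *ᵥ (NormedSpace.exp A *ᵥ w) := by
  obtain ⟨V, d, rfl, h⟩ := QuadAux.exists_orth hP hA
  obtain ⟨c, rfl⟩ := QuadAux.surj V w
  simp only [E6.exp_diag, QuadAux.act, QuadAux.form h, ← Finset.sum_add_distrib]
  refine Finset.sum_le_sum fun i _ => ?_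
  nlinarith [Real.add_one_le_exp (d i), mul_self_nonneg (c i)]

theorem quad_cosh_ge (hP : P.PosDef) (hA : P * A = Aᵀ * P) (w : ι → ℝ) :
    2 * (w ⬝ᵥ P *ᵥ w) + (A *ᵥ w) ⬝ᵥ P *ᵥ (A *ᵥ w) ≤
      w ⬝ᵥ P *ᵥ (NormedSpace.exp A *ᵥ w) + w ⬝ᵥ P *ᵥ (NormedSpace.exp (-A) *ᵥ w) := by
  obtain ⟨V, d, rfl, h⟩ := QuadAux.exists_orth hP hA
  obtain ⟨c, rfl⟩ := QuadAux.surj V w
  have hn : -(V.1 * diagonal d * (V⁻¹).1) = V.1 * diagonal (fun i => -d i) * (V⁻¹).1 := by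
    rw [← diagonal_neg, Matrix.mul_neg, Matrix.neg_mul]
  simp only [hn, E6.exp_diag, QuadAux.act, QuadAux.form h, Finset.mul_sum,
    ← Finset.sum_add_distrib]
  refine Finset.sum_le_sum fun i _ => ?_
  have e := E6.DiagAux.cosh_le (d i / 2)
  rw [← Real.exp_add, ← Real.exp_add, add_halves, ← neg_add, add_halves] at e
  nlinarith [mul_self_nonneg (c i)]

end Pool.Agent.P.MP_3c2f8c_gt.Ex
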