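import Pool.Agent.P.MP_3c2f8c_gt.Ex.An.Polar
import Pool.Agent.P.MP_3c2f8c_gt.Ex.An.Quad

/-! EXA-Grow: growth of the point-pair invariant, compact sets. -/

namespace Pool.Agent.P.MP_3c2f8c_gt.Ex

open Matrix MeasureTheory Topology

namespace GrowAux

theorem one_le_dR (a : I) : 1 ≤ dR a ∧ dR a ≤ 2 := by
  rcases a with a | a <;> simp [dR]

theorem sq_le_TJ (x : I → ℝ) (a : I) : x a ^ 2 ≤ TJ x x := by
  rw [TJ_sum]
  refine le_trans ?_ (Finset.single_le_sum (f := fun a => dR a * (x a * x a))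
    (fun b _ => mul_nonneg (dR_pos b).le (mul_self_nonneg _)) (Finset.mem_univ a))
  rw [sq]
  exact le_mul_of_one_le_left (mul_self_nonneg _) (one_le_dR a).1

theorem continuous_tri {T : Type} [TopologicalSpace T] {x y z : T → I → ℝ} (hx : Continuous x)
    (hy : Continuous y) (hz : Continuous z) : Continuous fun t => tri (nJ ℝ) (x t) (y t) (z t) := by
  unfold tri
  refine continuous_finsetSum _ fun a _ => continuous_finsetSum _ fun b _ =>
    continuous_finsetSum _ fun c _ => continuous_const.mul ?_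
  exact (((continuous_apply a).comp hx).mul ((continuous_apply b).comp hy)).mul
    ((continuous_apply c).comp hz)

theorem tri_e_e (y : I → ℝ) : tri (nJ ℝ) eJ eJ y = 2 * TJ y eJ := by
  rw [tri_e, TJ_e_e, TJ_comm eJ y]
  ring

theorem pM_neg (v : I → ℝ) : pM (-v) = -pM v := by
  rw [← neg_one_smul ℝ v, pM_smul, neg_one_smul]

theorem three_le {v : I → ℝ} (hv : TJ v eJ = 0) : 3 ≤ TJ (NormedSpace.exp (pM v) *ᵥ eJ) eJ := by
  have h := quad_exp_ge PJ_posDef (pM_symm v) eJ
  rw [← TJ_dot, ← TJ_dot, ← TJ_dot, pM_e, hv, zero_div, zero_smul, sub_zero, TJ_e_e,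
    TJ_comm eJ v, hv, add_zero, TJ_comm] at h
  exact h

theorem entry_le {u : E6} (hu : u • oX = oX) (a c : I) : |u.1.1 a c| ≤ 2 := by
  have h := sq_le_TJ (u.1.1 *ᵥ Pi.single c 1) a
  rw [(orth_iff u).2 hu, TJ_sum, Finset.sum_eq_single c (fun b _ hb => by simp [hb]) (by simp)] at h
  simp only [mulVec_single_one, Pi.single_eq_same, mul_one, col_apply] at h
  have h2 := (one_le_dR c).2
  exact abs_le_of_sq_le_sq' (by linarith) (by norm_num) |> abs_le.2

end GrowAux

open GrowAux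

theorem smul_val (g : E6) (x : XS) : (g • x).1 = g.1.1 *ᵥ x.1 := rfl

theorem exists_smul_oX (x : XS) : ∃ g : E6, g • oX = x := by
  obtain ⟨g, hg⟩ := x.2
  exact ⟨g, Subtype.ext hg⟩

theorem continuous_val : Continuous fun g : E6 => g.1.1 :=
  Units.continuous_val.comp continuous_subtype_val

theorem continuous_act : Continuous fun p : E6 × XS => p.1 • p.2 :=
  Continuous.subtype_mk ((continuous_val.comp continuous_fst).matrix_mulVec
    (continuous_subtype_val.comp continuous_snd)) _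

theorem AA_smul' (g : E6) (x y : XS) : AA (g • x) (g • y) = AA x y := by
  simp only [AA, smul_val, tri_E6]

theorem AA_comm' (x y : XS) : AA x y = AA y x := by
  rw [AA, AA, mul_comm, sym3_nJ.tri_rotate x.1 y.1 y.1, ← sym3_nJ.tri_rotate y.1 x.1 x.1]

theorem continuous_AA' : Continuous fun w : XS × XS => AA w.1 w.2 := by
  have h1 : Continuous fun w : XS × XS => w.1.1 := continuous_subtype_val.comp continuous_fst
  have h2 : Continuous fun w : XS × XS => w.2.1 := continuous_subtype_val.comp continuous_snd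
  exact ((continuous_tri h1 h1 h2).mul (continuous_tri h1 h2 h2)).div_const 4

theorem AA_oX (g : E6) : AA oX (g • oX) = TJ (g.1.1 *ᵥ eJ) eJ * TJ ((g⁻¹).1.1 *ᵥ eJ) eJ := by
  have h := tri_E6 g ((g⁻¹).1.1 *ᵥ eJ) eJ eJ
  have e : g.1.1 *ᵥ ((g⁻¹).1.1 *ᵥ eJ) = eJ := congrArg Subtype.val (smul_inv_smul g oX)
  rw [e, sym3_nJ.tri_rotate ((g⁻¹).1.1 *ᵥ eJ), tri_e_e] at h
  change tri (nJ ℝ) eJ eJ (g.1.1 *ᵥ eJ) * tri (nJ ℝ) eJ (g.1.1 *ᵥ eJ) (g.1.1 *ᵥ eJ) / 4 = _
  rw [h, tri_e_e]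
  ring

theorem AA_self (x : XS) : AA x x = 9 := by
  obtain ⟨g, rfl⟩ := exists_smul_oX x
  rw [AA_smul']
  change tri (nJ ℝ) eJ eJ eJ * tri (nJ ℝ) eJ eJ eJ / 4 = _
  rw [tri_e_e, TJ_e_e]
  norm_num

theorem le_AA_eA {v : I → ℝ} (hv : TJ v eJ = 0) : 9 + 3 * TJ v v ≤ AA oX (eA v • oX) := by
  have ha := three_le hv
  have hb := three_le (v := -v) (by rw [TJ_dot, neg_dotProduct, ← TJ_dot, hv, neg_zero])
  have h := quad_cosh_ge PJ_posDef (pM_symm v) eJ
  rw [← TJ_dot, ← TJ_dot, ← TJ_dot, ← TJ_dot, pM_e, hv, zero_div, zero_smul, sub_zero, TJ_e_e,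
    TJ_comm eJ, TJ_comm eJ, ← pM_neg] at h
  rw [AA_oX, ← eA_neg, eA_val, eA_val]
  nlinarith [mul_nonneg (sub_nonneg.2 ha) (sub_nonneg.2 hb)]

theorem isCompact_bd (C : ℝ) :
    IsCompact {g : E6 | ∀ a c, |g.1.1 a c| ≤ C ∧ |(g⁻¹).1.1 a c| ≤ C} := by
  have h := Units.isClosedEmbedding_embedProduct.comp isClosed_E6.isClosedEmbedding_subtypeVal
  have hK : IsCompact {A : Matrix I I ℝ | ∀ a c, |A a c| ≤ C} := by
    refine Eq.subst ?_ (isCompact_univ_pi fun _ : I =>
      isCompact_univ_pi fun _ : I => isCompact_Icc (a := -C) (b := C))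
    ext A
    simp only [abs_le]
    exact ⟨fun H i j => H i trivial j trivial, fun H i _ j _ => H i j⟩
  refine Eq.subst ?_ (h.isCompact_preimage (hK.prod (hK.image MulOpposite.continuous_op)))
  ext g
  constructor
  · rintro ⟨h1, B, hB, e⟩ a c
    have e' : B = (g⁻¹).1.1 := MulOpposite.op_injective e
    exact ⟨h1 a c, e' ▸ hB a c⟩
  · exact fun H => ⟨fun a c => (H a c).1, (g⁻¹).1.1, fun a c => (H a c).2, rfl⟩

theorem isCompact_stab : IsCompact {u : E6 | u • oX = oX} :=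
  (isCompact_bd 2).of_isClosed_subset
    (isClosed_eq (continuous_act.comp (continuous_id.prodMk continuous_const)) continuous_const)
    fun _ hu a c => ⟨entry_le hu a c, entry_le (inv_smul_eq_iff.2 (Eq.symm hu)) a c⟩

theorem isCompact_AA (R : ℝ) : IsCompact {g : E6 | AA oX (g • oX) ≤ R} := by
  have c1 : Continuous fun g : E6 => g • oX :=
    continuous_act.comp (f := fun g : E6 => (g, oX)) (continuous_id.prodMk continuous_const)
  have c2 : Continuous fun g : E6 => AA oX (g • oX) :=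
    continuous_AA'.comp (f := fun g : E6 => (oX, g • oX)) (continuous_const.prodMk c1)
  have c3 : Continuous fun p : (I → ℝ) × E6 => eA p.1 * p.2 :=
    (continuous_eA.comp continuous_fst).mul continuous_snd
  refine (((isCompact_closedBall (0 : I → ℝ) (1 + |R|)).prod isCompact_stab).image
    c3).of_isClosed_subset (isClosed_le c2 continuous_const) fun g hg => ?_
  obtain ⟨v, u, hv, hu, rfl⟩ := exists_polar g
  refine ⟨(v, u), ⟨?_, hu⟩, rfl⟩
  have h1 : AA oX ((eA v * u) • oX) ≤ R := hg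
  rw [mul_smul, hu] at h1
  have h2 := (le_AA_eA hv).trans h1
  rw [mem_closedBall_zero_iff, pi_norm_le_iff_of_nonneg (by positivity)]
  intro a
  have h3 := sq_le_TJ v a
  have h4 := le_abs_self R
  rw [Real.norm_eq_abs]
  nlinarith [sq_nonneg (|v a| - 1), sq_abs (v a), sq_nonneg (v a)]

end Pool.Agent.P.MP_3c2f8c_gt.Ex
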