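import Pool.Agent.P.MP_3c2f8c_gt.Ex.An.Grow

/-! EXA-Haar: the group is unimodular. -/

namespace Pool.Agent.P.MP_3c2f8c_gt.Ex

open Matrix MeasureTheory Topology

namespace HaarAux

open scoped NNReal ENNReal

theorem eq_of_smul (ν : Measure E6) [ν.IsHaarMeasure] {a b : ℝ≥0}
    (h : (a • ν) {g : E6 | AA oX (g • oX) ≤ 10} = (b • ν) {g : E6 | AA oX (g • oX) ≤ 10}) :
    a = b := by
  have h0 : Continuous fun g : E6 => g • oX :=
    continuous_act.comp (f := fun g : E6 => (g, oX)) (continuous_id.prodMk continuous_const)
  have hc : Continuous fun g : E6 => AA oX (g • oX) :=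
    continuous_AA'.comp (f := fun g : E6 => (oX, g • oX)) (continuous_const.prodMk h0)
  have hfin : ν {g : E6 | AA oX (g • oX) ≤ 10} ≠ ⊤ := (isCompact_AA 10).measure_lt_top.ne
  have hpos : ν {g : E6 | AA oX (g • oX) ≤ 10} ≠ 0 := by
    have ho : IsOpen {g : E6 | AA oX (g • oX) < 10} := isOpen_lt hc continuous_const
    have hne : ({g : E6 | AA oX (g • oX) < 10}).Nonempty :=
      ⟨1, by
        change AA oX ((1 : E6) • oX) < 10
        rw [one_smul, AA_self]
        norm_num⟩
    refine (lt_of_lt_of_le (ho.measure_pos ν hne) (measure_mono fun g hg => ?_)).ne'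
    have hg' : AA oX (g • oX) < 10 := hg
    exact hg'.le
  rw [Measure.smul_apply, Measure.smul_apply, ENNReal.smul_def, ENNReal.smul_def, smul_eq_mul,
    smul_eq_mul] at h
  exact_mod_cast (ENNReal.mul_left_inj hpos hfin).1 h

theorem mod_K {u : E6} (hu : u • oX = oX) : Measure.modularCharacterFun u = 1 := by
  refine eq_of_smul mu ?_
  rw [← Measure.map_right_mul_eq_modularCharacterFun_smul mu u, one_smul,
    Measure.map_apply (measurable_mul_const u) (isCompact_AA 10).measurableSet]
  congr 1
  ext g
  simp only [Set.mem_preimage, Set.mem_ofPred_eq, mul_smul, hu]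

/-- The Cartan involution as an automorphism. -/
noncomputable def thE : E6 ≃* E6 where
  toFun := th
  invFun := th
  left_inv := th_th
  right_inv := th_th
  map_mul' := th_mul

theorem mod_th (g : E6) :
    Measure.modularCharacterFun (th g) = Measure.modularCharacterFun g := by
  have : (Measure.map th mu).IsHaarMeasure :=
    thE.isHaarMeasure_map mu continuous_th continuous_th
  have hm : Measurable th := continuous_th.measurable
  refine eq_of_smul (Measure.map th mu) ?_
  rw [← Measure.map_right_mul_eq_modularCharacterFun_smul (Measure.map th mu) g,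
    ← Measure.map_smul, ← Measure.map_right_mul_eq_modularCharacterFun_smul mu (th g),
    Measure.map_map hm (measurable_mul_const _), Measure.map_map (measurable_mul_const _) hm]
  congr 2
  funext x
  simp only [Function.comp_apply, th_mul, th_th]

theorem mod_exp (v : I → ℝ) : Measure.modularCharacterFun (eA v) = 1 := by
  have h3 := Measure.modularCharacterFun_map_mul (th (eA v)) (eA v)
  rw [mod_th, th_eA, eA_neg, inv_mul_cancel, Measure.modularCharacterFun_map_one, ← sq] at h3
  exact (pow_eq_one_iff_of_nonneg zero_le two_ne_zero).1 h3.symm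

end HaarAux

theorem mu_right : mu.IsMulRightInvariant := by
  refine ⟨fun g => ?_⟩
  obtain ⟨v, u, -, hu, rfl⟩ := exists_polar g
  rw [Measure.map_right_mul_eq_modularCharacterFun_smul mu, Measure.modularCharacterFun_map_mul,
    HaarAux.mod_exp, HaarAux.mod_K hu, one_mul, one_smul]

end Pool.Agent.P.MP_3c2f8c_gt.Ex
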