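import Pool.Agent.P.MP_3c2f8c_gt.Ex.An.DInt
import Pool.Agent.P.MP_3c2f8c_gt.Ex.An.Brid
import Pool.Agent.P.MP_3c2f8c_gt.Ex.An.Haar

/-! EXA-Parts: integration by parts on the group. -/

namespace Pool.Agent.P.MP_3c2f8c_gt.Ex

open Matrix MeasureTheory Topology
open Pool.Agent.P.MP_3c2f8c_gt.E6 (PK KInv Act perK kcomp CI IsK SpecData)


theorem integral_LD {F : E6 → ℝ} (hF : GS F)
    (hs : HasCompactSupport F) (X : I → ℝ) : ∫ g, LD X F g ∂mu = 0 := by
  have := mu_right
  have h := hasDerivAt_integral_eA hF hs (Homeomorph.refl _) (f := fun _ => 1)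
    continuous_const X
  simp only [Homeomorph.refl_apply, id, mul_one, integral_mul_right_eq_self] at h
  exact h.unique (hasDerivAt_const _ _)

namespace PartsAux

theorem integrable {A h : E6 → ℝ} (hA : Continuous A) (hs : HasCompactSupport A)
    (hh : Continuous h) : Integrable (fun y => A y * h y) mu :=
  (hA.mul hh).integrable_of_hasCompactSupport hs.mul_right

theorem parts {A h : E6 → ℝ} (hA : GS A)
    (hs : HasCompactSupport A) (hh : GS h) (X : I → ℝ) :
    ∫ y, LD X A y * h y ∂mu = -∫ y, A y * LD X h y ∂mu := by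
  have h1 := integral_LD (hA.mul hh) hs.mul_right X
  simp only [LD_mul hA hh] at h1
  rw [integral_add (integrable (hA.ld X).continuous (hasCompactSupport_LD hs X) hh.continuous)
    (integrable hA.continuous hs (hh.ld X).continuous)] at h1
  exact eq_neg_of_add_eq_zero_left h1

theorem integral_sum (c : I → ℝ) {G : I → E6 → ℝ} (hG : ∀ i, Integrable (G i) mu) :
    ∫ y, ∑ i, c i * G i y ∂mu = ∑ i, c i * ∫ y, G i y ∂mu := by
  rw [integral_finsetSum _ fun i _ => (hG i).const_mul _]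
  exact Finset.sum_congr rfl fun j _ => integral_const_mul _ _

theorem green {A h : E6 → ℝ} (hA : GS A)
    (hs : HasCompactSupport A) (hh : GS h) :
    ∫ y, lapG A y * h y ∂mu = ∫ y, A y * lapG h y ∂mu := by
  simp only [lapG, Finset.sum_mul, Finset.mul_sum, mul_assoc, mul_left_comm (A _)]
  rw [integral_sum _ fun i => integrable ((hA.ld _).ld _).continuous
      (hasCompactSupport_LD (hasCompactSupport_LD hs _) _) hh.continuous,
    integral_sum _ fun i => integrable hA.continuous hs ((hh.ld _).ld _).continuous]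
  refine Finset.sum_congr rfl fun i _ => ?_
  rw [parts (hA.ld _) (hasCompactSupport_LD hs _) hh, parts hA hs (hh.ld _), neg_neg]

end PartsAux

theorem cv_lap {Θ f : E6 → ℝ} (hΘ : GS Θ)
    (hs : HasCompactSupport Θ) (hf : GS f) : cv (lapG Θ) f = cv Θ (lapG f) := by
  funext x
  rw [cv_eq, cv_eq, PartsAux.green hΘ hs (hf.left x)]
  simp only [lapG_left]

theorem lap_cv {Θ f : E6 → ℝ} (hl : Lift Θ)
    (hs : HasCompactSupport Θ) (hsym : ∀ g, Θ g⁻¹ = Θ g) (hf : Continuous f)
    (hr : GS (cv Θ f)) : lapG (cv Θ f) = cv (lapG Θ) f := by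
  have hΘ := hl.gs
  have e : ∀ A : E6 → ℝ, (∀ g, A g⁻¹ = A g) →
      cv A f = fun x => ∫ y, A (y⁻¹ * x) * f y ∂mu := fun A hA => by
    funext x
    refine integral_congr_ae (Filter.Eventually.of_forall fun y => ?_)
    change A (x⁻¹ * y) * f y = A (y⁻¹ * x) * f y
    rw [← hA, _root_.mul_inv_rev, inv_inv]
  rw [e _ hsym] at hr
  rw [e _ hsym, e _ (lapG_inv hl hsym)]
  funext x
  have e1 : ∀ X, LD X (fun x => ∫ y, Θ (y⁻¹ * x) * f y ∂mu) =
      fun x => ∫ y, LD X Θ (y⁻¹ * x) * f y ∂mu := fun X =>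
    funext fun x => LD_integral hΘ hs hf hr X x
  have e2 : ∀ X Y, LD Y (fun x => ∫ y, LD X Θ (y⁻¹ * x) * f y ∂mu) x =
      ∫ y, LD Y (LD X Θ) (y⁻¹ * x) * f y ∂mu := fun X Y =>
    LD_integral (hΘ.ld X) (hasCompactSupport_LD hs X) hf (e1 X ▸ hr.ld X) Y x
  simp only [lapG, e1, e2, Finset.sum_mul, mul_assoc]
  refine (PartsAux.integral_sum _ fun i => PartsAux.integrable
    (((hΘ.ld _).ld _).continuous.comp (continuous_inv.mul continuous_const)) ?_ hf).symm
  exact (hasCompactSupport_LD (hasCompactSupport_LD hs _) _).comp_homeomorph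
    ((Homeomorph.inv _).trans (Homeomorph.mulRight x))

end Pool.Agent.P.MP_3c2f8c_gt.Ex
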