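import Pool.Agent.P.MP_3c2f8c_gt.Ex.An.Poin2
import Pool.Agent.P.MP_3c2f8c_gt.Ex.An.Parts
import Pool.Agent.P.MP_3c2f8c_gt.E6.An.Model

/-! EXA-Ident: the spectral data of the total eigenspace. -/

namespace Pool.Agent.P.MP_3c2f8c_gt.Ex

open Matrix MeasureTheory Topology
open Pool.Agent.P.MP_3c2f8c_gt.E6 (PK KInv Act perK kcomp CI IsK SpecData)

variable {Z : Type}
  [TopologicalSpace Z] [DiscreteTopology Z] [MeasurableSpace Z] [DiscreteMeasurableSpace Z]
  [Countable Z] {G : Type} [Group G] [Countable G] [MulAction G E6] [MulAction G Z]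
  {ρ : G →* E6} {D : Set (E6 × Z)} {κ : Z → Z → ℕ}
  {ev δ : ℝ} {φ : E6 → ℝ} {L S U : Module.End ℝ (CI (E6 × Z) G)}

theorem NiceA.specData (N : NiceA G Z ρ) (A : Act G (nm Z) D)
    (hκ : HK κ) (hinv : ∀ (g : G) z z', κ (g • z) (g • z') = κ z z') (hφ : Ker δ φ)
    (hδ : δ * |ev| ≤ 1 / 2) (hk : IsK (nm Z) (pk φ κ 0) L)
    (hS : IsK (nm Z) (pk (lapG φ) κ 0) S) (hU : IsU κ U) :
    SpecData L S U (EigY Z G ev) ev := by
  have g1 : GS φ := hφ.lift.gs
  have c1 : Continuous φ := g1.continuous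
  have c2 : Continuous (lapG φ) := g1.laplace.continuous
  have s2 : HasCompactSupport (lapG φ) := hasCompactSupport_lapG hφ.supp
  have p1 : PK (pk φ κ 0) := pk_PK c1 hφ.supp hκ.fin 0
  have p2 : PK (pk (lapG φ) κ 0) := pk_PK c2 s2 hκ.fin 0
  have i1 : KInv G (pk φ κ 0) := (pk_ksym φ κ 0).kinv N hinv
  have i2 : KInv G (pk (lapG φ) κ 0) := (pk_ksym (lapG φ) κ 0).kinv N hinv
  have cs : ∀ (f : CI (E6 × Z) G) (z : Z), Continuous fun x => f.1 (x, z) := fun f z =>
    continuous_iff_slice.1 f.2.1 z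
  have eL := isK_slice c1 hφ.supp hκ.fin hk
  have eS := isK_slice c2 s2 hκ.fin hS
  have eLS : ∀ (f : CI (E6 × Z) G) (z : Z),
      lapG (fun x => (L f).1 (x, z)) = fun x => (S f).1 (x, z) := fun f z => by
    rw [eL, eS, lap_cv hφ.lift hφ.supp hφ.symm (cs f z) (hφ.reg _ (cs f z)).gs]
  have sL : ∀ (f : CI (E6 × Z) G) (z : Z), Lift fun x => (L f).1 (x, z) := fun f z => by
    rw [eL]
    exact hφ.reg _ (cs f z)
  have co := fun f (hf : f ∈ EigY Z G ev) => N.coercive A hφ hδ hκ.fin hk hf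
  obtain ⟨b, hb, hp⟩ := A.exists_ip
  refine ⟨⟨b, fun x y => ?_, hp, fun x y => ?_, fun x y => ?_⟩,
    fun t ht => A.finite_eigenspace p1 i1 hk ht, ?_, hU.commute c1 hφ.supp hκ.fin hk,
    hU.injective hκ, A.finite_of_coercive p1 i1 hk _ co, fun f hf z => ?_, fun f hf h0 => ?_,
    fun t ht f hf => ?_⟩
  · rw [hb, hb]
    simp only [mul_comm]
  · rw [hb, hb]
    exact A.isK_symm p1 i1 (pk_symm hφ.symm κ) hk x y
  · rw [hb, hb]
    exact A.isK_symm p2 i2 (pk_symm (lapG_inv hφ.lift hφ.symm) κ) hS x y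
  · refine LinearMap.ext fun f => Subtype.ext (funext fun w => ?_)
    have h1 := congrFun (eL (S f) w.2) w.1
    have h2 := congrFun (eS (L f) w.2) w.1
    rw [← eLS, ← cv_lap g1 hφ.supp (sL f w.2).gs] at h1
    exact h1.trans h2.symm
  · obtain ⟨h1, -, h4⟩ := mem_eigG_iff.1 (hf z)
    refine mem_eigG_iff.2 ⟨sL f z, fun γ hγ g => by rw [Subgroup.mem_bot.1 hγ, one_mul],
      fun g => ?_⟩
    have h5 := congrFun (eL f z) g
    rw [eLS, eS, cv_lap g1 hφ.supp h1.gs, funext h4, cv_scal, ← h5]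
  · refine A.eq_zero_of_sq f ?_
    have h1 := co f hf
    rw [h0] at h1
    simp only [Submodule.coe_zero, Pi.zero_apply, zero_mul, integral_zero] at h1
    linarith
  · have h1 : L f = t • f := Module.End.mem_eigenspace_iff.1 hf
    have h2 : ∀ z, (fun x => f.1 (x, z)) = fun x => t⁻¹ * (L f).1 (x, z) := fun z => by
      funext x
      rw [h1, Submodule.coe_smul, Pi.smul_apply, smul_eq_mul, inv_mul_cancel_left₀ ht]
    have h3 : ∀ z g, lapG (fun x => f.1 (x, z)) g = t⁻¹ * (S f).1 (g, z) := fun z g => by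
      rw [h2, lapG_scal (sL f z).gs, eLS]
    constructor
    · intro hW
      refine Subtype.ext (funext fun w => ?_)
      have h4 := (mem_eigG_iff.1 (hW w.2)).2.2 w.1
      rw [h3, inv_mul_eq_iff_eq_mul₀ ht] at h4
      rw [Submodule.coe_smul, Pi.smul_apply, smul_eq_mul]
      exact h4.trans (by ring)
    · intro hW z
      refine mem_eigG_iff.2 ⟨?_, fun γ hγ g => by rw [Subgroup.mem_bot.1 hγ, one_mul],
        fun g => ?_⟩
      · rw [h2]
        exact (sL f z).scal _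
      · rw [h3, hW, Submodule.coe_smul, Pi.smul_apply, smul_eq_mul]
        field_simp

end Pool.Agent.P.MP_3c2f8c_gt.Ex
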