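import Pool.Agent.P.MP_3c2f8c_gt.Ex.An.Defs
import Pool.Agent.P.MP_3c2f8c_gt.Ex.Al.J1

/-! EXA-Jor1: the trace form and the stabiliser of the base point. -/

namespace Pool.Agent.P.MP_3c2f8c_gt.Ex

open Matrix MeasureTheory Topology

theorem dR_pos (a : I) : 0 < dR a := by cases a <;> simp [dR]

theorem PJ_eq : PJ = (DJ ℝ).1 := by
  change diagonal dR = diagonal fun a => algebraMap ℚ ℝ (dJ a)
  congr 1
  funext a
  cases a <;> simp [dR, dJ]

theorem PJ_transpose : PJᵀ = PJ := diagonal_transpose _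

theorem PJ_posDef : PJ.PosDef := PosDef.diagonal dR_pos

theorem TJ_dot (x y : I → ℝ) : TJ x y = x ⬝ᵥ PJ *ᵥ y := by
  rw [PJ_eq, dotProduct_comm, ← TJ_eq]
  simp only [TJ, mul_comm]

theorem TJ_sum (x y : I → ℝ) : TJ x y = ∑ a, dR a * (x a * y a) := by
  rw [TJ_dot]
  exact Finset.sum_congr rfl fun a _ => by rw [PJ, mulVec_diagonal, mul_left_comm]

theorem TJ_comm (x y : I → ℝ) : TJ x y = TJ y x := by simp only [TJ, mul_comm]

theorem TJ_self_nonneg (x : I → ℝ) : 0 ≤ TJ x x := by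
  rw [TJ_sum]
  exact Finset.sum_nonneg fun a _ => mul_nonneg (dR_pos a).le (mul_self_nonneg _)

theorem eq_zero_of_TJ {x : I → ℝ} (h : TJ x x ≤ 0) : x = 0 := by
  have h1 := le_antisymm h (TJ_self_nonneg x)
  rw [TJ_sum] at h1
  funext a
  have h2 := (Finset.sum_eq_zero_iff_of_nonneg fun a _ =>
    mul_nonneg (dR_pos a).le (mul_self_nonneg (x a))).1 h1 a (Finset.mem_univ a)
  exact mul_self_eq_zero.1 ((mul_eq_zero.1 h2).resolve_left (dR_pos a).ne')

theorem TJ_e_e : TJ (eJ : I → ℝ) eJ = 3 := by simp [TJ, eJ]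

theorem NJ_e : NJ (eJ : I → ℝ) = 1 := by simp [NJ_eq, eJ, ov, ot, om]

theorem tri_e (x y : I → ℝ) : tri (nJ ℝ) eJ x y = TJ x eJ * TJ y eJ - TJ x y := by
  have e : ∀ w : I → ℝ, TJ w eJ = ∑ i : Fin 3, w (.inl i) := fun w => by simp [TJ, eJ]
  rw [sym3_nJ.tri_rotate, tri_eq_dot, e, e, ← sum_crs_inl]
  simp [dotProduct, eJ]

theorem tri_E6 (g : E6) (x y z : I → ℝ) :
    tri (nJ ℝ) (g.1.1 *ᵥ x) (g.1.1 *ᵥ y) (g.1.1 *ᵥ z) = tri (nJ ℝ) x y z := by
  rw [mem_E6_iff.1 g.2, one_mul]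

theorem Jor1Aux.n_inl : ∀ (e : I) (i : Fin 3), nJ0 e (.inl i) (.inl i) = 0 := by
  decide +kernel

theorem Jor1Aux.n_inr : ∀ (e : I) (i : Fin 3),
    nJ0 e (.inr (i, 0)) (.inr (i, 0)) = if e = .inl i then -2 else 0 := by
  decide +kernel

theorem orth_iff (u : E6) : (∀ x y, TJ (u.1.1 *ᵥ x) (u.1.1 *ᵥ y) = TJ x y) ↔ u • oX = oX := by
  constructor
  · intro h
    obtain ⟨x, hx⟩ : ∃ x, x = u.1.1 *ᵥ eJ := ⟨_, rfl⟩
    have e' : ∀ y, ∃ y', u.1.1 *ᵥ y' = y := fun y => ⟨(u.1⁻¹).1 *ᵥ y, by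
      rw [mulVec_mulVec, ← Units.val_mul, mul_inv_cancel, Units.val_one, one_mulVec]⟩
    have h1 : ∀ y, tri (nJ ℝ) x y y = TJ y x * TJ y x - TJ y y := fun y => by
      obtain ⟨y, rfl⟩ := e' y
      rw [hx, tri_E6, h, h, tri_e]
    have h2 : ∀ a, ∑ e, (nJ0 e a a : ℝ) * x e = dR a * x a * (dR a * x a) - dR a := fun a => by
      have h3 := h1 (Pi.single a 1)
      rw [TJ_sum, TJ_sum] at h3
      simpa only [tri, nJ, Pi.single_apply, mul_ite, ite_mul, mul_one, one_mul, mul_zero, zero_mul,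
        Finset.sum_ite_eq', Finset.mem_univ, if_true] using h3
    have h3 : TJ x x = 3 := by rw [hx, h, TJ_e_e]
    have h4 : ∀ i, x (.inl i) * x (.inl i) = 1 := fun i => by
      have h5 := h2 (.inl i)
      simp only [Jor1Aux.n_inl, Int.cast_zero, zero_mul, Finset.sum_const_zero, dR, Sum.elim_inl,
        Pi.one_apply, one_mul] at h5
      linarith
    have h5 : ∀ j, x (.inr j) = 0 := fun j => by
      simp only [TJ, h4, Finset.sum_const, Finset.card_univ, Fintype.card_fin, nsmul_eq_mul,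
        Nat.cast_ofNat, mul_one] at h3
      exact mul_self_eq_zero.1 ((Finset.sum_eq_zero_iff_of_nonneg fun j _ =>
        mul_self_nonneg (x (.inr j))).1 (by linarith) j (Finset.mem_univ j))
    have h6 : ∀ i, x (.inl i) = 1 := fun i => by
      have h7 := h2 (.inr (i, 0))
      simp only [Jor1Aux.n_inr, Int.cast_ite, Int.cast_zero, ite_mul, zero_mul, Finset.sum_ite_eq',
        Finset.mem_univ, if_true, h5, mul_zero, dR, Sum.elim_inr, Pi.ofNat_apply] at h7
      push_cast at h7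
      linarith
    refine Subtype.ext (hx.symm.trans (funext fun a => ?_))
    cases a with
    | inl i => exact h6 i
    | inr j => exact h5 j
  · intro h x y
    have h1 : u.1.1 *ᵥ eJ = eJ := congrArg Subtype.val h
    have h2 : ∀ x, TJ (u.1.1 *ᵥ x) eJ = TJ x eJ := fun x => by
      have h3 := tri_E6 u eJ x eJ
      rw [h1, tri_e, tri_e, TJ_e_e] at h3
      linarith
    have h3 := tri_E6 u eJ x y
    rw [h1, tri_e, tri_e, h2, h2] at h3
    linarith

theorem th_val (g : E6) : (th g).1 = cartan g.1 := by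
  refine E6.pick_spec (P := fun h : E6 => h.1 = cartan g.1) ⟨⟨cartan g.1, mem_E6_iff.2 ?_⟩, rfl⟩
  exact Sim.cartan (ν := 1) (mem_E6_iff.1 g.2)

theorem th_mul (g h : E6) : th (g * h) = th g * th h :=   Subtype.ext (by rw [Subgroup.coe_mul, th_val, th_val, th_val, Subgroup.coe_mul, cartan_mul])

theorem th_th (g : E6) : th (th g) = g := Subtype.ext (by rw [th_val, th_val, cartan_cartan])

theorem th_inv (g : E6) : th g⁻¹ = (th g)⁻¹ :=   Subtype.ext (by rw [Subgroup.coe_inv, th_val, th_val, Subgroup.coe_inv, cartan_inv])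

theorem TJ_th (g : E6) (x y : I → ℝ) : TJ (g.1.1 *ᵥ x) ((th g).1.1 *ᵥ y) = TJ x y := by
  rw [th_val, TJ_cartan]

theorem continuous_th : Continuous th := by
  have h : Continuous (dag : GL I ℝ → GL I ℝ) := Units.continuous_iff.2
    ⟨Units.continuous_coe_inv.matrix_transpose, Units.continuous_val.matrix_transpose⟩
  refine continuous_induced_rng.2 ?_
  rw [show Subtype.val ∘ th = fun g : E6 => cartan g.1 from funext th_val]
  exact (continuous_const.mul (h.comp continuous_subtype_val)).mul continuous_const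

theorem th_eq_self_iff (u : E6) : th u = u ↔ u • oX = oX := by
  rw [← orth_iff]
  constructor
  · intro h x y
    have h1 := TJ_th u x y
    rwa [h] at h1
  · intro h
    exact Subtype.ext ((th_val u).trans (eq_cartan h).symm)

end Pool.Agent.P.MP_3c2f8c_gt.Ex
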