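import Pool.Agent.P.MP_3c2f8c_gt.Ex.An.Jor1
import Pool.Agent.P.MP_3c2f8c_gt.Ex.Al.B2

/-! EXA-Jor2: the Jordan multiplication. -/

namespace Pool.Agent.P.MP_3c2f8c_gt.Ex

open Matrix MeasureTheory Topology

namespace Jor2Aux

theorem TJ_dot' (x y : I → ℝ) : TJ x y = (PJ *ᵥ x) ⬝ᵥ y := by
  rw [TJ_comm, TJ_dot, dotProduct_comm]

theorem TJ_add₁ (x x' y : I → ℝ) : TJ (x + x') y = TJ x y + TJ x' y := by
  simp only [TJ_dot, add_dotProduct]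

theorem TJ_sub₁ (x x' y : I → ℝ) : TJ (x - x') y = TJ x y - TJ x' y := by
  simp only [TJ_dot, sub_dotProduct]

theorem TJ_smul₁ (t : ℝ) (x y : I → ℝ) : TJ (t • x) y = t * TJ x y := by
  simp only [TJ_dot, smul_dotProduct, smul_eq_mul]

theorem TJ_smul₂ (t : ℝ) (x y : I → ℝ) : TJ x (t • y) = t * TJ x y := by
  rw [TJ_comm, TJ_smul₁, TJ_comm]

theorem TJ_zero₁ (y : I → ℝ) : TJ (0 : I → ℝ) y = 0 := by
  simp only [TJ_dot, zero_dotProduct]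

theorem TJ_sum₁ (f : I → I → ℝ) (y : I → ℝ) : TJ (∑ a, f a) y = ∑ a, TJ (f a) y := by
  simp only [TJ_dot, sum_dotProduct]

theorem ext_TJ {x y : I → ℝ} (h : ∀ z, TJ x z = TJ y z) : x = y := by
  have h1 : TJ (x - y) (x - y) ≤ 0 := by rw [TJ_sub₁, h, sub_self]
  exact sub_eq_zero.1 (eq_zero_of_TJ h1)

theorem ext_dot {x y : I → ℝ} (h : ∀ z, x ⬝ᵥ z = y ⬝ᵥ z) : x = y := by
  funext a
  simpa using h (Pi.single a 1)

theorem crs_e (y : I → ℝ) : crs (nJ ℝ) eJ y = PJ *ᵥ (TJ y eJ • eJ - y) := by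
  refine ext_dot fun z => ?_
  rw [← tri_eq_dot, tri_e, ← TJ_dot', TJ_sub₁, TJ_smul₁, TJ_comm eJ z]

theorem crs_m_e (y : I → ℝ) : crs (mJ ℝ) (PJ *ᵥ eJ) (PJ *ᵥ y) = TJ y eJ • eJ - y := by
  rw [PJ_eq, crs_mJ, crs_e, PJ_eq, mulVec_mulVec, ← Units.val_mul, inv_mul_cancel, Units.val_one,
    one_mulVec]

theorem TJ_single (x : I → ℝ) (a : I) : TJ x (Pi.single a 1) = dR a * x a := by
  rw [TJ_dot', dotProduct_single, mul_one, PJ, mulVec_diagonal]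

theorem symm_iff {X : Matrix I I ℝ} :
    PJ * X = Xᵀ * PJ ↔ ∀ x y, TJ (X *ᵥ x) y = TJ x (X *ᵥ y) := by
  have e : ∀ x y, TJ (X *ᵥ x) y = x ⬝ᵥ (Xᵀ * PJ) *ᵥ y := fun x y => by
    rw [TJ_dot, ← mulVec_mulVec, dotProduct_mulVec x, vecMul_transpose]
  have e' : ∀ x y, TJ x (X *ᵥ y) = x ⬝ᵥ (PJ * X) *ᵥ y := fun x y => by
    rw [TJ_dot, mulVec_mulVec]
  constructor
  · intro h x y
    rw [e, e', h]
  · intro h
    ext a b
    have h1 := h (Pi.single a 1) (Pi.single b 1)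
    rw [e, e'] at h1
    simpa using h1.symm

end Jor2Aux

open Jor2Aux

theorem LJ_add (v w : I → ℝ) : LJ (v + w) = LJ v + LJ w := by
  rw [LJ, LJ, LJ, DD_add_left, smul_add]

theorem LJ_smul (t : ℝ) (v : I → ℝ) : LJ (t • v) = t • LJ v := by
  rw [LJ, LJ, DD_smul_left, smul_comm]

theorem pM_add (v w : I → ℝ) : pM (v + w) = pM v + pM w := by
  rw [pM, pM, pM, LJ_add, TJ_add₁, add_div, add_smul]
  abel

theorem pM_smul (t : ℝ) (v : I → ℝ) : pM (t • v) = t • pM v := by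
  rw [pM, pM, LJ_smul, TJ_smul₁, smul_sub, smul_smul, mul_div_assoc]

theorem exists_pML : ∃ L : (I → ℝ) →ₗ[ℝ] Matrix I I ℝ, ∀ v, L v = pM v :=
  ⟨{ toFun := pM, map_add' := pM_add, map_smul' := pM_smul }, fun _ => rfl⟩

theorem TJ_LJ (v x y : I → ℝ) : 2 * TJ (LJ v *ᵥ x) y = tri (nJ ℝ) v x y + TJ v eJ * TJ x y +
    TJ x eJ * TJ v y + TJ y eJ * TJ v x - TJ v eJ * TJ x eJ * TJ y eJ := by
  have hm := (isAlb_nJ ℝ).sym'
  have hn := (isAlb_nJ ℝ).sym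
  have h1 : TJ (crs (mJ ℝ) (PJ *ᵥ eJ) (crs (nJ ℝ) v x)) y =
      TJ y eJ * (TJ v eJ * TJ x eJ - TJ v x) - tri (nJ ℝ) v x y := by
    rw [TJ_dot, ← tri_eq_dot, hm.tri_swap₂₃, tri_eq_dot, crs_m_e, dotProduct_comm, ← tri_eq_dot,
      ← tri_e, hn.tri_rotate eJ v x, tri_eq_dot, tri_eq_dot, tri_eq_dot, dotProduct_sub,
      dotProduct_smul, smul_eq_mul]
  rw [LJ, smul_mulVec, DD_mulVec, TJ_smul₁, TJ_sub₁, TJ_add₁, TJ_smul₁, TJ_smul₁, h1, ← TJ_dot',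
    ← TJ_dot', TJ_comm eJ v, TJ_comm eJ x]
  ring

theorem LJ_e (v : I → ℝ) : LJ v *ᵥ eJ = v := by
  refine ext_TJ fun z => ?_
  have h := TJ_LJ v eJ z
  rw [(isAlb_nJ ℝ).sym.tri_swap₁₂, tri_e, TJ_e_e, TJ_comm eJ z] at h
  linear_combination h / 2

theorem pM_e (v : I → ℝ) : pM v *ᵥ eJ = v - (TJ v eJ / 3) • eJ := by
  rw [pM, sub_mulVec, LJ_e, smul_mulVec, one_mulVec]

theorem Jor2Aux.LJ_der (v : I → ℝ) : Der (nJ ℝ) (LJ v) (TJ v eJ) := by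
  have h := ((isAlb_nJ ℝ).der_DD v (PJ *ᵥ eJ)).smul (1 / 2)
  rw [← TJ_dot', TJ_comm eJ v] at h
  have e : (1 / 2 : ℝ) * (2 * TJ v eJ) = TJ v eJ := by ring
  rw [e] at h
  exact h

theorem pM_der (v : I → ℝ) : Der (nJ ℝ) (pM v) 0 := by
  have h := (LJ_der v).add ((der_one (nJ ℝ)).smul (-(TJ v eJ / 3)))
  have e : TJ v eJ + -(TJ v eJ / 3) * 3 = 0 := by ring
  rw [e, neg_smul, ← sub_eq_add_neg] at h
  exact h

theorem Jor2Aux.TJ_LJ_swap (v x y : I → ℝ) : TJ (LJ v *ᵥ x) y = TJ (LJ v *ᵥ y) x := by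
  have h1 := TJ_LJ v x y
  have h2 := TJ_LJ v y x
  rw [(isAlb_nJ ℝ).sym.tri_swap₂₃, TJ_comm y x] at h2
  linear_combination (h1 - h2) / 2

theorem Jor2Aux.TJ_LJ_swap' (v x y : I → ℝ) : TJ (LJ v *ᵥ x) y = TJ (LJ y *ᵥ x) v := by
  have h1 := TJ_LJ v x y
  have h2 := TJ_LJ y x v
  rw [(isAlb_nJ ℝ).sym.tri_rotate, (isAlb_nJ ℝ).sym.tri_swap₁₂, TJ_comm y x, TJ_comm y v,
    TJ_comm x v] at h2
  linear_combination (h1 - h2) / 2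

theorem pM_symm (v : I → ℝ) : PJ * pM v = (pM v)ᵀ * PJ := by
  refine symm_iff.2 fun x y => ?_
  rw [TJ_comm x (pM v *ᵥ y), pM, sub_mulVec, sub_mulVec, TJ_sub₁, TJ_sub₁, TJ_LJ_swap v x y,
    smul_mulVec, smul_mulVec, one_mulVec, one_mulVec, TJ_smul₁, TJ_smul₁, TJ_comm x y]

theorem trace_pM (v : I → ℝ) : (pM v).trace = 0 := by
  rw [Der.trace (isAlb_nJ ℝ) (pM_der v), mul_zero]

theorem exists_pM {X : Matrix I I ℝ} (hX : Der (nJ ℝ) X 0) (hs : PJ * X = Xᵀ * PJ) :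
    ∃ v, TJ v eJ = 0 ∧ X = pM v := by
  have hn := (isAlb_nJ ℝ).sym
  have h0 : TJ (X *ᵥ eJ) eJ = 0 := by
    have h := hX eJ eJ eJ
    rw [hn.tri_swap₁₂ (X *ᵥ eJ), tri_e, tri_e, TJ_e_e, TJ_comm eJ (X *ᵥ eJ)] at h
    linear_combination h / 6
  refine ⟨X *ᵥ eJ, h0, ?_⟩
  have hd : Der (nJ ℝ) (X - pM (X *ᵥ eJ)) 0 := by
    have h := hX.add ((pM_der (X *ᵥ eJ)).smul (-1))
    rw [mul_zero, add_zero, neg_smul, one_smul, ← sub_eq_add_neg] at h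
    exact h
  have hy : PJ * (X - pM (X *ᵥ eJ)) = (X - pM (X *ᵥ eJ))ᵀ * PJ := by
    rw [mul_sub, transpose_sub, sub_mul, hs, pM_symm]
  have he : (X - pM (X *ᵥ eJ)) *ᵥ eJ = 0 := by
    rw [sub_mulVec, pM_e, h0, zero_div, zero_smul, sub_zero, sub_self]
  rw [← sub_eq_zero]
  generalize X - pM (X *ᵥ eJ) = Y at hd hy he
  have hy' := symm_iff.1 hy
  have ht : ∀ y, TJ (Y *ᵥ y) eJ = 0 := fun y => by rw [hy', he, TJ_comm, TJ_zero₁]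
  have hz : ∀ x, Y *ᵥ x = 0 := fun x => by
    refine ext_TJ fun y => ?_
    have h := hd eJ x y
    rw [he, tri_e, tri_e, ht, ht, ← hy', tri_eq_dot, ← zero_smul ℝ (0 : I → ℝ), crs_smul_left,
      zero_smul, zero_dotProduct] at h
    rw [TJ_zero₁]
    linear_combination -h / 2
  ext a b
  simpa using congrFun (hz (Pi.single b 1)) a

theorem sum_LJ : ∑ a, (dR a)⁻¹ • LJ (Pi.single a 1) *ᵥ Pi.single a 1 = (9 : ℝ) • eJ := by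
  refine ext_TJ fun w => ?_
  rw [TJ_sum₁, TJ_smul₁, TJ_comm eJ w, ← Der.trace (isAlb_nJ ℝ) (LJ_der w), Matrix.trace]
  refine Finset.sum_congr rfl fun a _ => ?_
  rw [TJ_smul₁, TJ_LJ_swap', TJ_single, ← mul_assoc, inv_mul_cancel₀ (dR_pos a).ne', one_mul]
  simp

end Pool.Agent.P.MP_3c2f8c_gt.Ex
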