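import Pool.Agent.P.MP_3c2f8c_gt.Ex.An.Fix
import Pool.Agent.P.MP_3c2f8c_gt.Ex.An.Cone

/-! EXA-Link: from the symmetric space to the group. -/

namespace Pool.Agent.P.MP_3c2f8c_gt.Ex

open Matrix MeasureTheory Topology

variable {G G' Z : Type} [Group G] [Group G'] [MulAction G XS] [MulAction G' XS] [MulAction G Z]
  [MulAction G' Z] {ρ : G →* E6} {ρ' : G' →* E6} {κ : Z → Z → ℕ}

theorem Nice.niceA [MulAction G E6] (N : Nice G Z ρ) (act : ∀ (g : G) (x : E6), g • x = ρ g * x) :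
    NiceA G Z ρ := by
  refine ⟨act, fun g z h1 h2 => N.free g oX z ?_ h2, fun z z' R => ?_, ?_⟩
  · rw [N.act, h1, one_smul]
  · refine (N.proper z z' R).subset ?_
    rintro g ⟨h1, h2⟩
    exact ⟨h1, by rw [N.act]; exact h2⟩
  · obtain ⟨R, s, h⟩ := N.cocpt
    refine ⟨R, s, fun x z => ?_⟩
    obtain ⟨g, h1, h2⟩ := h (x • oX) z
    refine ⟨g, ?_, h2⟩
    rw [mul_smul, ← N.act]
    exact h1

theorem Transfer.transferL (N : Nice G Z ρ) (N' : Nice G' Z ρ') (tr : Transfer G G' κ) :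
    TransferL ρ ρ' κ := by
  obtain ⟨Reg, φ, h1, h2, h3⟩ := tr
  refine ⟨Reg, φ, h1, fun γ hγ => ?_, h3⟩
  obtain ⟨τ, g, Ψ, a1, a2, a3, a4⟩ := h2 γ hγ
  refine ⟨τ, g, Ψ, a1, fun t => eq_of_smul_eq fun x => ?_, a3, a4⟩
  rw [mul_smul, mul_smul, ← N.act, ← N'.act]
  exact (a2 t x).symm

theorem Nice.countable [Countable G] (N : Nice G Z ρ) : Countable Z := by
  obtain ⟨R, s, h⟩ := N.cocpt
  refine Function.Surjective.countable (f := fun p : G × s => p.1⁻¹ • (p.2 : Z)) fun z => ?_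
  obtain ⟨g, -, h2⟩ := h oX z
  exact ⟨(g, ⟨g • z, h2⟩), inv_smul_smul g z⟩

theorem Nice.isClosedMfd' (N : Nice G Z ρ) (z : Z) :
    IsClosedMfd ((MulAction.stabilizer G z).map ρ) := by
  classical
  refine ⟨fun C => ?_, ?_, ?_⟩
  · obtain ⟨R, hR⟩ := AA_le_of_entry C
    refine ((N.proper z z R).image ρ).subset ?_
    rintro g ⟨⟨h, hh, rfl⟩, hC⟩
    exact ⟨h, ⟨hh, by rw [N.act]; exact hR _ hC⟩, rfl⟩
  · rintro g ⟨h, hh, rfl⟩ hf
    obtain ⟨x, hx⟩ := exists_fixed hf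
    rw [N.free h x z (by rw [N.act]; exact hx) hh, map_one]
  · obtain ⟨R, s, h⟩ := N.cocpt
    have hc : ∀ z' : Z, ∃ k : G, (∃ g : G, g • z = z') → k • z = z' := fun z' => by
      by_cases e : ∃ g : G, g • z = z'
      · obtain ⟨g, hg⟩ := e
        exact ⟨g, fun _ => hg⟩
      · exact ⟨1, fun e' => absurd e' e⟩
    choose k hk using hc
    refine ⟨⋃ z' ∈ s, {y : XS | AA ((ρ (k z'))⁻¹ • oX) y ≤ R},
      s.isCompact_biUnion fun z' _ => isCompact_ball _ _, fun x => ?_⟩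
    obtain ⟨g, h1, h2⟩ := h x z
    refine ⟨ρ ((k (g • z))⁻¹ * g), ⟨_, ?_, rfl⟩, ?_⟩
    · show ((k (g • z))⁻¹ * g) • z = z
      rw [mul_smul, inv_smul_eq_iff, hk (g • z) ⟨g, rfl⟩]
    · refine Set.mem_biUnion h2 ?_
      show AA _ _ ≤ R
      rw [map_mul, map_inv, mul_smul, AA_smul, ← N.act]
      exact h1

end Pool.Agent.P.MP_3c2f8c_gt.Ex
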