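import Pool.Agent.P.MP_3c2f8c_gt.Ex.An.Nice
import Pool.Agent.P.MP_3c2f8c_gt.An.Per

/-! EXA-Pk1: product kernels. -/

namespace Pool.Agent.P.MP_3c2f8c_gt.Ex

open Matrix MeasureTheory Topology
open Pool.Agent.P.MP_3c2f8c_gt.E6 (PK KInv Act perK kcomp CI IsK SpecData)

variable {Z : Type}
  [TopologicalSpace Z] [DiscreteTopology Z] [MeasurableSpace Z] [DiscreteMeasurableSpace Z]
  [Countable Z] {G : Type} [Group G] [Countable G] [MulAction G E6] [MulAction G Z]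
  {ρ : G →* E6} {D : Set (E6 × Z)} {κ : Z → Z → ℕ}
  {Θ : E6 → ℝ} {q q' : E6 × Z → E6 × Z → ℝ}

theorem Pk1Aux.exists_ne {w v : E6 × Z} (h : kcomp (nm Z) q q' w v ≠ 0) :
    ∃ t, q w t ≠ 0 ∧ q' t v ≠ 0 := by
  by_contra h'
  refine h ((integral_congr_ae (.of_forall fun t => ?_)).trans (integral_zero _ _))
  by_contra h1
  exact h' ⟨t, mul_ne_zero_iff.1 h1⟩

theorem kpow_finite (hfin : ∀ z, {z' | κ z z' ≠ 0}.Finite) (m : ℕ) (z : Z) :
    {z' | kpow κ m z z' ≠ 0}.Finite := by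
  refine Set.Finite.subset (s := {z' | Chain κ m z z'}) ?_ fun _ h => chain_of_kpow h
  induction m generalizing z with
  | zero => exact (Set.finite_singleton z).subset fun _ h => Eq.symm h
  | succ m ih =>
    exact ((hfin z).biUnion fun y _ => ih y).subset fun _ ⟨y, h1, h2⟩ => Set.mem_biUnion h1 h2

theorem pk_PK (hΘ : Continuous Θ) (hs : HasCompactSupport Θ)
    (hfin : ∀ z, {z' | κ z z' ≠ 0}.Finite) (m : ℕ) : PK (pk Θ κ m) := by
  refine ⟨?_, fun C hC => ?_⟩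
  · refine (hΘ.comp (by fun_prop)).mul ((continuous_of_discreteTopology
      (f := fun p : Z × Z => (kpow κ m p.1 p.2).toReal)).comp
        (f := fun p : (E6 × Z) × E6 × Z => (p.1.2, p.2.2)) (by fun_prop))
  · refine ⟨_, ((hC.image continuous_fst).mul hs.isCompact).prod
      ((hC.image continuous_snd).finite_of_discrete.biUnion
        fun z _ => kpow_finite hfin m z).isCompact, fun w hw v hv => ?_⟩
    obtain ⟨h1, h2⟩ := mul_ne_zero_iff.1 hv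
    exact ⟨⟨_, ⟨w, hw, rfl⟩, _, subset_tsupport _ h1, mul_inv_cancel_left _ _⟩,
      Set.mem_biUnion ⟨w, hw, rfl⟩ fun e => h2 (by rw [e, ENNReal.toReal_zero])⟩

theorem pk_ksym (Θ : E6 → ℝ) (κ : Z → Z → ℕ) (m : ℕ) : KSym κ (pk Θ κ m) := fun g Ψ h w v => by
  simp only [pk, kpow_equiv Ψ h, _root_.mul_inv_rev, mul_assoc, inv_mul_cancel_left]

theorem pk_kch (Θ : E6 → ℝ) (κ : Z → Z → ℕ) (m : ℕ) : KCh κ m (pk Θ κ m) := fun _ _ h =>
  chain_of_kpow fun e => (mul_ne_zero_iff.1 h).2 (by rw [e, ENNReal.toReal_zero])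

theorem pk_symm (hs : ∀ g, Θ g⁻¹ = Θ g) (κ : Z → Z → ℕ) (w v : E6 × Z) :
    pk Θ κ 0 w v = pk Θ κ 0 v w := by
  simp only [pk, kpow]
  rw [← hs, _root_.mul_inv_rev, inv_inv]
  by_cases e : w.2 = v.2
  · rw [if_pos e, if_pos e.symm]
  · rw [if_neg e, if_neg (Ne.symm e)]

theorem KSym.comp (h : KSym κ q) (h' : KSym κ q') : KSym κ (kcomp (nm Z) q q') := fun g Ψ e w v => by
  obtain ⟨T, h1, h2⟩ := nu_left g Ψ
  rw [kcomp, kcomp, ← h2.integral_comp']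
  simp only [h1, h g Ψ e w, h' g Ψ e _ v]

theorem KCh.comp_left {m : ℕ} (h : KCh κ 0 q) (h' : KCh κ m q') :
    KCh κ m (kcomp (nm Z) q q') := fun w v e => by
  obtain ⟨t, h1, h2⟩ := Pk1Aux.exists_ne e
  have h3 : w.2 = t.2 := h _ _ h1
  exact h3 ▸ h' _ _ h2

theorem KCh.comp_right {m : ℕ} (h : KCh κ m q) (h' : KCh κ 0 q') :
    KCh κ m (kcomp (nm Z) q q') := fun w v e => by
  obtain ⟨t, h1, h2⟩ := Pk1Aux.exists_ne e
  have h3 : t.2 = v.2 := h' _ _ h2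
  exact h3 ▸ h _ _ h1

theorem KSym.kinv (h : KSym κ q) (N : NiceA G Z ρ)
    (hinv : ∀ (g : G) z z', κ (g • z) (g • z') = κ z z') : KInv G q := fun g w v => by
  rw [← h (ρ g) (MulAction.toPerm g) (hinv g) w v, ← N.act, ← N.act]
  rfl

end Pool.Agent.P.MP_3c2f8c_gt.Ex
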