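import Pool.Agent.P.MP_3c2f8c_gt.Ex.An.Green2

/-! EXA-Poin1: correlations of eigenfunctions. -/

namespace Pool.Agent.P.MP_3c2f8c_gt.Ex

open Matrix MeasureTheory Topology
open Pool.Agent.P.MP_3c2f8c_gt.E6 (PK KInv Act perK kcomp CI IsK SpecData)

variable {Z : Type}
  [TopologicalSpace Z] [DiscreteTopology Z] [MeasurableSpace Z] [DiscreteMeasurableSpace Z]
  [Countable Z] {G : Type} [Group G] [Countable G] [MulAction G E6] [MulAction G Z]
  {ρ : G →* E6} {D : Set (E6 × Z)} {κ : Z → Z → ℕ}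
  {ev : ℝ} {f : CI (E6 × Z) G}

theorem NiceA.corr_ge (N : NiceA G Z ρ) (A : Act G (nm Z) D)
    (hf : f ∈ EigY Z G ev) {X : I → ℝ} (h : TJ X X * |ev| ≤ 1 / 4) :
    1 / 2 * ∫ w in D, f.1 w ^ 2 ∂nm Z ≤
      ∫ w in D, f.1 w * f.1 (w.1 * eA X, w.2) ∂nm Z := by
  have hs : ∀ z, GS fun x => f.1 (x, z) := fun z => (mem_eigG_iff.1 (hf z)).1.gs
  have hm := N.ldy_mem f hs X
  have hm2 : (fun w => LDY X f.1 w ^ 2) ∈ CI (E6 × Z) G :=
    ⟨hm.1.pow 2, fun g w => by simp only [hm.2 g w]⟩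
  obtain ⟨s, -, e⟩ := exists_hasDerivAt_eq_slope _ _ zero_lt_one
    (fun t _ => (N.hasDerivAt_corr A f f hs X t).continuousAt.continuousWithinAt)
    fun t _ => N.hasDerivAt_corr A f f hs X t
  simp only [one_smul, zero_smul, eA_zero, mul_one, sub_zero, div_one, ← sq] at e
  have i1 : IntegrableOn (fun w => f.1 w ^ 2) D (nm Z) := A.integrableOn (f.2.1.pow 2)
  have i2 : IntegrableOn (fun w : E6 × Z => LDY X f.1 (w.1 * eA (s • X), w.2) ^ 2) D
      (nm Z) := A.integrableOn (N.right_mem ⟨_, hm2⟩ _).1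
  have h1 : ∫ w in D, -(1 / 4 * f.1 w ^ 2 + LDY X f.1 (w.1 * eA (s • X), w.2) ^ 2) ∂nm Z ≤
      ∫ w in D, f.1 w * LDY X f.1 (w.1 * eA (s • X), w.2) ∂nm Z :=
    integral_mono ((i1.const_mul _).add i2).neg
      (A.integrableOn (f.2.1.mul (N.right_mem ⟨_, hm⟩ _).1)) fun w => by
        nlinarith [sq_nonneg (f.1 w / 2 + LDY X f.1 (w.1 * eA (s • X), w.2))]
  rw [integral_neg, integral_add (i1.const_mul _) i2, integral_const_mul, e] at h1
  have h2 := N.integral_right A ⟨_, hm2⟩ (eA (s • X))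
  have h3 := N.integral_ldy_sq A hf X
  have h4 : 0 ≤ ∫ w in D, f.1 w ^ 2 ∂nm Z := integral_nonneg fun w => sq_nonneg _
  have h5 := mul_le_mul_of_nonneg_right
    ((mul_le_mul_of_nonneg_left (le_abs_self ev) (TJ_self_nonneg X)).trans h) h4
  simp only at h2
  rw [h2] at h1
  rw [← mul_assoc] at h3
  linarith

theorem NiceA.const_of_zero (N : NiceA G Z ρ)
    (A : Act G (nm Z) D) (hf : f ∈ EigY Z G 0) (x y : E6) (z : Z) :
    f.1 (x, z) = f.1 (y, z) := by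
  have hs : ∀ z, GS fun x => f.1 (x, z) := fun z => (mem_eigG_iff.1 (hf z)).1.gs
  obtain ⟨X, u, -, hu, e⟩ := exists_polar (x⁻¹ * y)
  have h0 := A.eq_zero_of_sq ⟨_, N.ldy_mem f hs X⟩
    ((N.integral_ldy_sq A hf X).trans_eq (by rw [zero_mul, mul_zero]))
  have h1 : ∀ g, LD X (fun x => f.1 (x, z)) g = 0 := fun g =>
    congrFun (congrArg Subtype.val h0) (g, z)
  have h2 := is_const_of_deriv_eq_zero (f := fun t : ℝ => f.1 (x * eA (t • X), z))
    (fun t => ((hs z).hasDerivAt X x t).differentiableAt)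
    (fun t => ((hs z).hasDerivAt X x t).deriv.trans (h1 _)) 0 1
  rw [zero_smul, one_smul, eA_zero, mul_one] at h2
  rw [h2, ← mul_inv_cancel_left x y, e, ← mul_assoc]
  exact ((mem_eigG_iff.1 (hf z)).1.right hu _).symm

end Pool.Agent.P.MP_3c2f8c_gt.Ex
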