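import Pool.Agent.P.MP_3c2f8c_gt.Ex.An.Poin1
import Pool.Agent.P.MP_3c2f8c_gt.Ex.An.Pk2
import Pool.Agent.P.MP_3c2f8c_gt.Ex.An.DInt

/-! EXA-Poin2: the smoothing operator is coercive on eigenfunctions. -/

namespace Pool.Agent.P.MP_3c2f8c_gt.Ex

open Matrix MeasureTheory Topology
open Pool.Agent.P.MP_3c2f8c_gt.E6 (PK KInv Act perK kcomp CI IsK SpecData)

variable {Z : Type}
  [TopologicalSpace Z] [DiscreteTopology Z] [MeasurableSpace Z] [DiscreteMeasurableSpace Z]
  [Countable Z] {G : Type} [Group G] [Countable G] [MulAction G E6] [MulAction G Z]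
  {ρ : G →* E6} {D : Set (E6 × Z)} {κ : Z → Z → ℕ}
  {ev δ : ℝ} {f : CI (E6 × Z) G} {φ : E6 → ℝ} {L : Module.End ℝ (CI (E6 × Z) G)}

theorem NiceA.coercive (N : NiceA G Z ρ) (A : Act G (nm Z) D)
    (hφ : Ker δ φ) (hδ : δ * |ev| ≤ 1 / 2) (hfin : ∀ z, {z' | κ z z' ≠ 0}.Finite)
    (hk : IsK (nm Z) (pk φ κ 0) L) (hf : f ∈ EigY Z G ev) :
    1 / 2 * ∫ w in D, f.1 w ^ 2 ∂nm Z ≤ ∫ w in D, (L f).1 w * f.1 w ∂nm Z := by
  have hc : Continuous φ := hφ.lift.gs.continuous
  have hint : Integrable φ mu := hc.integrable_of_hasCompactSupport hφ.supp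
  have := A.finite
  obtain ⟨C, hC⟩ := A.bound f
  have hfc : Continuous f.1 := f.2.1
  have h1 : ∀ w : E6 × Z, (L f).1 w * f.1 w =
      ∫ y, φ y * (f.1 w * f.1 (w.1 * y, w.2)) ∂mu := by
    intro w
    have h2 : (L f).1 w = cv φ (fun x => f.1 (x, w.2)) w.1 :=
      congrFun (isK_slice hc hφ.supp hfin hk f w.2) w.1
    rw [h2, cv_eq, ← integral_mul_const]
    refine integral_congr_ae (Filter.Eventually.of_forall fun y => ?_)
    ring
  have hI : Integrable (Function.uncurry fun (w : E6 × Z) (y : E6) =>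
      φ y * (f.1 w * f.1 (w.1 * y, w.2))) (((nm Z).restrict D).prod mu) := by
    refine ((integrable_const (C * C)).mul_prod hint).mono' ?_
      (Filter.Eventually.of_forall fun p => ?_)
    · refine Continuous.aestronglyMeasurable ?_
      exact (hc.comp continuous_snd).mul ((hfc.comp continuous_fst).mul
        (hfc.comp ((continuous_fst.fst.mul continuous_snd).prodMk continuous_fst.snd)))
    · change ‖φ p.2 * (f.1 p.1 * f.1 (p.1.1 * p.2, p.1.2))‖ ≤ C * C * φ p.2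
      rw [Real.norm_eq_abs, abs_mul, abs_mul, abs_of_nonneg (hφ.nonneg _), mul_comm]
      exact mul_le_mul_of_nonneg_right (mul_le_mul (hC _) (hC _) (abs_nonneg _)
        ((abs_nonneg _).trans (hC p.1))) (hφ.nonneg _)
  simp only [h1]
  have h7 : ∀ c : ℝ, c = ∫ y, φ y * c ∂mu := fun c => by
    rw [integral_mul_const, hφ.int, one_mul]
  rw [integral_integral_swap hI, h7 (1 / 2 * _)]
  refine integral_mono (hint.mul_const _) hI.integral_prod_right fun y => ?_
  change φ y * _ ≤ ∫ w in D, φ y * (f.1 w * f.1 (w.1 * y, w.2)) ∂nm Z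
  rw [integral_const_mul]
  by_cases hy : φ y = 0
  · rw [hy, zero_mul, zero_mul]
  refine mul_le_mul_of_nonneg_left ?_ (hφ.nonneg y)
  obtain ⟨X, u, hX, hu, rfl⟩ := exists_polar y
  have h3 := hφ.near _ hy
  rw [mul_smul, hu] at h3
  replace h3 := (le_AA_eA hX).trans h3
  have h8 := TJ_self_nonneg X
  have h4 : TJ X X * |ev| ≤ 1 / 4 := by
    have h5 := mul_le_mul_of_nonneg_right (show 2 * TJ X X ≤ δ by linarith) (abs_nonneg ev)
    linarith
  have h6 : ∀ w : E6 × Z, f.1 (w.1 * (eA X * u), w.2) = f.1 (w.1 * eA X, w.2) := by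
    intro w
    rw [← mul_assoc]
    exact (mem_eigG_iff.1 (hf w.2)).1.right hu _
  simp only [h6]
  exact N.corr_ge A hf h4

end Pool.Agent.P.MP_3c2f8c_gt.Ex
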