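import Pool.Agent.P.MP_3c2f8c_gt.Ex.An.Exp
import Pool.Agent.P.MP_3c2f8c_gt.E6.An.Polar

/-! EXA-Polar: the polar decomposition and the determinant. -/

namespace Pool.Agent.P.MP_3c2f8c_gt.Ex

open Matrix MeasureTheory Topology

namespace PolarAux

open Pool.Agent.P.MP_3c2f8c_gt.E6 (exp_diag diag_mulVec_col)
open Pool.Agent.P.MP_3c2f8c_gt.E6.PolarAux (cind col_ext col_ne)

theorem act_mul (a b : E6) (x : I → ℝ) : (a * b).1.1 *ᵥ x = a.1.1 *ᵥ (b.1.1 *ᵥ x) :=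
  (mulVec_mulVec _ _ _).symm

theorem act_one (x : I → ℝ) : (1 : E6).1.1 *ᵥ x = x := one_mulVec x

theorem lin0 (V : GL I ℝ) (F : (I → ℝ) → ℝ) (ha : ∀ x y, F (x + y) = F x + F y)
    (hs : ∀ (c : ℝ) x, F (c • x) = c * F x) (h : ∀ i, F (V.1 *ᵥ Pi.single i 1) = 0) (x : I → ℝ) :
    F x = 0 :=
  cind V (P := fun x => F x = 0) (by simpa using hs 0 0)
    (fun x y hx hy => by rw [ha, hx, hy, add_zero]) (fun c x hx => by rw [hs, hx, mul_zero]) h x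

theorem dot_ext {A B : Matrix I I ℝ} (h : ∀ x y, x ⬝ᵥ A *ᵥ y = x ⬝ᵥ B *ᵥ y) : A = B := by
  ext i j
  simpa using h (Pi.single i 1) (Pi.single j 1)

theorem sym_of {A : Matrix I I ℝ} (h : ∀ x y, TJ (A *ᵥ x) y = TJ x (A *ᵥ y)) :
    PJ * A = Aᵀ * PJ := dot_ext fun x y => by
  rw [← mulVec_mulVec, ← mulVec_mulVec, ← TJ_dot, ← h, TJ_dot, dotProduct_mulVec x,
    vecMul_transpose]

theorem TJ_smul₁ (c : ℝ) (x y : I → ℝ) : TJ (c • x) y = c * TJ x y := by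
  rw [TJ_dot, TJ_dot, smul_dotProduct, smul_eq_mul]

theorem TJ_add₁ (x x' y : I → ℝ) : TJ (x + x') y = TJ x y + TJ x' y := by
  rw [TJ_dot, TJ_dot, TJ_dot, add_dotProduct]

theorem TJ_smul₂ (c : ℝ) (x y : I → ℝ) : TJ x (c • y) = c * TJ x y := by
  rw [TJ_comm, TJ_smul₁, TJ_comm]

theorem TJ_add₂ (x y y' : I → ℝ) : TJ x (y + y') = TJ x y + TJ x y' := by
  rw [TJ_comm, TJ_add₁, TJ_comm y, TJ_comm y']

theorem sqrt {p : E6} (h1 : ∀ x y, TJ (p.1.1 *ᵥ x) y = TJ x (p.1.1 *ᵥ y))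
    (h2 : ∀ x, x ≠ 0 → 0 < TJ (p.1.1 *ᵥ x) x) : ∃ v, TJ v eJ = 0 ∧ eA v * eA v = p := by
  obtain ⟨V, d, hp⟩ := Pool.Agent.P.MP_3c2f8c_gt.E6.exists_diag PJ_posDef (sym_of h1)
  have hc : ∀ i, p.1.1 *ᵥ (V.1 *ᵥ Pi.single i 1) = d i • (V.1 *ᵥ Pi.single i 1) := fun i => by
    rw [hp, diag_mulVec_col]
  have hd : ∀ i, 0 < d i := fun i => by
    have a1 := h2 _ (col_ne V i)
    rw [hc, TJ_smul₁] at a1
    exact pos_of_mul_pos_left a1 (TJ_self_nonneg _)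
  obtain ⟨D, hD⟩ : ∃ D, D = V.1 * diagonal (fun i => Real.log (d i) / 2) * (V⁻¹).1 := ⟨_, rfl⟩
  have he : ∀ i, D *ᵥ (V.1 *ᵥ Pi.single i 1) = (Real.log (d i) / 2) • (V.1 *ᵥ Pi.single i 1) :=
    fun i => by rw [hD, diag_mulVec_col]
  have hder : Der (nJ ℝ) D 0 := fun x y z => by
    rw [zero_mul]
    refine lin0 V (fun x => tri (nJ ℝ) (D *ᵥ x) y z + tri (nJ ℝ) x (D *ᵥ y) z +
      tri (nJ ℝ) x y (D *ᵥ z)) (fun a b => by simp only [mulVec_add, tri_add₁]; ring)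
      (fun c a => by simp only [mulVec_smul, tri_smul₁]; ring) (fun i => ?_) x
    refine lin0 V (fun y => tri (nJ ℝ) (D *ᵥ (V.1 *ᵥ Pi.single i 1)) y z +
      tri (nJ ℝ) (V.1 *ᵥ Pi.single i 1) (D *ᵥ y) z +
      tri (nJ ℝ) (V.1 *ᵥ Pi.single i 1) y (D *ᵥ z))
      (fun a b => by simp only [mulVec_add, tri_add₂]; ring)
      (fun c a => by simp only [mulVec_smul, tri_smul₂]; ring) (fun j => ?_) y
    refine lin0 V (fun z => tri (nJ ℝ) (D *ᵥ (V.1 *ᵥ Pi.single i 1)) (V.1 *ᵥ Pi.single j 1) z +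
      tri (nJ ℝ) (V.1 *ᵥ Pi.single i 1) (D *ᵥ (V.1 *ᵥ Pi.single j 1)) z +
      tri (nJ ℝ) (V.1 *ᵥ Pi.single i 1) (V.1 *ᵥ Pi.single j 1) (D *ᵥ z))
      (fun a b => by simp only [mulVec_add, tri_add₃]; ring)
      (fun c a => by simp only [mulVec_smul, tri_smul₃]; ring) (fun k => ?_) z
    have a1 := tri_E6 p (V.1 *ᵥ Pi.single i 1) (V.1 *ᵥ Pi.single j 1) (V.1 *ᵥ Pi.single k 1)
    rw [hc, hc, hc, tri_smul₁, tri_smul₂, tri_smul₃, ← mul_assoc, ← mul_assoc] at a1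
    rw [he, he, he, tri_smul₁, tri_smul₂, tri_smul₃, ← add_mul, ← add_mul]
    rcases mul_eq_mul_right_iff.1 (a1.trans (one_mul _).symm) with h | h
    · rw [← add_div, ← add_div, ← Real.log_mul (hd i).ne' (hd j).ne',
        ← Real.log_mul (mul_pos (hd i) (hd j)).ne' (hd k).ne', h, Real.log_one, zero_div, zero_mul]
    · rw [h, mul_zero]
  have hsym : ∀ x y, TJ (D *ᵥ x) y = TJ x (D *ᵥ y) := fun x y => by
    rw [← sub_eq_zero]
    refine lin0 V (fun x => TJ (D *ᵥ x) y - TJ x (D *ᵥ y))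
      (fun a b => by simp only [mulVec_add, TJ_add₁]; ring)
      (fun c a => by simp only [mulVec_smul, TJ_smul₁]; ring) (fun i => ?_) x
    refine lin0 V (fun y => TJ (D *ᵥ (V.1 *ᵥ Pi.single i 1)) y -
      TJ (V.1 *ᵥ Pi.single i 1) (D *ᵥ y))
      (fun a b => by simp only [mulVec_add, TJ_add₂]; ring)
      (fun c a => by simp only [mulVec_smul, TJ_smul₂]; ring) (fun j => ?_) y
    have a1 := h1 (V.1 *ᵥ Pi.single i 1) (V.1 *ᵥ Pi.single j 1)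
    rw [hc, hc, TJ_smul₁, TJ_smul₂] at a1
    rw [he, he, TJ_smul₁, TJ_smul₂]
    rcases mul_eq_mul_right_iff.1 a1 with h | h
    · rw [h, sub_self]
    · rw [h, mul_zero, mul_zero, sub_self]
  obtain ⟨v, hv, hX⟩ := exists_pM hder (sym_of hsym)
  refine ⟨v, hv, Subtype.ext (Units.ext (col_ext V fun i => ?_))⟩
  rw [act_mul, eA_val, ← hX, hD, exp_diag, diag_mulVec_col, mulVec_smul, diag_mulVec_col,
    smul_smul, ← Real.exp_add, add_halves, Real.exp_log (hd i), hc]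

end PolarAux

theorem exists_polar (g : E6) :
    ∃ (v : I → ℝ) (u : E6), TJ v eJ = 0 ∧ u • oX = oX ∧ g = eA v * u := by
  have h0 : ∀ x y, TJ ((g * (th g)⁻¹).1.1 *ᵥ x) y =
      TJ ((th g)⁻¹.1.1 *ᵥ x) ((th g)⁻¹.1.1 *ᵥ y) := fun x y => by
    rw [← TJ_th g ((th g)⁻¹.1.1 *ᵥ x), ← PolarAux.act_mul, ← PolarAux.act_mul, mul_inv_cancel,
      PolarAux.act_one]
  obtain ⟨v, h1, h2⟩ := PolarAux.sqrt (p := g * (th g)⁻¹)
    (fun x y => by rw [TJ_comm x, h0, h0, TJ_comm]) fun x hx => by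
      rw [h0]
      refine lt_of_not_ge fun h => hx ?_
      have h3 := congrArg (fun w => (th g).1.1 *ᵥ w) (eq_zero_of_TJ h)
      simp only [mulVec_zero] at h3
      rwa [← PolarAux.act_mul, mul_inv_cancel, PolarAux.act_one] at h3
  refine ⟨v, (eA v)⁻¹ * g, h1, (th_eq_self_iff _).1 ?_, (mul_inv_cancel_left _ _).symm⟩
  rw [th_mul, th_inv, th_eA, eA_neg, inv_inv, eq_inv_mul_iff_mul_eq, ← mul_assoc, h2,
    inv_mul_cancel_right]

theorem det_eA (v : I → ℝ) : (eA v).1.1.det = 1 := by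
  obtain ⟨V, d, hp⟩ := Pool.Agent.P.MP_3c2f8c_gt.E6.exists_diag PJ_posDef (pM_symm v)
  have h1 := trace_pM v
  rw [hp, trace_units_conj, trace_diagonal] at h1
  rw [eA_val, hp, Pool.Agent.P.MP_3c2f8c_gt.E6.exp_diag, det_units_conj, det_diagonal,
    ← Real.exp_sum, h1, Real.exp_zero]

theorem abs_det_E6' (g : E6) : |g.1.1.det| = 1 := by
  obtain ⟨v, u, -, hu, rfl⟩ := exists_polar g
  have h1 : u.1.1ᵀ * (PJ * u.1.1) = PJ := PolarAux.dot_ext fun x y => by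
    rw [← mulVec_mulVec, ← mulVec_mulVec, dotProduct_mulVec x, vecMul_transpose, ← TJ_dot,
      ← TJ_dot, (orth_iff u).2 hu]
  have h2 := congrArg det h1
  rw [det_mul, det_mul, det_transpose, mul_left_comm,
    mul_eq_left₀ PJ_posDef.det_pos.ne'] at h2
  rw [show (eA v * u).1.1 = (eA v).1.1 * u.1.1 from rfl, det_mul, det_eA, one_mul]
  rcases mul_self_eq_one_iff.1 h2 with h | h <;> simp [h]

theorem th_eq_inv {f : E6 → ℝ} (hl : ∀ u : E6, u • oX = oX → ∀ g, f (u * g) = f g)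
    (hr : ∀ u : E6, u • oX = oX → ∀ g, f (g * u) = f g) (g : E6) : f (th g) = f g⁻¹ := by
  obtain ⟨v, u, -, hu, rfl⟩ := exists_polar g
  rw [th_mul, (th_eq_self_iff u).2 hu, hr u hu, th_eA, eA_neg, _root_.mul_inv_rev,
    hl u⁻¹ (inv_smul_eq_iff.2 hu.symm)]

end Pool.Agent.P.MP_3c2f8c_gt.Ex
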